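import Pool.Agent.Lib.MP_60829e_nt.FS.Hyp

/-! # The derivations which kill the parameters and the rows outside `B` -/

open MvPolynomial Module

namespace MP60829e.HD

open MP60829e.ST (Qa Lsp Lt)
open MP60829e.PS
open MP60829e.SB

/-- The derivations in `Δ` which kill `z` and the rows outside `B` of `M` give at most
`|B| (|B| - 1)` independent vectors, if the partial derivatives in `B` are independent. -/
theorem rk_B {I ζ ι : Type} [Fintype ζ] [Fintype ι] [DecidableEq ι] {r : ℕ}
    (lam : Fin r → ℂ) (hlam : LinearIndependent Qa lam) (hlog : ∀ j, lam j ∈ Lsp)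
    (U : Ultrafilter I) (G : MvPolynomial (ζ ⊕ ι) ℂ) (z : I → ζ → Qa) (M : I → ι × Fin r → Qa)
    (h : ∀ᶠ a in (U : Filter I), eval (pv (z a) (pt lam (M a))) G = 0) (B : Finset ι)
    (hli : ∀ᶠ a in (U : Filter I), LinearIndependent Qa fun i : {i // i ∈ B} =>
      eval (pv (z a) (pt lam (M a))) (pderiv (Sum.inr i.1) G))
    (b : I → {i // i ∈ B} × Fin r → Qa) (hb : ∀ a i l, b a (i, l) = M a (i.1, l))
    (Δ : Submodule (UP U Qa) (Derivation Qa (UP U Qa) (UP U Qa)))
    (hz : ∀ D ∈ Δ, ∀ t, D (cls U z t) = 0)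
    (hM : ∀ D ∈ Δ, ∀ i ∉ B, ∀ l, D (cls U M (i, l)) = 0) :
    rk Δ (cls U b) ≤ B.card * (B.card - 1) := by
  classical
  by_contra hcon
  obtain ⟨D, hD, hDi⟩ := exists_of_le_rk (N := B.card * (B.card - 1) + 1) Δ (cls U b) (by omega)
  -- representatives
  have hrep : ∀ (s : Fin (B.card * (B.card - 1) + 1)) (p : ι × Fin r),
      ∃ e : I → Qa, UP.mk U e = D s (cls U M p) := fun s p => UP.mk_surjective U _
  choose e he using hrep
  obtain ⟨T, hT⟩ : ∃ T : Fin (B.card * (B.card - 1) + 1) → I → ι × Fin r → Qa,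
      T = fun s a p => e s p a := ⟨_, rfl⟩
  have hTD : ∀ s p, cls U (T s) p = D s (cls U M p) := by
    intro s p
    rw [← he s p, hT]
    rfl
  obtain ⟨E, hE⟩ : ∃ E : Fin (B.card * (B.card - 1) + 1) → I → {i // i ∈ B} × Fin r → Qa,
      E = fun s a p => T s a (p.1.1, p.2) := ⟨_, rfl⟩
  have hED : ∀ s, cls U (E s) = evl (cls U b) (D s) := by
    intro s
    funext ⟨i, l⟩
    have h1 : cls U b (i, l) = cls U M (i.1, l) := by
      unfold cls
      congr 1
      funext a
      exact hb a i l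
    rw [evl_apply, h1, ← hTD, hE]
    rfl
  have hEi : LinearIndependent (UP U Qa) fun s => cls U fun a => (fun s' => E s' a) s := by
    have h1 : (fun s => cls U fun a => (fun s' => E s' a) s) = fun s => evl (cls U b) (D s) := by
      funext s
      exact hED s
    rw [h1]
    exact hDi
  have h2 := eventually_li U (fun a s => E s a) hEi
  have h3 : ∀ᶠ a in (U : Filter I), ∀ s, ∑ i, eval (pv (z a) (pt lam (M a)))
      (pderiv (Sum.inr i) G) * pt lam (T s a) i = 0 :=
    Filter.eventually_all.2 fun s => tangent U lam G z M h (D s) (hz _ (hD s)) (T s) (hTD s)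
  -- the rows outside B
  have h0 : ∀ᶠ a in (U : Filter I), ∀ s, ∀ i : {i // i ∉ B}, ∀ l, T s a (i.1, l) = 0 := by
    refine Filter.eventually_all.2 fun s => Filter.eventually_all.2 fun i =>
      Filter.eventually_all.2 fun l => ?_
    have h4 : cls U (T s) (i.1, l) = 0 := by rw [hTD, hM _ (hD s) _ i.2]
    exact UP.mk_eq_zero.1 h4
  obtain ⟨a, ⟨⟨ha1, ha2⟩, ha3⟩, ha4⟩ := (((h2.and h3).and hli).and h0).exists
  have h4 := FS.hyp_countS lam hlam hlog _ ha3 (fun s => E s a) ha1 (fun s => by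
    rw [← ha2 s]
    have h5 : ∀ i : {i // i ∈ B}, pt lam (E s a) i = pt lam (T s a) i.1 := by
      intro i
      rw [hE]
      rfl
    simp only [h5]
    have h6 : ∀ i ∉ B, eval (pv (z a) (pt lam (M a))) (pderiv (Sum.inr i) G) *
        pt lam (T s a) i = 0 := by
      intro i hi
      have h7 : pt lam (T s a) i = 0 := by
        unfold pt
        refine Finset.sum_eq_zero fun l _ => ?_
        rw [ha4 s ⟨i, hi⟩ l, zero_smul]
      rw [h7, mul_zero]
    rw [← Finset.sum_subset (Finset.subset_univ B) fun i _ hi => h6 i hi]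
    exact Finset.sum_coe_sort B fun i => eval (pv (z a) (pt lam (M a)))
      (pderiv (Sum.inr i) G) * pt lam (T s a) i)
  rw [Fintype.card_coe] at h4
  omega

end MP60829e.HD
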