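import Pool.Agent.Lib.MP_60829e_nt.HD.Struct
import Pool.Agent.Lib.MP_60829e_nt.HD.RkB
import Pool.Agent.Lib.MP_60829e_nt.FS.Claim
import Pool.Agent.Lib.MP_60829e_nt.FC.Gen

/-! # The inductive step -/

open MvPolynomial Module

namespace MP60829e.HD

open MP60829e.ST (Qa Lsp Lt)
open MP60829e.PS
open MP60829e.SB

/-- The positions of the generic rows. -/
def Win (j : ℕ → ℕ) (al be : ℕ) : Finset (Σ _ : ℕ, ℕ) :=
  (Finset.Ico al be).sigma fun b => Finset.range (j b)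

/-- The count: a generic family of points with the data of `struct`. -/
theorem count {lam : ℕ → ℂ} (hlam : LinearIndependent Qa lam) (hlog : ∀ i, lam i ∈ Lsp)
    (j : ℕ → ℕ) (V0 : ℕ × ℕ → Qa) {al n : ℕ} {I : Type} (U : Ultrafilter I)
    (A : I → {p // p ∈ Win j al n} → Qa)
    (hA : ∀ P : MvPolynomial {p // p ∈ Win j al n} Qa, P ≠ 0 →
      ∀ᶠ a in (U : Filter I), eval (A a) P ≠ 0)
    (V : I → ℕ × ℕ → Qa) (hV : ∀ a, ∀ p : {p // p ∈ Win j al n}, V a (p.1.1, p.1.2) = A a p)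
    (hV0 : ∀ a p, p.1 < al → V a p = V0 p) {ζ : Type} [Fintype ζ]
    (G : MvPolynomial (ζ ⊕ Fin n) ℂ) (z : I → ζ → Qa)
    (h : ∀ᶠ a in (U : Filter I), eval (pv (z a) fun i : Fin n => val lam j (V a) i.1) G = 0)
    (B : Finset ℕ) (hB : B ⊆ Finset.Ico al n)
    (hli : ∀ᶠ a in (U : Filter I), LinearIndependent Qa fun i : {i : Fin n // i.1 ∈ B} =>
      eval (pv (z a) fun i : Fin n => val lam j (V a) i.1) (pderiv (Sum.inr i.1) G)) :
    ∑ b ∈ B, j b ≤ Fintype.card ζ + B.card * (B.card - 1) := by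
  classical
  -- a common length of the rows
  obtain ⟨r, hr⟩ : ∃ r, ∀ b < n, j b ≤ r :=
    ⟨(Finset.range n).sup j, fun b hb => Finset.le_sup (Finset.mem_range.2 hb)⟩
  obtain ⟨lam', hlam'⟩ : ∃ lam' : Fin r → ℂ, lam' = fun i => lam i.1 := ⟨_, rfl⟩
  have hlam1 : LinearIndependent Qa lam' := by
    rw [hlam']
    exact hlam.comp _ Fin.val_injective
  have hlog1 : ∀ i, lam' i ∈ Lsp := fun i => by rw [hlam']; exact hlog _
  obtain ⟨M, hM⟩ : ∃ M : I → Fin n × Fin r → Qa, M = fun a p =>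
      if p.2.1 < j p.1.1 then V a (p.1.1, p.2.1) else 0 := ⟨_, rfl⟩
  have hpt : ∀ a, (fun i : Fin n => val lam j (V a) i.1) = pt lam' (M a) := by
    intro a
    funext i
    unfold val pt
    rw [hM, hlam']
    dsimp only
    rw [Fin.sum_univ_eq_sum_range (fun l => (if l < j i.1 then V a (i.1, l) else 0) • lam l) r]
    rw [← Finset.sum_subset (Finset.range_subset_range.2 (hr i.1 i.2))]
    · refine Finset.sum_congr rfl fun l hl => ?_
      rw [if_pos (Finset.mem_range.1 hl)]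
    · intro l _ hl
      rw [if_neg (fun h1 => hl (Finset.mem_range.2 h1)), zero_smul]
  obtain ⟨B', hB'⟩ : ∃ B' : Finset (Fin n), B' = Finset.univ.filter fun i => i.1 ∈ B := ⟨_, rfl⟩
  have hmemB' : ∀ i, i ∈ B' ↔ i.1 ∈ B := fun i => by
    rw [hB', Finset.mem_filter]
    exact ⟨fun h1 => h1.2, fun h1 => ⟨Finset.mem_univ _, h1⟩⟩
  have hcardB : B'.card = B.card := by
    have h1 : B'.map Fin.valEmbedding = B := by
      ext b
      rw [Finset.mem_map]
      constructor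
      · rintro ⟨i, hi, rfl⟩
        exact (hmemB' i).1 hi
      · intro hb
        exact ⟨⟨b, (Finset.mem_Ico.1 (hB hb)).2⟩, (hmemB' _).2 hb, rfl⟩
    rw [← h1, Finset.card_map]
  -- derivations
  have hind : AlgebraicIndependent Qa fun s : {p // p ∈ Win j al n} => UP.mk U fun a => A a s := by
    rw [algebraicIndependent_iff]
    intro p hp
    by_contra hne
    have h2 : UP.mk U (fun i => eval (A i) p) = 0 := by
      rw [← hp]
      exact (FC.up_aeval U A p).symm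
    have h3 := UP.mk_eq_zero.1 h2
    obtain ⟨i, hi1, hi2⟩ := (h3.and (hA p hne)).exists
    exact hi2 hi1
  have hex : ∀ s : {p // p ∈ Win j al n}, ∃ D : Derivation Qa (UP U Qa) (UP U Qa),
      ∀ s' : {p // p ∈ Win j al n}, D (UP.mk U fun a => A a s') = if s' = s then 1 else 0 :=
    fun s => exists_derivation_of_algebraicIndependent hind _
  choose D hD using hex
  have hm1 : (Win j al n).card ≤
      rk (⊤ : Submodule (UP U Qa) (Derivation Qa (UP U Qa) (UP U Qa))) (cls U A) := by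
    have h2 := le_rk_of_delta (Finset.univ : Finset {p // p ∈ Win j al n}) (cls U A)
      (fun s => D s.1) (by
        intro s t
        have h3 : cls U A t.1 = UP.mk U fun a => A a t.1 := rfl
        rw [h3, hD]
        simp only [Subtype.ext_iff])
    rwa [Finset.card_univ, Fintype.card_coe] at h2
  -- kill the parameters
  have hm2 := rk_split (⊤ : Submodule (UP U Qa) (Derivation Qa (UP U Qa) (UP U Qa))) (cls U A)
    (cls U z)
  have hm3 := rk_le_card (⊤ : Submodule (UP U Qa) (Derivation Qa (UP U Qa) (UP U Qa))) (cls U z)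
  obtain ⟨Δ1, hΔ1⟩ : ∃ Δ1 : Submodule (UP U Qa) (Derivation Qa (UP U Qa) (UP U Qa)),
      Δ1 = ⊤ ⊓ LinearMap.ker (evl (cls U z)) := ⟨_, rfl⟩
  rw [← hΔ1] at hm2
  -- kill the rows outside B
  obtain ⟨W', hW'⟩ : ∃ W' : Finset (Σ _ : ℕ, ℕ), W' = (Win j al n).filter fun p => p.1 ∉ B :=
    ⟨_, rfl⟩
  have hsub' : ∀ p ∈ W', p ∈ Win j al n := fun p h1 => by
    rw [hW', Finset.mem_filter] at h1
    exact h1.1
  have hsub : ∀ p : {p // p ∈ W'}, p.1 ∈ Win j al n := fun p => hsub' p.1 p.2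
  obtain ⟨A', hA'⟩ : ∃ A' : I → {p // p ∈ W'} → Qa, A' = fun a p => A a ⟨p.1, hsub p⟩ := ⟨_, rfl⟩
  have hm4 := rk_split Δ1 (cls U A) (cls U A')
  have hm5 := rk_le_card Δ1 (cls U A')
  obtain ⟨Δ2, hΔ2⟩ : ∃ Δ2 : Submodule (UP U Qa) (Derivation Qa (UP U Qa) (UP U Qa)),
      Δ2 = Δ1 ⊓ LinearMap.ker (evl (cls U A')) := ⟨_, rfl⟩
  rw [← hΔ2] at hm4
  have hmem2 : ∀ D ∈ Δ2, (∀ t, D (cls U z t) = 0) ∧ ∀ p, D (cls U A' p) = 0 := by
    intro D hD
    rw [hΔ2, hΔ1] at hD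
    obtain ⟨hD1, hD2⟩ := Submodule.mem_inf.1 hD
    exact ⟨fun t => congrFun (LinearMap.mem_ker.1 (Submodule.mem_inf.1 hD1).2) t,
      fun p => congrFun (LinearMap.mem_ker.1 hD2) p⟩
  -- the class of M
  have hMcls : ∀ (i : Fin n) (l : Fin r), (∃ hw : (⟨i.1, l.1⟩ : Σ _ : ℕ, ℕ) ∈ Win j al n,
      cls U M (i, l) = cls U A ⟨_, hw⟩) ∨ (l.1 < j i.1 ∧ i.1 < al) ∨ cls U M (i, l) = 0 := by
    intro i l
    by_cases h1 : l.1 < j i.1
    · by_cases h2 : i.1 < al
      · exact Or.inr (Or.inl ⟨h1, h2⟩)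
      · refine Or.inl ⟨?_, ?_⟩
        · exact Finset.mem_sigma.2 ⟨Finset.mem_Ico.2 ⟨not_lt.1 h2, i.2⟩, Finset.mem_range.2 h1⟩
        · unfold cls
          congr 1
          funext a
          rw [hM]
          dsimp only
          rw [if_pos h1]
          exact hV a ⟨⟨i.1, l.1⟩, Finset.mem_sigma.2 ⟨Finset.mem_Ico.2 ⟨not_lt.1 h2, i.2⟩,
            Finset.mem_range.2 h1⟩⟩
    · refine Or.inr (Or.inr ?_)
      unfold cls
      refine UP.mk_eq_zero.2 (Filter.Eventually.of_forall fun a => ?_)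
      rw [hM]
      exact if_neg h1
  have hMB : ∀ D ∈ Δ2, ∀ i ∉ B', ∀ l, D (cls U M (i, l)) = 0 := by
    intro D hD i hi l
    rcases hMcls i l with ⟨hw, h1⟩ | ⟨h1, h2⟩ | h1
    · rw [h1]
      have h2 : (⟨i.1, l.1⟩ : Σ _ : ℕ, ℕ) ∈ W' := by
        rw [hW', Finset.mem_filter]
        exact ⟨hw, fun h3 => hi ((hmemB' i).2 h3)⟩
      have h3 := (hmem2 D hD).2 ⟨_, h2⟩
      rw [hA'] at h3
      exact h3
    · have h3 : cls U M (i, l) = algebraMap Qa (UP U Qa) (V0 (i.1, l.1)) := by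
        unfold cls
        rw [UP.algebraMap_self]
        congr 1
        funext a
        rw [hM]
        dsimp only
        rw [if_pos h1]
        exact hV0 a _ h2
      rw [h3, Derivation.map_algebraMap]
    · rw [h1, map_zero]
  -- the rows in B
  obtain ⟨b, hb⟩ : ∃ b : I → {i // i ∈ B'} × Fin r → Qa, b = fun a p => M a (p.1.1, p.2) :=
    ⟨_, rfl⟩
  have hm6 : rk Δ2 (cls U A) ≤ rk Δ2 (cls U b) := by
    apply rk_le_of_forall
    intro D hD hDb s
    by_cases hs : s.1.1 ∈ B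
    · have h1 := Finset.mem_sigma.1 s.2
      have h2 : s.1.1 < n := (Finset.mem_Ico.1 h1.1).2
      have h3 : s.1.2 < j s.1.1 := Finset.mem_range.1 h1.2
      have h4 : s.1.2 < r := lt_of_lt_of_le h3 (hr _ h2)
      have h5 := hDb (⟨⟨s.1.1, h2⟩, (hmemB' _).2 hs⟩, ⟨s.1.2, h4⟩)
      have h6 : cls U b (⟨⟨s.1.1, h2⟩, (hmemB' _).2 hs⟩, ⟨s.1.2, h4⟩) = cls U A s := by
        unfold cls
        congr 1
        funext a
        rw [hb, hM]
        dsimp only
        rw [if_pos h3]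
        exact hV a s
      rw [h6] at h5
      exact h5
    · have h1 : s.1 ∈ W' := by
        rw [hW', Finset.mem_filter]
        exact ⟨s.2, hs⟩
      have h2 := (hmem2 D hD).2 ⟨_, h1⟩
      rw [hA'] at h2
      exact h2
  have hm7 : rk Δ2 (cls U b) ≤ B'.card * (B'.card - 1) := by
    refine rk_B lam' hlam1 hlog1 U G z M ?_ B' ?_ b (fun a i l => by rw [hb]) Δ2
      (fun D hD => (hmem2 D hD).1) hMB
    · exact h.mono fun a ha => by rw [← hpt]; exact ha
    · refine hli.mono fun a ha => ?_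
      have h1 : (fun i : {i // i ∈ B'} =>
          eval (pv (z a) (pt lam' (M a))) (pderiv (Sum.inr i.1) G)) =
          (fun i : {i : Fin n // i.1 ∈ B} =>
          eval (pv (z a) fun i : Fin n => val lam j (V a) i.1) (pderiv (Sum.inr i.1) G)) ∘
            fun i : {i // i ∈ B'} => (⟨i.1, (hmemB' i.1).1 i.2⟩ : {i : Fin n // i.1 ∈ B}) := by
        funext i
        rw [← hpt]
        rfl
      rw [h1]
      refine ha.comp _ ?_
      intro i i' hii
      have h2 := congrArg Subtype.val hii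
      exact Subtype.ext h2
  -- the cardinalities
  have hc1 : (Win j al n).card = ∑ b ∈ Finset.Ico al n, j b := by
    unfold Win
    rw [Finset.card_sigma]
    exact Finset.sum_congr rfl fun b _ => Finset.card_range _
  have hc2 : W'.card = ∑ b ∈ Finset.Ico al n \ B, j b := by
    have h1 : W' = (Finset.Ico al n \ B).sigma fun b => Finset.range (j b) := by
      rw [hW']
      unfold Win
      ext p
      simp only [Finset.mem_filter, Finset.mem_sigma, Finset.mem_sdiff]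
      tauto
    rw [h1, Finset.card_sigma]
    exact Finset.sum_congr rfl fun b _ => Finset.card_range _
  have hc3 := Finset.sum_sdiff (f := j) hB
  rw [Fintype.card_coe] at hm5
  rw [hcardB] at hm7
  omega

/-- The positions as pairs. -/
private def pr (j : ℕ → ℕ) (al n : ℕ) (s : {p // p ∈ Win j al n}) : ℕ × ℕ := (s.1.1, s.1.2)

private theorem pr_inj (j : ℕ → ℕ) (al n : ℕ) : Function.Injective (pr j al n) := by
  rintro ⟨⟨a, b⟩, h⟩ ⟨⟨c, d⟩, h'⟩ h2
  have h3 : a = c := congrArg Prod.fst h2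
  have h4 : b = d := congrArg Prod.snd h2
  subst h3
  subst h4
  rfl

private theorem pr_range {j : ℕ → ℕ} {al n : ℕ} {p : ℕ × ℕ} (h1 : al ≤ p.1) (h2 : p.1 < n)
    (h3 : p.2 < j p.1) : ∃ s, pr j al n s = p :=
  ⟨⟨⟨p.1, p.2⟩, Finset.mem_sigma.2 ⟨Finset.mem_Ico.2 ⟨h1, h2⟩, Finset.mem_range.2 h3⟩⟩, rfl⟩

/-- A generic ultrafilter on a set of arrays which is not contained in a hypersurface. -/
theorem exists_U (j : ℕ → ℕ) (V0 : ℕ × ℕ → Qa) (al n : ℕ) (bad : (ℕ × ℕ → Qa) → Prop)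
    (h : ∀ H : MvPolynomial (ℕ × ℕ) Qa, H ≠ 0 →
      (∀ p ∈ H.vars, al ≤ p.1 ∧ p.1 < n ∧ p.2 < j p.1) →
      ∃ V : ℕ × ℕ → Qa, (∀ p, p.1 < al → V p = V0 p) ∧ eval V H ≠ 0 ∧ bad V) :
    ∃ U : Ultrafilter {V : ℕ × ℕ → Qa // ∀ p, p.1 < al → V p = V0 p},
      (∀ᶠ V in (U : Filter {V : ℕ × ℕ → Qa // ∀ p, p.1 < al → V p = V0 p}), bad V.1) ∧
      (∀ P : MvPolynomial {p // p ∈ Win j al n} Qa, P ≠ 0 →
        ∀ᶠ V in (U : Filter {V : ℕ × ℕ → Qa // ∀ p, p.1 < al → V p = V0 p}),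
          eval (fun s => V.1 (s.1.1, s.1.2)) P ≠ 0) ∧
      ∀ H : MvPolynomial (ℕ × ℕ) Qa, H ≠ 0 →
        (∀ p ∈ H.vars, al ≤ p.1 ∧ p.1 < n ∧ p.2 < j p.1) →
        ∀ᶠ V in (U : Filter {V : ℕ × ℕ → Qa // ∀ p, p.1 < al → V p = V0 p}),
          eval V.1 H ≠ 0 := by
  classical
  obtain ⟨U, hU1, hU2⟩ := FC.exists_ultra
    (fun (V : {V : ℕ × ℕ → Qa // ∀ p, p.1 < al → V p = V0 p}) (s : {p // p ∈ Win j al n}) =>
      V.1 (s.1.1, s.1.2)) {V | bad V.1} (by
      intro P hP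
      have h1 : rename (pr j al n) P ≠ 0 := by
        intro h2
        exact hP (rename_injective _ (pr_inj j al n) (h2.trans (map_zero _).symm))
      obtain ⟨V, hV1, hV2, hV3⟩ := h _ h1 (by
        intro p hp
        obtain ⟨s, -, rfl⟩ := Finset.mem_image.1 (vars_rename _ _ hp)
        have h3 := Finset.mem_sigma.1 s.2
        exact ⟨(Finset.mem_Ico.1 h3.1).1, (Finset.mem_Ico.1 h3.1).2, Finset.mem_range.1 h3.2⟩)
      refine ⟨⟨V, hV1⟩, hV3, ?_⟩
      rw [eval_rename] at hV2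
      exact hV2)
  refine ⟨U, hU1, hU2, fun H hH hvars => ?_⟩
  obtain ⟨P, hP⟩ := exists_rename_eq_of_vars_subset_range H (pr j al n) (pr_inj j al n) (by
    intro p hp
    obtain ⟨h1, h2, h3⟩ := hvars p hp
    exact pr_range h1 h2 h3)
  have h1 : P ≠ 0 := by
    rintro rfl
    rw [map_zero] at hP
    exact hH hP.symm
  refine (hU2 P h1).mono fun V hV => ?_
  rw [← hP, eval_rename]
  exact hV

theorem core {lam : ℕ → ℂ} (hlam : LinearIndependent Qa lam) (hlog : ∀ i, lam i ∈ Lsp)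
    {M : Set (ℕ →₀ ℕ)} (hM : IsLowerSet M)
    (hfin : ∀ n, {a : ℕ →₀ ℕ | a ∈ M ∧ ∀ b ∈ a.support, b < n}.Finite) (j : ℕ → ℕ)
    (V0 : ℕ × ℕ → Qa) {al be : ℕ} (hab : al ≤ be) (hprev : GenFree M lam j V0 al be)
    (hcount : ∀ Q ⊆ Finset.Ico al (be + 1), be ∈ Q → ∃ B ⊆ Q,
      ∑ c ∈ Q, (Finset.Ico al c \ Q).card + NM M (Finset.range al ∪ Q) + B.card * (B.card - 1) ≤
        ∑ b ∈ B, j b) :
    GenFree M lam j V0 al (be + 1) := by
  classical
  by_contra hcon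
  obtain ⟨H0, hH0, hH1, hH2⟩ := hprev
  obtain ⟨U, hU1, hU2, hU3⟩ := exists_U j V0 al (be + 1)
    (fun V => ¬ Free M (be + 1) (val lam j V)) (by
    intro H hH hvars
    by_contra hne
    refine hcon ⟨H, hH, hvars, fun V hV1 hV2 => ?_⟩
    by_contra hV3
    exact hne ⟨V, hV1, hV2, hV3⟩)
  have hfree : ∀ᶠ V in (U : Filter {V : ℕ × ℕ → Qa // ∀ p, p.1 < al → V p = V0 p}),
      Free M be (val lam j V.1) := by
    refine (hU3 H0 hH0 fun p hp => ?_).mono fun V hV => hH2 V.1 V.2 hV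
    obtain ⟨h1, h2, h3⟩ := hH1 p hp
    exact ⟨h1, by omega, h3⟩
  -- the data
  have h1 : ∀ᶠ V in (U : Filter {V : ℕ × ℕ → Qa // ∀ p, p.1 < al → V p = V0 p}),
      ∃ p : {Q // Q ∈ (Finset.Ico al (be + 1)).powerset} ×
        {a0 // a0 ∈ SW M (Finset.range (be + 1))},
      be ∈ p.1.1 ∧ p.2.1 ∈ SW M (Finset.range al ∪ p.1.1) ∧
      ∃ z : ZI (PR al p.1.1) ((SW M (Finset.range al ∪ p.1.1)).erase p.2.1) → Qa,
        eval (pv z fun i : Fin (be + 1) => val lam j V.1 i.1) (GG (PR al p.1.1)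
          ((SW M (Finset.range al ∪ p.1.1)).erase p.2.1) (be + 1) p.2.1) = 0 ∧
        LinearIndependent Qa fun i : {i : Fin (be + 1) // i.1 ∈ p.1.1} =>
          eval (pv z fun i : Fin (be + 1) => val lam j V.1 i.1) (pderiv (Sum.inr i.1)
            (GG (PR al p.1.1) ((SW M (Finset.range al ∪ p.1.1)).erase p.2.1) (be + 1) p.2.1)) := by
    filter_upwards [hU1, hfree] with V hV1 hV2
    obtain ⟨Q, hQ1, hQ2, a0, ha0, hz⟩ := struct hM hfin hab _ hV2 hV1
    refine ⟨(⟨Q, Finset.mem_powerset.2 hQ1⟩, ⟨a0, ?_⟩), hQ2, ha0, hz⟩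
    rw [mem_SW hfin] at ha0 ⊢
    refine ⟨ha0.1, ha0.2.trans ?_⟩
    intro i hi
    rcases Finset.mem_union.1 hi with h2 | h2
    · exact Finset.mem_range.2 (by have := Finset.mem_range.1 h2; omega)
    · exact Finset.mem_range.2 (Finset.mem_Ico.1 (hQ1 h2)).2
  obtain ⟨⟨⟨Q, hQ⟩, ⟨a0, ha0'⟩⟩, hp⟩ := FS.pickE U _ h1
  dsimp only at hp
  have hQ1 := Finset.mem_powerset.1 hQ
  obtain ⟨hQ2, ha0, -⟩ := hp.exists.choose_spec
  obtain ⟨z, hz⟩ := (hp.mono fun V hV => hV.2.2).choice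
  obtain ⟨B, hBQ, hB⟩ := hcount Q hQ1 hQ2
  have h2 := count hlam hlog j V0 U (fun V s => V.1 (s.1.1, s.1.2)) hU2 (fun V => V.1)
    (fun V p => rfl) (fun V p hp => V.2 p hp) (GG (PR al Q)
      ((SW M (Finset.range al ∪ Q)).erase a0) (be + 1) a0) z (hz.mono fun V hV => hV.1) B
    (hBQ.trans hQ1) (by
      refine hz.mono fun V hV => ?_
      refine hV.2.comp (fun i : {i : Fin (be + 1) // i.1 ∈ B} =>
        (⟨i.1, hBQ i.2⟩ : {i : Fin (be + 1) // i.1 ∈ Q})) ?_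
      intro i i' hii
      have h3 := congrArg Subtype.val hii
      exact Subtype.ext h3)
  rw [Fintype.card_sum, Fintype.card_coe, Fintype.card_coe, card_PR,
    Finset.card_erase_of_mem ha0, card_SW hfin] at h2
  have h3 : 0 < NM M (Finset.range al ∪ Q) := by
    rw [← card_SW hfin]
    exact Finset.card_pos.2 ⟨a0, ha0⟩
  omega

end MP60829e.HD
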