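import Pool.Agent.Lib.MP_60829e_nt.HD.CountQ

/-! # The counts for values in the linear forms in logarithms -/

open Finset

namespace MP60829e.HD

theorem card_range_union {α β : ℕ} {Q : Finset ℕ} (hQ : Q ⊆ Ico α (β + 1)) :
    (range α ∪ Q).card = α + Q.card := by
  rw [card_union_of_disjoint, card_range]
  rw [disjoint_left]
  intro c hc hc'
  have h3 := mem_range.1 hc
  have h4 := (mem_Ico.1 (hQ hc')).1
  omega

theorem card_filter_lt {β : ℕ} {Q : Finset ℕ} (hβ : β ∈ Q) :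
    (Q.filter (· < β)).card ≤ Q.card - 1 := by
  have h61 : Q.filter (· < β) ⊆ Q.erase β := by
    intro c hc
    rw [mem_filter] at hc
    exact mem_erase.2 ⟨hc.2.ne, hc.1⟩
  have := card_le_card h61
  rwa [card_erase_of_mem hβ] at this

/-- The count. -/
theorem countQL' {α β N : ℕ} (h : α = 0 ∨ α * (α + 1) ≤ 2 * β) (Q : Finset ℕ)
    (hQ : Q ⊆ Ico α (β + 1)) (hβ : β ∈ Q)
    (hN : 2 * N ≤ (α + Q.card) * (α + Q.card + 1)) :
    ∃ B ⊆ Q, ∑ c ∈ Q, (Ico α c \ Q).card + N + B.card * (B.card + 1) + 1 ≤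
      ∑ b ∈ B, (2 * b + 4) := by
  classical
  have hQ1 : ∀ b ∈ Q, α ≤ b := fun b hb => (mem_Ico.1 (hQ hb)).1
  have hcard : 1 ≤ Q.card := card_pos.2 ⟨β, hβ⟩
  have hmul : ∀ x : ℕ, x * (x + 1) = x * (x - 1) + 2 * x := by
    intro x
    rcases x with _ | x
    · rfl
    · rw [Nat.add_sub_cancel]
      ring
  by_cases he : Q.card < α
  · -- all of `Q`
    refine ⟨Q, subset_rfl, ?_⟩
    rw [sum_top hQ1 subset_rfl (by simp), Nat.sub_self, add_zero, hmul]
    have h5 := pos_eq hQ1 hβ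
    have h6 := card_filter_lt hβ
    have h7 : (Ico α β \ Q).card ≤ ∑ c ∈ Q, (Ico α c \ Q).card :=
      single_le_sum (f := fun c => (Ico α c \ Q).card) (fun _ _ => Nat.zero_le _) hβ
    have h8 : N + 1 + 2 * Q.card ≤ 2 * Q.card * (α + 2) + ∑ c ∈ Q, (Ico α c \ Q).card := by
      rcases h with rfl | h
      · omega
      · obtain ⟨e, he'⟩ : ∃ e, e = Q.card := ⟨_, rfl⟩
        obtain ⟨s, hs⟩ : ∃ s, s = ∑ c ∈ Q, (Ico α c \ Q).card := ⟨_, rfl⟩
        rw [← he'] at hN he hcard h6 ⊢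
        rw [← hs] at h7 ⊢
        have h10 : β + 1 ≤ α + e + s := by omega
        have h11 : 2 * (N + 1 + 2 * e) ≤ 2 * (2 * e * (α + 2) + s) := by
          zify at hN h he h10 hcard ⊢
          nlinarith
        omega
    omega
  · -- half of `α + Q`
    have hx : (α + Q.card + 1) / 2 ≤ Q.card := by omega
    obtain ⟨B, hB, hBc, ht⟩ := exists_top Q ((α + Q.card + 1) / 2) hx
    refine ⟨B, hB, ?_⟩
    rw [sum_top hQ1 hB ht, hmul]
    have h1 := sum_le_two (α := α) hB ht (by omega)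
    have h2 : N + 1 + 2 * B.card ≤ 2 * B.card * (α + (Q.card - B.card) + 2) := by
      obtain ⟨e, he'⟩ : ∃ e, e = Q.card := ⟨_, rfl⟩
      rw [← he'] at hN he hx hBc hcard ⊢
      obtain ⟨x, hx'⟩ : ∃ x, x = B.card := ⟨_, rfl⟩
      rw [← hx'] at hBc ⊢
      have h3 : 2 * (N + 1 + 2 * x) ≤ 2 * (2 * x * (α + (e - x) + 2)) := by
        have h4 : x ≤ e := by omega
        obtain ⟨y, rfl⟩ := Nat.exists_eq_add_of_le h4
        rw [Nat.add_sub_cancel_left]
        rcases Nat.even_or_odd' (α + (x + y) + 1) with ⟨t, ht | ht⟩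
        · have h5 : x = t := by omega
          have h6 : α + y + 2 = x + 1 := by omega
          have h7 : α + (x + y) + 1 = 2 * x := by omega
          have h8 : α + (x + y) = 2 * x - 1 := by omega
          rw [h7, h8] at hN
          rw [h6]
          have h9 : 1 ≤ x := by omega
          obtain ⟨w, rfl⟩ := Nat.exists_eq_add_of_le h9
          rw [show 2 * (1 + w) - 1 = 2 * w + 1 by omega] at hN
          nlinarith
        · have h5 : x = t := by omega
          have h6 : α + y + 2 = x + 2 := by omega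
          have h7 : α + (x + y) + 1 = 2 * x + 1 := by omega
          have h8 : α + (x + y) = 2 * x := by omega
          rw [h7, h8] at hN
          rw [h6]
          have h9 : 1 ≤ x := by omega
          nlinarith
      omega
    omega

/-- The number of the monomials of degree `2`. -/
theorem card_two' (W : Finset ℕ) : 2 * {a : ℕ →₀ ℕ | a ∈ {a : ℕ →₀ ℕ | a.degree = 2} ∧
    a.support ⊆ W}.ncard ≤ W.card * (W.card + 1) := by
  classical
  have hsub : {a : ℕ →₀ ℕ | a ∈ {a : ℕ →₀ ℕ | a.degree = 2} ∧ a.support ⊆ W} ⊆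
      ((finsuppAntidiag W 2 : Finset (ℕ →₀ ℕ)) : Set (ℕ →₀ ℕ)) := by
    rintro a ⟨ha1, ha2⟩
    rw [Set.mem_ofPred_eq] at ha1
    rw [mem_coe, mem_finsuppAntidiag]
    refine ⟨?_, ha2⟩
    rw [← ha1, Finsupp.degree_apply]
    exact (sum_subset ha2 fun b _ hb => Finsupp.notMem_support_iff.1 hb).symm
  have h1 := Set.ncard_le_ncard hsub (Finset.finite_toSet _)
  rw [Set.ncard_coe_finset, card_finsuppAntidiag_nat_eq_multichoose] at h1
  have h4 : 2 * W.card.multichoose 2 = W.card * (W.card + 1) := by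
    rw [Nat.multichoose_eq, show W.card + 2 - 1 = W.card + 1 by omega, Nat.choose_two_right,
      Nat.mul_div_cancel' (Nat.even_mul_pred_self _).two_dvd, Nat.add_sub_cancel, mul_comm]
  omega

theorem countQL {α β : ℕ} (h : α = 0 ∨ α * (α + 1) ≤ 2 * β) (Q : Finset ℕ)
    (hQ : Q ⊆ Ico α (β + 1)) (hβ : β ∈ Q) :
    ∃ B ⊆ Q, ∑ c ∈ Q, (Ico α c \ Q).card + {a : ℕ →₀ ℕ | a ∈ {a : ℕ →₀ ℕ | a.degree = 2} ∧
      a.support ⊆ range α ∪ Q}.ncard + B.card * (B.card + 1) + 1 ≤ ∑ b ∈ B, (2 * b + 4) := by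
  refine countQL' h Q hQ hβ ?_
  have h1 := card_two' (range α ∪ Q)
  rwa [card_range_union hQ] at h1

/-- The number of the monomials of degree at most `1`. -/
theorem card_one (W : Finset ℕ) : {a : ℕ →₀ ℕ | a ∈ {a : ℕ →₀ ℕ | a.degree ≤ 1} ∧
    a.support ⊆ W}.ncard ≤ W.card + 1 := by
  classical
  have hsub : {a : ℕ →₀ ℕ | a ∈ {a : ℕ →₀ ℕ | a.degree ≤ 1} ∧ a.support ⊆ W} ⊆
      ((finsuppAntidiag W 0 ∪ finsuppAntidiag W 1 : Finset (ℕ →₀ ℕ)) : Set (ℕ →₀ ℕ)) := by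
    rintro a ⟨ha1, ha2⟩
    rw [Set.mem_ofPred_eq] at ha1
    have h1 : W.sum a = a.degree := by
      rw [Finsupp.degree_apply]
      exact (sum_subset ha2 fun b _ hb => Finsupp.notMem_support_iff.1 hb).symm
    rw [mem_coe, mem_union, mem_finsuppAntidiag, mem_finsuppAntidiag, h1]
    have h2 : a.degree = 0 ∨ a.degree = 1 := by omega
    rcases h2 with h2 | h2
    · exact Or.inl ⟨h2, ha2⟩
    · exact Or.inr ⟨h2, ha2⟩
  have h1 := Set.ncard_le_ncard hsub (Finset.finite_toSet _)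
  rw [Set.ncard_coe_finset] at h1
  have h2 := card_union_le (finsuppAntidiag W 0) (finsuppAntidiag W 1)
  rw [card_finsuppAntidiag_nat_eq_multichoose, card_finsuppAntidiag_nat_eq_multichoose,
    Nat.multichoose_one_right, Nat.multichoose_zero_right] at h2
  omega

/-- The count for linear relations. -/
theorem countM1 {j : ℕ → ℕ} (hj : ∀ b, 2 * b + 2 ≤ j b) {α β : ℕ} (Q : Finset ℕ)
    (hQ : Q ⊆ Ico α (β + 1)) (hβ : β ∈ Q) :
    ∑ c ∈ Q, (Ico α c \ Q).card + {a : ℕ →₀ ℕ | a ∈ {a : ℕ →₀ ℕ | a.degree ≤ 1} ∧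
      a.support ⊆ range α ∪ Q}.ncard + Q.card * (Q.card - 1) ≤ ∑ b ∈ Q, j b := by
  classical
  have hQ1 : ∀ b ∈ Q, α ≤ b := fun b hb => (mem_Ico.1 (hQ hb)).1
  have hcard : 1 ≤ Q.card := card_pos.2 ⟨β, hβ⟩
  have h1 := card_one (range α ∪ Q)
  rw [card_range_union hQ] at h1
  have h2 : ∑ b ∈ Q, (2 * b + 2) = 2 * (α + 1) * Q.card +
      2 * ∑ c ∈ Q, (Q.filter (· < c)).card + 2 * ∑ c ∈ Q, (Ico α c \ Q).card := by
    have h3 : ∀ b ∈ Q, 2 * b + 2 =
        2 * (α + 1) + (2 * (Q.filter (· < b)).card + 2 * (Ico α b \ Q).card) := by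
      intro b hb
      have := pos_eq hQ1 hb
      omega
    rw [sum_congr rfl h3, sum_add_distrib, sum_add_distrib, sum_const, smul_eq_mul,
      mul_sum, mul_sum]
    ring
  have h3 : ∑ b ∈ Q, (2 * b + 2) ≤ ∑ b ∈ Q, j b := sum_le_sum fun b _ => hj b
  rw [h2, two_sum_lt] at h3
  have h4 : α + Q.card + 1 ≤ 2 * (α + 1) * Q.card := by nlinarith
  omega

/-- The count for a general set of monomials of degree at least `2`. -/
theorem countML (M : Set (ℕ →₀ ℕ)) (hfin : ∀ n, {a | a ∈ M ∧ ∀ b ∈ a.support, b < n}.Finite)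
    (hM2 : ∀ a ∈ M, 2 ≤ a.degree)
    {α β : ℕ} (h : α = 0 ∨ α + {a | a ∈ M ∧ a.support ⊆ range α}.ncard ≤ β) (Q : Finset ℕ)
    (hQ : Q ⊆ Ico α (β + 1)) (hβ : β ∈ Q) :
    ∑ c ∈ Q, (Ico α c \ Q).card + {a | a ∈ M ∧ a.support ⊆ range α ∪ Q}.ncard +
      Q.card * (Q.card + 1) + 1 ≤ ∑ b ∈ Q, (mb M b + 2 * b + 3) := by
  classical
  have hQ1 : ∀ b ∈ Q, α ≤ b := fun b hb => (mem_Ico.1 (hQ hb)).1
  have h1 := card_le M hfin α Q
  have h2 : ∑ b ∈ Q, (mb M b + 2 * b + 3) = ∑ b ∈ Q, mb M b + ((2 * α + 3) * Q.card +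
      2 * ∑ c ∈ Q, (Q.filter (· < c)).card + 2 * ∑ c ∈ Q, (Ico α c \ Q).card) := by
    have h3 : ∀ b ∈ Q, mb M b + 2 * b + 3 = mb M b +
        ((2 * α + 3) + (2 * (Q.filter (· < b)).card + 2 * (Ico α b \ Q).card)) := by
      intro b hb
      have := pos_eq hQ1 hb
      omega
    rw [sum_congr rfl h3, sum_add_distrib]
    congr 1
    rw [sum_add_distrib, sum_const, sum_add_distrib, smul_eq_mul, ← mul_sum, ← mul_sum]
    ring
  rw [h2, two_sum_lt]
  have hcard : 1 ≤ Q.card := card_pos.2 ⟨β, hβ⟩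
  have hmul : Q.card * (Q.card + 1) = Q.card * (Q.card - 1) + 2 * Q.card := by
    obtain ⟨x, hx⟩ := Nat.exists_eq_add_of_le' hcard
    rw [hx, Nat.add_sub_cancel]
    ring
  have h4 : {a | a ∈ M ∧ a.support ⊆ range α}.ncard + 1 ≤
      (2 * α + 1) * Q.card + ∑ c ∈ Q, (Ico α c \ Q).card := by
    rcases h with rfl | h
    · have h5 : {a | a ∈ M ∧ a.support ⊆ range 0} = ∅ := by
        rw [Set.eq_empty_iff_forall_notMem]
        rintro a ⟨ha1, ha⟩
        rw [range_zero, subset_empty, Finsupp.support_eq_empty] at ha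
        have h6 := hM2 a ha1
        rw [ha] at h6
        simp at h6
      rw [h5, Set.ncard_empty]
      omega
    · have h5 := pos_eq hQ1 hβ
      have h6 := card_filter_lt hβ
      have h7 : (Ico α β \ Q).card ≤ ∑ c ∈ Q, (Ico α c \ Q).card :=
        single_le_sum (f := fun c => (Ico α c \ Q).card) (fun _ _ => Nat.zero_le _) hβ
      have h8 : Q.card ≤ (2 * α + 1) * Q.card := Nat.le_mul_of_pos_left _ (by omega)
      omega
  have h9 : (2 * α + 3) * Q.card = (2 * α + 1) * Q.card + 2 * Q.card := by ring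
  omega

end MP60829e.HD
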