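import Mathlib

/-! # The count for a general set of monomials -/

open Finset

namespace MP60829e.HD

theorem two_sum_lt (Q : Finset ℕ) :
    2 * ∑ c ∈ Q, (Q.filter (· < c)).card = Q.card * (Q.card - 1) := by
  induction Q using Finset.induction_on_max with
  | empty => simp
  | insert a s ha ih =>
    have hn : a ∉ s := fun h => (ha a h).false
    rw [sum_insert hn, card_insert_of_notMem hn]
    have h1 : (insert a s).filter (· < a) = s := by
      ext b
      simp only [mem_filter, mem_insert]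
      constructor
      · rintro ⟨rfl | hb, h⟩
        · exact absurd h (lt_irrefl _)
        · exact hb
      · exact fun hb => ⟨Or.inr hb, ha b hb⟩
    have h2 : ∀ c ∈ s, ((insert a s).filter (· < c)).card = (s.filter (· < c)).card := by
      intro c hc
      congr 1
      ext b
      simp only [mem_filter, mem_insert]
      constructor
      · rintro ⟨rfl | hb, h⟩
        · exact absurd ((ha c hc).trans h) (lt_irrefl _)
        · exact ⟨hb, h⟩
      · exact fun hb => ⟨Or.inr hb.1, hb.2⟩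
    rw [h1, sum_congr rfl h2, mul_add, ih, Nat.add_sub_cancel]
    rcases s.card with _ | n
    · rfl
    · rw [Nat.add_sub_cancel]
      ring

/-- The position of an element of `Q`. -/
theorem pos_eq {α c : ℕ} {Q : Finset ℕ} (hQ : ∀ b ∈ Q, α ≤ b) (hc : c ∈ Q) :
    c = α + (Q.filter (· < c)).card + (Ico α c \ Q).card := by
  have h1 : (Ico α c \ Q).card + (Q.filter (· < c)).card = (Ico α c).card := by
    rw [← card_sdiff_add_card_inter (Ico α c) Q]
    congr 2
    ext b
    simp only [mem_filter, mem_inter, mem_Ico]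
    exact ⟨fun h => ⟨⟨hQ b h.1, h.2⟩, h.1⟩, fun h => ⟨h.2, h.1.2⟩⟩
  rw [Nat.card_Ico] at h1
  have := hQ c hc
  omega

/-- The number of elements of `M` whose largest variable is `b`. -/
noncomputable def mb (M : Set (ℕ →₀ ℕ)) (b : ℕ) : ℕ :=
  {a | a ∈ M ∧ a.support ⊆ range (b + 1) ∧ b ∈ a.support}.ncard

theorem card_le (M : Set (ℕ →₀ ℕ)) (hfin : ∀ n, {a | a ∈ M ∧ ∀ b ∈ a.support, b < n}.Finite)
    (α : ℕ) (Q : Finset ℕ) :
    {a | a ∈ M ∧ a.support ⊆ range α ∪ Q}.ncard ≤
      {a | a ∈ M ∧ a.support ⊆ range α}.ncard + ∑ c ∈ Q, mb M c := by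
  classical
  have hfα : {a | a ∈ M ∧ a.support ⊆ range α}.Finite := (hfin α).subset fun a ha =>
    ⟨ha.1, fun b hb => mem_range.1 (ha.2 hb)⟩
  have hfb : ∀ b, {a | a ∈ M ∧ a.support ⊆ range (b + 1) ∧ b ∈ a.support}.Finite := fun b =>
    (hfin (b + 1)).subset fun a ha => ⟨ha.1, fun c hc => mem_range.1 (ha.2.1 hc)⟩
  have hsub : {a | a ∈ M ∧ a.support ⊆ range α ∪ Q} ⊆
      ((hfα.toFinset ∪ Q.biUnion fun b => (hfb b).toFinset : Finset (ℕ →₀ ℕ)) :
        Set (ℕ →₀ ℕ)) := by
    rintro a ⟨haM, has⟩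
    rw [mem_coe, mem_union, Set.Finite.mem_toFinset, mem_biUnion]
    by_cases h : a.support ⊆ range α
    · exact Or.inl ⟨haM, h⟩
    · right
      obtain ⟨b0, hb0, hb0'⟩ := not_subset.1 h
      have hne : a.support.Nonempty := ⟨b0, hb0⟩
      have hmax := max'_mem a.support hne
      refine ⟨a.support.max' hne, ?_, ?_⟩
      · rcases mem_union.1 (has hmax) with h1 | h1
        · exfalso
          apply hb0'
          rw [mem_range] at h1 ⊢
          exact lt_of_le_of_lt (le_max' _ _ hb0) h1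
        · exact h1
      · rw [Set.Finite.mem_toFinset]
        exact ⟨haM, fun c hc => mem_range.2 (Nat.lt_succ_of_le (le_max' _ _ hc)), hmax⟩
  calc {a | a ∈ M ∧ a.support ⊆ range α ∪ Q}.ncard
      ≤ ((hfα.toFinset ∪ Q.biUnion fun b => (hfb b).toFinset : Finset (ℕ →₀ ℕ)) :
          Set (ℕ →₀ ℕ)).ncard := Set.ncard_le_ncard hsub (Finset.finite_toSet _)
    _ = (hfα.toFinset ∪ Q.biUnion fun b => (hfb b).toFinset).card := Set.ncard_coe_finset _
    _ ≤ hfα.toFinset.card + (Q.biUnion fun b => (hfb b).toFinset).card := card_union_le _ _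
    _ ≤ hfα.toFinset.card + ∑ c ∈ Q, (hfb c).toFinset.card :=
        Nat.add_le_add_left card_biUnion_le _
    _ = _ := by
      rw [Set.ncard_eq_toFinset_card _ hfα]
      congr 1
      refine sum_congr rfl fun c _ => ?_
      rw [mb, Set.ncard_eq_toFinset_card _ (hfb c)]

/-- The count for rows of length `m b + 2 (b + 1)`. -/
theorem countM (M : Set (ℕ →₀ ℕ)) (hfin : ∀ n, {a | a ∈ M ∧ ∀ b ∈ a.support, b < n}.Finite)
    {α β : ℕ} (h : α = 0 ∨ α + {a | a ∈ M ∧ a.support ⊆ range α}.ncard ≤ β) (Q : Finset ℕ)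
    (hQ : Q ⊆ Ico α (β + 1)) (hβ : β ∈ Q) :
    ∑ c ∈ Q, (Ico α c \ Q).card + {a | a ∈ M ∧ a.support ⊆ range α ∪ Q}.ncard +
      Q.card * (Q.card - 1) ≤ ∑ b ∈ Q, (mb M b + 2 * (b + 1)) := by
  classical
  have hQ1 : ∀ b ∈ Q, α ≤ b := fun b hb => (mem_Ico.1 (hQ hb)).1
  have h1 := card_le M hfin α Q
  have h2 : ∑ b ∈ Q, (mb M b + 2 * (b + 1)) = ∑ b ∈ Q, mb M b + (2 * (α + 1) * Q.card +
      2 * ∑ c ∈ Q, (Q.filter (· < c)).card + 2 * ∑ c ∈ Q, (Ico α c \ Q).card) := by
    rw [sum_add_distrib]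
    congr 1
    have h3 : ∀ b ∈ Q, 2 * (b + 1) =
        2 * (α + 1) + (2 * (Q.filter (· < b)).card + 2 * (Ico α b \ Q).card) := by
      intro b hb
      have := pos_eq hQ1 hb
      omega
    rw [sum_congr rfl h3, sum_add_distrib, sum_add_distrib, sum_const, smul_eq_mul,
      mul_sum, mul_sum]
    ring
  rw [h2, two_sum_lt]
  have h4 : {a | a ∈ M ∧ a.support ⊆ range α}.ncard ≤
      2 * (α + 1) * Q.card + ∑ c ∈ Q, (Ico α c \ Q).card := by
    have hcard : 1 ≤ Q.card := card_pos.2 ⟨β, hβ⟩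
    rcases h with rfl | h
    · have h5 : {a | a ∈ M ∧ a.support ⊆ range 0}.ncard ≤ 1 := by
        refine (Set.ncard_le_ncard (t := {0}) ?_ (Set.finite_singleton _)).trans
          (Set.ncard_singleton _).le
        rintro a ⟨-, ha⟩
        rw [range_zero, subset_empty, Finsupp.support_eq_empty] at ha
        exact ha
      omega
    · have h5 := pos_eq hQ1 hβ
      have h6 : (Q.filter (· < β)).card ≤ Q.card := card_filter_le _ _
      have h7 : (Ico α β \ Q).card ≤ ∑ c ∈ Q, (Ico α c \ Q).card :=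
        single_le_sum (f := fun c => (Ico α c \ Q).card) (fun _ _ => Nat.zero_le _) hβ
      have h8 : Q.card ≤ 2 * (α + 1) * Q.card := Nat.le_mul_of_pos_left _ (by omega)
      omega
  omega

end MP60829e.HD
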