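import Mathlib

/-! # The infinite recursion: extendable sequences of rows -/

open MvPolynomial

namespace MP60829e.HD

variable {k : Type*} [Field k] {j : ℕ → ℕ} {Good : ℕ → (ℕ × ℕ → k) → Prop}

/-- For almost all rows `α, …, β - 1` after the rows `0, …, α - 1` of `V` the rows
`0, …, β - 1` are good: it is enough to avoid the zeros of one polynomial in the entries. -/
def Gq (j : ℕ → ℕ) (Good : ℕ → (ℕ × ℕ → k) → Prop) (V : ℕ × ℕ → k) (α β : ℕ) : Prop :=
  ∃ f : MvPolynomial (ℕ × ℕ) k, f ≠ 0 ∧ (∀ p ∈ f.vars, α ≤ p.1 ∧ p.1 < β ∧ p.2 < j p.1) ∧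
    ∀ V' : ℕ × ℕ → k, (∀ p, p.1 < α → V' p = V p) → eval V' f ≠ 0 → Good β V'

theorem Gq.congr {α β : ℕ} {V W : ℕ × ℕ → k} (h : Gq j Good V α β)
    (hVW : ∀ p, p.1 < α → W p = V p) : Gq j Good W α β := by
  obtain ⟨f, h0, hv, hf⟩ := h
  exact ⟨f, h0, hv, fun V' hV' => hf V' fun p hp => (hV' p hp).trans (hVW p hp)⟩

/-- The evaluation depends only on the variables which occur. -/
theorem eval_congr_vars {σ : Type*} {f : MvPolynomial σ k} {x y : σ → k}
    (h : ∀ p ∈ f.vars, x p = y p) : eval x f = eval y f :=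
  eval₂Hom_congr' rfl (fun p hp _ => h p hp) rfl

theorem eval_bind {σ τ : Type*} (S : σ → MvPolynomial τ k) (f : MvPolynomial σ k) (z : τ → k) :
    eval z (bind₁ S f) = eval (fun p => eval z (S p)) f := by
  rw [← MvPolynomial.coe_aeval_eq_eval, ← MvPolynomial.coe_aeval_eq_eval]
  simp only [RingHom.coe_coe]
  rw [MvPolynomial.aeval_bind₁]

/-- One more row is fixed. -/
theorem Gq.row [Infinite k] {α β : ℕ} {V : ℕ × ℕ → k} (h : Gq j Good V α β) :
    ∃ g : MvPolynomial (Fin (j α)) k, g ≠ 0 ∧ ∀ V' : ℕ × ℕ → k, (∀ p, p.1 < α → V' p = V p) →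
      eval (fun t : Fin (j α) => V' (α, t)) g ≠ 0 → Gq j Good V' (α + 1) β := by
  classical
  obtain ⟨f, h0, hv, hf⟩ := h
  obtain ⟨y, hy⟩ : ∃ y : ℕ × ℕ → k, eval y f ≠ 0 := by
    by_contra hcon
    push Not at hcon
    exact h0 (MvPolynomial.funext fun y => by rw [hcon y, map_zero])
  set S : ℕ × ℕ → MvPolynomial (Fin (j α)) k := fun p =>
    if h : p.1 = α ∧ p.2 < j α then X ⟨p.2, h.2⟩ else C (y p) with hS
  refine ⟨bind₁ S f, ?_, fun V' hV' hne => ?_⟩
  · intro h
    apply hy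
    have h1 := eval_bind S f (fun t => y (α, t))
    rw [h, map_zero] at h1
    rw [h1]
    refine eval_congr_vars fun p _ => ?_
    rw [hS]
    dsimp only
    split_ifs with h2
    · rw [eval_X]
      exact congrArg y (Prod.ext h2.1 rfl)
    · rw [eval_C]
  · set T : ℕ × ℕ → MvPolynomial (ℕ × ℕ) k := fun p =>
      if p.1 = α then C (V' p) else X p with hT
    refine ⟨bind₁ T f, ?_, ?_, fun V'' hV'' hne' => ?_⟩
    · intro h
      apply hne
      have h1 := eval_bind T f y
      rw [h, map_zero] at h1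
      rw [eval_bind, h1]
      refine eval_congr_vars fun p hp => ?_
      rw [hS, hT]
      dsimp only
      by_cases h2 : p.1 = α
      · rw [if_pos h2, dif_pos ⟨h2, h2 ▸ (hv p hp).2.2⟩, eval_X, eval_C]
        exact congrArg V' (Prod.ext h2.symm rfl)
      · rw [if_neg h2, dif_neg (fun h3 => h2 h3.1), eval_X, eval_C]
    · intro p hp
      obtain ⟨q, hq, hpq⟩ := Finset.mem_biUnion.1 (vars_bind₁ T f hp)
      rw [hT] at hpq
      dsimp only at hpq
      by_cases h2 : q.1 = α
      · rw [if_pos h2, vars_C] at hpq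
        exact absurd hpq (Finset.notMem_empty _)
      · rw [if_neg h2, vars_X, Finset.mem_singleton] at hpq
        obtain ⟨h3, h4, h5⟩ := hv q hq
        rw [hpq]
        exact ⟨by omega, h4, h5⟩
    · refine hf V'' (fun p hp => ?_) ?_
      · rw [hV'' p (by omega), hV' p hp]
      · rw [eval_bind] at hne'
        rw [show eval V'' f = eval (fun p => eval V'' (T p)) f from
          eval_congr_vars fun p _ => ?_]
        · exact hne'
        · rw [hT]
          dsimp only
          split_ifs with h2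
          · rw [eval_C, hV'' p (by omega)]
          · rw [eval_X]

/-- A sequence of rows is extendable if each number of further rows can be added. -/
def Ext (j : ℕ → ℕ) (Good : ℕ → (ℕ × ℕ → k) → Prop) (V : ℕ × ℕ → k) (α : ℕ) : Prop :=
  ∀ β, α ≤ β → Gq j Good V α β

theorem Ext.congr {α : ℕ} {V W : ℕ × ℕ → k} (h : Ext j Good V α)
    (hVW : ∀ p, p.1 < α → W p = V p) : Ext j Good W α := fun β hβ => (h β hβ).congr hVW

theorem Ext.start (h0 : ∀ V, Good 0 V)
    (hcore : ∀ β V, Gq j Good V 0 β → Gq j Good V 0 (β + 1)) (V : ℕ × ℕ → k) :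
    Ext j Good V 0 := by
  intro β _
  induction β with
  | zero =>
    refine ⟨1, one_ne_zero, fun p hp => ?_, fun V' _ _ => h0 V'⟩
    rw [← C_1, vars_C] at hp
    exact absurd hp (Finset.notMem_empty _)
  | succ β ih => exact hcore β V (ih (Nat.zero_le _))

theorem Ext.step [Infinite k] (thr : ℕ → ℕ)
    (hcore : ∀ α β V, α ≤ β → thr α ≤ β → Gq j Good V α β → Gq j Good V α (β + 1)) {α : ℕ}
    {V : ℕ × ℕ → k} (h : Ext j Good V α) :
    ∃ g : MvPolynomial (Fin (j α)) k, g ≠ 0 ∧ ∀ V' : ℕ × ℕ → k, (∀ p, p.1 < α → V' p = V p) →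
      eval (fun t : Fin (j α) => V' (α, t)) g ≠ 0 → Ext j Good V' (α + 1) := by
  classical
  choose g hg0 hg using fun β : {β : ℕ // α ≤ β} => (h β.1 β.2).row
  set T := max (α + 1) (thr (α + 1)) with hT
  refine ⟨∏ β ∈ (Finset.Icc (α + 1) T).attach, g ⟨β.1, by
    have := (Finset.mem_Icc.1 β.2).1
    omega⟩, Finset.prod_ne_zero_iff.2 fun β _ => hg0 _, fun V' hV' hne => ?_⟩
  have h1 : ∀ β, α + 1 ≤ β → β ≤ T → Gq j Good V' (α + 1) β := by
    intro β hβ hβT
    refine hg ⟨β, by omega⟩ V' hV' fun h0 => hne ?_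
    rw [map_prod]
    exact Finset.prod_eq_zero (Finset.mem_attach _ ⟨β, Finset.mem_Icc.2 ⟨hβ, hβT⟩⟩) h0
  intro β hβ
  rcases Nat.le_total β T with h2 | h2
  · exact h1 β hβ h2
  · obtain ⟨i, rfl⟩ := Nat.exists_eq_add_of_le h2
    clear hβ h2
    induction i with
    | zero => exact h1 T (le_max_left _ _) le_rfl
    | succ i ih =>
      rw [← add_assoc]
      exact hcore (α + 1) (T + i) V' (by omega) (by omega) ih

theorem Gq.good {α : ℕ} {V : ℕ × ℕ → k} (h : Gq j Good V α α) : Good α V := by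
  obtain ⟨f, h0, hv, hf⟩ := h
  refine hf V (fun _ _ => rfl) ?_
  have h1 : f.vars = ∅ := by
    refine Finset.eq_empty_of_forall_notMem fun p hp => ?_
    have := hv p hp
    omega
  obtain ⟨c, hc⟩ : ∃ c, f = C c := ⟨_, MvPolynomial.vars_eq_empty_iff_eq_C.1 h1⟩
  rw [hc, eval_C]
  rintro rfl
  exact h0 (by rw [hc, map_zero])

/-- The recursion. -/
theorem seq [Infinite k] (h0 : ∀ V, Good 0 V) (thr : ℕ → ℕ)
    (hcore : ∀ α β V, α ≤ β → (α = 0 ∨ thr α ≤ β) → Gq j Good V α β → Gq j Good V α (β + 1)) :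
    ∃ H : (b : ℕ) → (Fin b × ℕ → k) → MvPolynomial (Fin (j b)) k, (∀ b y, H b y ≠ 0) ∧
      ∀ V : ℕ × ℕ → k,
        (∀ b, eval (fun t : Fin (j b) => V (b, t)) (H b fun p => V (p.1, p.2)) ≠ 0) →
        ∀ β, Good β V := by
  classical
  choose g hg0 hg using fun (b : ℕ) (V : ℕ × ℕ → k) (h : Ext j Good V b) =>
    Ext.step thr (fun α β V hαβ hthr => hcore α β V hαβ (Or.inr hthr)) h
  let e : (b : ℕ) → (Fin b × ℕ → k) → ℕ × ℕ → k := fun b y p =>
    if h : p.1 < b then y (⟨p.1, h⟩, p.2) else 0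
  let H : (b : ℕ) → (Fin b × ℕ → k) → MvPolynomial (Fin (j b)) k := fun b y =>
    if h : Ext j Good (e b y) b then g b (e b y) h else 1
  have he : ∀ (V : ℕ × ℕ → k) b, ∀ p : ℕ × ℕ, p.1 < b →
      e b (fun q => V (q.1, q.2)) p = V p := by
    intro V b p hp
    show (if h : p.1 < b then V (p.1, p.2) else 0) = V p
    rw [dif_pos hp]
  refine ⟨H, fun b y => ?_, fun V hV => ?_⟩
  · show (if h : Ext j Good (e b y) b then g b (e b y) h else 1) ≠ 0
    split_ifs with h
    · exact hg0 b _ h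
    · exact one_ne_zero
  · have key : ∀ b, Ext j Good V b := by
      intro b
      induction b with
      | zero => exact Ext.start h0 (fun β V => hcore 0 β V (Nat.zero_le _) (Or.inl rfl)) V
      | succ b ih =>
        have h1 : Ext j Good (e b fun q => V (q.1, q.2)) b := ih.congr (he V b)
        refine hg b (e b fun q => V (q.1, q.2)) h1 V (fun p hp => (he V b p hp).symm) ?_
        have h2 := hV b
        have h3 : H b (fun q => V (q.1, q.2)) = g b (e b fun q => V (q.1, q.2)) h1 := dif_pos h1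
        rw [h3] at h2
        exact h2
    exact fun β => (key β β le_rfl).good

end MP60829e.HD
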