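import Pool.Agent.Lib.MP_60829e_nt.HD.Core
import Pool.Agent.Lib.MP_60829e_nt.HD.Seq
import Pool.Agent.Lib.MP_60829e_nt.HD.CountM
import Pool.Agent.Lib.MP_60829e_nt.FG.Hyp

/-! # Generic combinations of logarithms without relations with monomials in `M` -/

open MvPolynomial Module

namespace MP60829e.HD

open MP60829e.ST (Qa Lsp Lt)

theorem free_zero (M : Set (ℕ →₀ ℕ)) (x : ℕ → ℂ) : Free M 0 x := by
  intro P hP h0
  have h1 : P = C (coeff 0 P) := by
    refine MvPolynomial.ext _ _ fun a => ?_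
    rw [coeff_C]
    split_ifs with h
    · rw [h]
    · by_contra hne
      obtain ⟨-, h2⟩ := hP a (MvPolynomial.mem_support_iff.2 hne)
      apply h
      symm
      rw [← Finsupp.support_eq_empty]
      exact Finset.eq_empty_of_forall_notMem fun b hb => absurd (h2 b hb) (Nat.not_lt_zero _)
  rw [h1, aeval_C] at h0
  rw [h1]
  have h2 : coeff 0 P = 0 := (FaithfulSMul.algebraMap_injective Qa ℂ) (h0.trans (map_zero _).symm)
  rw [h2, map_zero]

/-- Linear independence of the monomials. -/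
theorem linearIndependent_of_free {M : Set (ℕ →₀ ℕ)} {x : ℕ → ℂ} (h : ∀ n, Free M n x) :
    LinearIndependent Qa (fun a : M => (a : ℕ →₀ ℕ).prod fun b e => x b ^ e) := by
  classical
  rw [linearIndependent_iff']
  intro s g hg a ha
  set P : MvPolynomial ℕ Qa := ∑ i ∈ s, monomial (i : ℕ →₀ ℕ) (g i) with hP
  have hc : ∀ i ∈ s, coeff (i : ℕ →₀ ℕ) P = g i := by
    intro i hi
    rw [hP, coeff_sum, Finset.sum_eq_single i]
    · rw [coeff_monomial, if_pos rfl]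
    · intro i' _ hne
      rw [coeff_monomial, if_neg fun h' => hne (Subtype.ext h')]
    · exact fun h' => absurd hi h'
  have hsupp : ∀ b ∈ P.support, ∃ i ∈ s, (i : ℕ →₀ ℕ) = b := by
    intro b hb
    by_contra hcon
    push Not at hcon
    rw [MvPolynomial.mem_support_iff, hP, coeff_sum] at hb
    exact hb (Finset.sum_eq_zero fun i hi => by rw [coeff_monomial, if_neg (hcon i hi)])
  obtain ⟨n, hn⟩ : ∃ n : ℕ, ∀ i ∈ s, ∀ b ∈ (i : ℕ →₀ ℕ).support, b < n := by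
    refine ⟨(s.biUnion fun i => (i : ℕ →₀ ℕ).support).sup id + 1, fun i hi b hb => ?_⟩
    exact Nat.lt_succ_of_le (Finset.le_sup (f := id) (Finset.mem_biUnion.2 ⟨i, hi, hb⟩))
  have h1 : P = 0 := by
    refine h n P (fun b hb => ?_) ?_
    · obtain ⟨i, hi, rfl⟩ := hsupp b hb
      exact ⟨i.2, hn i hi⟩
    · rw [hP, map_sum, ← hg]
      refine Finset.sum_congr rfl fun i _ => ?_
      rw [aeval_monomial, Algebra.smul_def]
  rw [← hc a ha, h1, coeff_zero]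

/-- Theorem HM, rows over the algebraic numbers. -/
theorem hm {lam : ℕ → ℂ} (hlam : LinearIndependent Qa lam) (hlog : ∀ i, lam i ∈ Lsp)
    {M : Set (ℕ →₀ ℕ)} (hM : IsLowerSet M)
    (hfin : ∀ n, {a : ℕ →₀ ℕ | a ∈ M ∧ ∀ b ∈ a.support, b < n}.Finite) (j : ℕ → ℕ)
    (thr : ℕ → ℕ)
    (hcount : ∀ al be, al ≤ be → (al = 0 ∨ thr al ≤ be) →
      ∀ Q ⊆ Finset.Ico al (be + 1), be ∈ Q → ∃ B ⊆ Q,
        ∑ c ∈ Q, (Finset.Ico al c \ Q).card + NM M (Finset.range al ∪ Q) +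
          B.card * (B.card - 1) ≤ ∑ b ∈ B, j b) :
    ∃ H : (b : ℕ) → (Fin b × ℕ → Qa) → MvPolynomial (Fin (j b)) Qa, (∀ b y, H b y ≠ 0) ∧
      ∀ V : ℕ × ℕ → Qa,
        (∀ b, eval (fun t : Fin (j b) => V (b, t)) (H b fun p => V (p.1, p.2)) ≠ 0) →
        LinearIndependent Qa
          (fun a : M => (a : ℕ →₀ ℕ).prod fun b e => val lam j V b ^ e) := by
  have : Infinite Qa := Infinite.of_injective (Nat.cast : ℕ → Qa) Nat.cast_injective
  obtain ⟨H, hH0, hH⟩ := seq (k := Qa) (j := j) (Good := fun n V => Free M n (val lam j V))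
    (fun V => free_zero M _) thr
    (fun α β V hαβ h hprev => core hlam hlog hM hfin j V hαβ hprev (hcount α β hαβ h))
  exact ⟨H, hH0, fun V hV => linearIndependent_of_free (hH V hV)⟩

/-- Theorem HM, rational rows. -/
theorem hm_rat {lam : ℕ → ℂ} (halg : ∀ i, IsAlgebraic ℚ (Complex.exp (lam i)))
    (hli : LinearIndependent ℚ lam) {M : Set (ℕ →₀ ℕ)} (hM : IsLowerSet M)
    (hfin : ∀ n, {a : ℕ →₀ ℕ | a ∈ M ∧ ∀ b ∈ a.support, b < n}.Finite) (j : ℕ → ℕ)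
    (thr : ℕ → ℕ)
    (hcount : ∀ al be, al ≤ be → (al = 0 ∨ thr al ≤ be) →
      ∀ Q ⊆ Finset.Ico al (be + 1), be ∈ Q → ∃ B ⊆ Q,
        ∑ c ∈ Q, (Finset.Ico al c \ Q).card + NM M (Finset.range al ∪ Q) +
          B.card * (B.card - 1) ≤ ∑ b ∈ B, j b) :
    ∃ H : (b : ℕ) → (Fin b → ℕ → ℚ) → MvPolynomial (Fin (j b)) ℚ, (∀ b y, H b y ≠ 0) ∧
      ∀ x : ℕ → ℕ → ℚ, (∀ b, eval (fun t : Fin (j b) => x b t) (H b fun i => x i) ≠ 0) →
        LinearIndependent Qa (fun a : M => (a : ℕ →₀ ℕ).prod fun b e =>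
          (∑ t ∈ Finset.range (j b), (x b t : ℂ) * lam t) ^ e) := by
  have hlam := FC.baker lam halg hli
  have hlog : ∀ i, lam i ∈ Lsp := fun i => Submodule.subset_span (halg i)
  obtain ⟨H, hH0, hH⟩ := hm hlam hlog hM hfin j thr hcount
  choose g hg0 hg using fun (b : ℕ) (y : Fin b → ℕ → ℚ) =>
    FG.exists_rat (H b fun p => ((y p.1 p.2 : ℚ) : Qa)) (hH0 b _)
  refine ⟨g, hg0, fun x hx => ?_⟩
  have h1 := hH (fun p => ((x p.1 p.2 : ℚ) : Qa)) fun b => hg b _ _ (hx b)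
  have h2 : ∀ b, val lam j (fun p => ((x p.1 p.2 : ℚ) : Qa)) b =
      ∑ t ∈ Finset.range (j b), (x b t : ℂ) * lam t := by
    intro b
    refine Finset.sum_congr rfl fun t _ => ?_
    rw [Algebra.smul_def]
    congr 1
  simpa only [h2] using h1

/-- Theorem HM with the lengths `m b + 2 (b + 1)`. -/
theorem hm_main {lam : ℕ → ℂ} (halg : ∀ i, IsAlgebraic ℚ (Complex.exp (lam i)))
    (hli : LinearIndependent ℚ lam) {M : Set (ℕ →₀ ℕ)} (hM : IsLowerSet M)
    (hfin : ∀ n, {a : ℕ →₀ ℕ | a ∈ M ∧ ∀ b ∈ a.support, b < n}.Finite) (j : ℕ → ℕ)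
    (hj : ∀ b, mb M b + 2 * (b + 1) ≤ j b) :
    ∃ H : (b : ℕ) → (Fin b → ℕ → ℚ) → MvPolynomial (Fin (j b)) ℚ, (∀ b y, H b y ≠ 0) ∧
      ∀ x : ℕ → ℕ → ℚ, (∀ b, eval (fun t : Fin (j b) => x b t) (H b fun i => x i) ≠ 0) →
        LinearIndependent Qa (fun a : M => (a : ℕ →₀ ℕ).prod fun b e =>
          (∑ t ∈ Finset.range (j b), (x b t : ℂ) * lam t) ^ e) := by
  refine hm_rat halg hli hM hfin j (fun al => al + NM M (Finset.range al))
    fun al be _ h Q hQ hbe => ⟨Q, Finset.Subset.refl _, ?_⟩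
  exact (countM M hfin h Q hQ hbe).trans (Finset.sum_le_sum fun b _ => hj b)

end MP60829e.HD
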