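import Pool.Agent.Lib.MP_60829e_nt.HD.CoreL
import Pool.Agent.Lib.MP_60829e_nt.HD.Fin
import Pool.Agent.Lib.MP_60829e_nt.HD.CountL
import Pool.Agent.Lib.MP_60829e_nt.FZ.StartE

/-! # Generic combinations of logarithms: no polynomial with monomials in `M` is a linear form in
logarithms -/

open MvPolynomial Module

namespace MP60829e.HD

open MP60829e.ST (Qa Lsp Lt)

theorem Gq.mono {k : Type*} [Field k] {j : ℕ → ℕ} {Good Good' : ℕ → (ℕ × ℕ → k) → Prop}
    {V : ℕ × ℕ → k} {α β : ℕ} (h : Gq j Good V α β) (hG : ∀ V', Good β V' → Good' β V') :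
    Gq j Good' V α β := by
  obtain ⟨f, h0, hv, hf⟩ := h
  exact ⟨f, h0, hv, fun V' h1 h2 => hG V' (hf V' h1 h2)⟩

theorem Gq.and {k : Type*} [Field k] {j : ℕ → ℕ} {Good Good' : ℕ → (ℕ × ℕ → k) → Prop}
    {V : ℕ × ℕ → k} {α β : ℕ} (h : Gq j Good V α β) (h' : Gq j Good' V α β) :
    Gq j (fun n V => Good n V ∧ Good' n V) V α β := by
  classical
  obtain ⟨f, h0, hv, hf⟩ := h
  obtain ⟨g, h0', hv', hg⟩ := h'
  refine ⟨f * g, mul_ne_zero h0 h0', fun p hp => ?_, fun V' h1 h2 => ?_⟩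
  · rcases Finset.mem_union.1 (vars_mul f g hp) with hp | hp
    · exact hv p hp
    · exact hv' p hp
  · rw [map_mul] at h2
    exact ⟨hf V' h1 (left_ne_zero_of_mul h2), hg V' h1 (right_ne_zero_of_mul h2)⟩

theorem freeL_zero {M : Set (ℕ →₀ ℕ)} (hM2 : ∀ a ∈ M, 2 ≤ a.degree) (x : ℕ → ℂ) :
    FreeL M 0 x := by
  intro P hP _
  by_contra hne
  obtain ⟨a, ha⟩ := MvPolynomial.ne_zero_iff.1 hne
  obtain ⟨h1, h2⟩ := hP a (MvPolynomial.mem_support_iff.2 ha)
  have h3 : a = 0 := by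
    rw [← Finsupp.support_eq_empty]
    exact Finset.eq_empty_of_forall_notMem fun b hb => absurd (h2 b hb) (Nat.not_lt_zero _)
  have h4 := hM2 a h1
  rw [h3, map_zero] at h4
  omega

theorem isLowerSet_one : IsLowerSet {a : ℕ →₀ ℕ | a.degree ≤ 1} := fun _ _ hba ha =>
  (Finsupp.degree_mono hba).trans ha

theorem finite_degree (D n : ℕ) :
    {a : ℕ →₀ ℕ | a ∈ {a : ℕ →₀ ℕ | a.degree ≤ D} ∧ ∀ b ∈ a.support, b < n}.Finite := by
  classical
  refine (Finset.finite_toSet ((Finset.range (D + 1)).biUnion fun i =>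
    Finset.finsuppAntidiag (Finset.range n) i)).subset ?_
  rintro a ⟨h1, h2⟩
  rw [Finset.mem_coe, Finset.mem_biUnion]
  have h3 : a.support ⊆ Finset.range n := fun b hb => Finset.mem_range.2 (h2 b hb)
  refine ⟨a.degree, Finset.mem_range.2 (Nat.lt_succ_of_le h1), ?_⟩
  rw [Finset.mem_finsuppAntidiag]
  refine ⟨?_, h3⟩
  rw [Finsupp.degree_apply]
  exact (Finset.sum_subset h3 fun b _ hb => Finsupp.notMem_support_iff.1 hb).symm

/-- The theorem, rows over the algebraic numbers. -/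
theorem hmL {lam : ℕ → ℂ} (hlam : LinearIndependent Qa lam) (hlog : ∀ i, lam i ∈ Lsp)
    {M : Set (ℕ →₀ ℕ)} (hM2 : ∀ a ∈ M, 2 ≤ a.degree)
    (hM : ∀ a ∈ M, ∀ c, c ≤ a → 2 ≤ c.degree → c ∈ M)
    (hfin : ∀ n, {a : ℕ →₀ ℕ | a ∈ M ∧ ∀ b ∈ a.support, b < n}.Finite) (j : ℕ → ℕ)
    (hj : ∀ b, 2 * b + 2 ≤ j b) (thr : ℕ → ℕ)
    (hcount : ∀ al be, al ≤ be → (al = 0 ∨ thr al ≤ be) →
      ∀ Q ⊆ Finset.Ico al (be + 1), be ∈ Q → ∃ B ⊆ Q,
        ∑ c ∈ Q, (Finset.Ico al c \ Q).card + NM M (Finset.range al ∪ Q) +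
          B.card * (B.card + 1) + 1 ≤ ∑ b ∈ B, j b) :
    ∃ H : (b : ℕ) → (Fin b × ℕ → Qa) → MvPolynomial (Fin (j b)) Qa, (∀ b y, H b y ≠ 0) ∧
      ∀ V : ℕ × ℕ → Qa,
        (∀ b, eval (fun t : Fin (j b) => V (b, t)) (H b fun p => V (p.1, p.2)) ≠ 0) →
        ∀ n, Free {a | a.degree ≤ 1} n (val lam j V) ∧ FreeL M n (val lam j V) := by
  have : Infinite Qa := Infinite.of_injective (Nat.cast : ℕ → Qa) Nat.cast_injective
  refine seq (k := Qa) (j := j)
    (Good := fun n V => Free {a | a.degree ≤ 1} n (val lam j V) ∧ FreeL M n (val lam j V))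
    (fun V => ⟨free_zero _ _, freeL_zero hM2 _⟩) thr fun α β V hαβ h hprev => ?_
  have h1 : GenFree {a | a.degree ≤ 1} lam j V α (β + 1) :=
    core hlam hlog isLowerSet_one (finite_degree 1) j V hαβ
      (hprev.mono (Good' := fun n V => Free {a | a.degree ≤ 1} n (val lam j V))
        fun V' hV' => hV'.1)
      fun Q hQ hb => ⟨Q, Finset.Subset.refl _, countM1 hj Q hQ hb⟩
  have h2 : GenFreeL M lam j V α (β + 1) :=
    coreL hlam hlog hM2 hM hfin j V hαβ h1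
      (hprev.mono (Good' := fun n V => FreeL M n (val lam j V)) fun V' hV' => hV'.2)
      (hcount α β hαβ h)
  exact Gq.and h1 h2

/-- The theorem, rational rows. -/
theorem hmL_rat {lam : ℕ → ℂ} (halg : ∀ i, IsAlgebraic ℚ (Complex.exp (lam i)))
    (hli : LinearIndependent ℚ lam)
    {M : Set (ℕ →₀ ℕ)} (hM2 : ∀ a ∈ M, 2 ≤ a.degree)
    (hM : ∀ a ∈ M, ∀ c, c ≤ a → 2 ≤ c.degree → c ∈ M)
    (hfin : ∀ n, {a : ℕ →₀ ℕ | a ∈ M ∧ ∀ b ∈ a.support, b < n}.Finite) (j : ℕ → ℕ)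
    (hj : ∀ b, 2 * b + 2 ≤ j b) (thr : ℕ → ℕ)
    (hcount : ∀ al be, al ≤ be → (al = 0 ∨ thr al ≤ be) →
      ∀ Q ⊆ Finset.Ico al (be + 1), be ∈ Q → ∃ B ⊆ Q,
        ∑ c ∈ Q, (Finset.Ico al c \ Q).card + NM M (Finset.range al ∪ Q) +
          B.card * (B.card + 1) + 1 ≤ ∑ b ∈ B, j b) :
    ∃ H : (b : ℕ) → (Fin b → ℕ → ℚ) → MvPolynomial (Fin (j b)) ℚ, (∀ b y, H b y ≠ 0) ∧
      ∀ x : ℕ → ℕ → ℚ, (∀ b, eval (fun t : Fin (j b) => x b t) (H b fun i => x i) ≠ 0) →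
        ∀ P : MvPolynomial ℕ Qa, (∀ a ∈ P.support, a ∈ M) →
          aeval (fun b => ∑ t : Fin (j b), (x b t : ℂ) * lam t) P ∈ Lt → P = 0 := by
  have hlam := FC.baker lam halg hli
  have hlog : ∀ i, lam i ∈ Lsp := fun i => Submodule.subset_span (halg i)
  obtain ⟨H, hH0, hH⟩ := hmL hlam hlog hM2 hM hfin j hj thr hcount
  choose g hg0 hg using fun (b : ℕ) (y : Fin b → ℕ → ℚ) =>
    FG.exists_rat (H b fun p => ((y p.1 p.2 : ℚ) : Qa)) (hH0 b _)
  refine ⟨g, hg0, fun x hx P hP hPL => ?_⟩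
  have h1 := hH (fun p => ((x p.1 p.2 : ℚ) : Qa)) fun b => hg b _ _ (hx b)
  have h2 : val lam j (fun p => ((x p.1 p.2 : ℚ) : Qa)) =
      fun b => ∑ t : Fin (j b), (x b t : ℂ) * lam t := by
    funext b
    unfold val
    rw [Finset.sum_range]
    refine Finset.sum_congr rfl fun t _ => ?_
    rw [Algebra.smul_def]
    congr 1
  rw [h2] at h1
  obtain ⟨n, hn⟩ : ∃ n : ℕ, ∀ a ∈ P.support, ∀ b ∈ a.support, b < n := by
    refine ⟨(P.support.biUnion fun i => i.support).sup id + 1, fun i hi b hb => ?_⟩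
    exact Nat.lt_succ_of_le (Finset.le_sup (f := id) (Finset.mem_biUnion.2 ⟨i, hi, hb⟩))
  exact (h1 n).2 P (fun a ha => ⟨hP a ha, hn a ha⟩) hPL

/-- Degree two. -/
theorem hdL {lam : ℕ → ℂ} (halg : ∀ i, IsAlgebraic ℚ (Complex.exp (lam i)))
    (hli : LinearIndependent ℚ lam) :
    ∃ H : (b : ℕ) → (Fin b → ℕ → ℚ) → MvPolynomial (Fin (2 * b + 4)) ℚ, (∀ b y, H b y ≠ 0) ∧
      ∀ x : ℕ → ℕ → ℚ,
        (∀ b, eval (fun t : Fin (2 * b + 4) => x b t) (H b fun i => x i) ≠ 0) →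
        ∀ P : MvPolynomial ℕ Qa, (∀ a ∈ P.support, a.degree = 2) →
          aeval (fun b => ∑ t : Fin (2 * b + 4), (x b t : ℂ) * lam t) P ∈ Lt → P = 0 :=
  hmL_rat halg hli (M := {a | a.degree = 2}) (fun _ ha => le_of_eq (Eq.symm ha))
    (fun a ha c hca hc => le_antisymm ((Finsupp.degree_mono hca).trans (le_of_eq ha)) hc)
    (fun n => (finite_degree 2 n).subset fun a ha => ⟨le_of_eq ha.1, ha.2⟩)
    (fun b => 2 * b + 4) (fun b => by omega) (fun al => al * (al + 1))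
    fun al be _ h Q hQ hbe => countQL (h.imp id fun h => by omega) Q hQ hbe

/-- General sets of monomials. -/
theorem hmL_main {lam : ℕ → ℂ} (halg : ∀ i, IsAlgebraic ℚ (Complex.exp (lam i)))
    (hli : LinearIndependent ℚ lam)
    {M : Set (ℕ →₀ ℕ)} (hM2 : ∀ a ∈ M, 2 ≤ a.degree)
    (hM : ∀ a ∈ M, ∀ c, c ≤ a → 2 ≤ c.degree → c ∈ M)
    (hfin : ∀ n, {a : ℕ →₀ ℕ | a ∈ M ∧ ∀ b ∈ a.support, b < n}.Finite) (j : ℕ → ℕ)
    (hj : ∀ b, mb M b + 2 * b + 3 ≤ j b) :
    ∃ H : (b : ℕ) → (Fin b → ℕ → ℚ) → MvPolynomial (Fin (j b)) ℚ, (∀ b y, H b y ≠ 0) ∧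
      ∀ x : ℕ → ℕ → ℚ, (∀ b, eval (fun t : Fin (j b) => x b t) (H b fun i => x i) ≠ 0) →
        ∀ P : MvPolynomial ℕ Qa, (∀ a ∈ P.support, a ∈ M) →
          aeval (fun b => ∑ t : Fin (j b), (x b t : ℂ) * lam t) P ∈ Lt → P = 0 := by
  refine hmL_rat halg hli hM2 hM hfin j (fun b => le_trans (by omega) (hj b))
    (fun al => al + NM M (Finset.range al)) fun al be _ h Q hQ hbe => ⟨Q, Finset.Subset.refl _, ?_⟩
  exact (countML M hfin hM2 h Q hQ hbe).trans (Finset.sum_le_sum fun b _ => hj b)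

/-- Polynomials with algebraic coefficients. -/
theorem exists_over {P : MvPolynomial ℕ ℂ} (hP : ∀ a, IsAlgebraic ℚ (coeff a P)) :
    ∃ P' : MvPolynomial ℕ Qa, P'.support ⊆ P.support ∧ map (algebraMap Qa ℂ) P' = P := by
  classical
  have hc : ∀ a, coeff a (∑ a ∈ P.support,
      monomial a (⟨coeff a P, mem_algebraicClosure_iff.2 (hP a)⟩ : Qa)) =
        ⟨coeff a P, mem_algebraicClosure_iff.2 (hP a)⟩ := by
    intro a
    rw [coeff_sum, Finset.sum_eq_single a]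
    · rw [coeff_monomial, if_pos rfl]
    · intro b _ hb
      rw [coeff_monomial, if_neg hb]
    · intro h
      rw [coeff_monomial, if_pos rfl]
      exact Subtype.ext (MvPolynomial.notMem_support_iff.1 h)
  refine ⟨∑ a ∈ P.support, monomial a (⟨coeff a P, mem_algebraicClosure_iff.2 (hP a)⟩ : Qa),
    fun a ha => ?_, ?_⟩
  · rw [MvPolynomial.mem_support_iff, hc] at ha
    rw [MvPolynomial.mem_support_iff]
    intro h
    exact ha (Subtype.ext h)
  · refine MvPolynomial.ext _ _ fun a => ?_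
    rw [coeff_map, hc]
    rfl

/-- The inhomogeneous theorem of Baker. -/
theorem baker_one {lam : ℕ → ℂ} (halg : ∀ i, IsAlgebraic ℚ (Complex.exp (lam i)))
    (hli : LinearIndependent ℚ lam) :
    LinearIndependent Qa (Sum.elim (fun _ : Unit => (1 : ℂ)) lam) := by
  refine LinearIndependent.sum_type (LinearIndependent.of_subsingleton () one_ne_zero)
    (FC.baker lam halg hli) ?_
  rw [Submodule.disjoint_def]
  intro x hx hx'
  rw [Set.range_const, Submodule.mem_span_singleton] at hx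
  obtain ⟨c, rfl⟩ := hx
  by_contra hne
  have hc : c ≠ 0 := by
    rintro rfl
    exact hne (zero_smul _ _)
  have h1 : (1 : ℂ) ∈ Submodule.span Qa (Set.range lam) := by
    have := Submodule.smul_mem _ c⁻¹ hx'
    rwa [smul_smul, inv_mul_cancel₀ hc, one_smul] at this
  have h2 : (1 : ℂ) ∈ Lsp := Submodule.span_mono (by
    rintro _ ⟨i, rfl⟩
    exact halg i) h1
  exact Pool.Agent.Lib.MP_60829e_nt.ML.one_notMem h2

/-- There is a sequence outside the hypersurfaces. -/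
theorem exists_seq {j : ℕ → ℕ} (H : (b : ℕ) → (Fin b → ℕ → ℚ) → MvPolynomial (Fin (j b)) ℚ)
    (hH : ∀ b y, H b y ≠ 0) :
    ∃ x : ℕ → ℕ → ℚ, ∀ b, eval (fun t : Fin (j b) => x b t) (H b fun i => x i) ≠ 0 := by
  classical
  have h1 : ∀ (b : ℕ) (y : Fin b → ℕ → ℚ), ∃ x : ℕ → ℚ,
      eval (fun t : Fin (j b) => x t) (H b y) ≠ 0 := by
    intro b y
    by_contra hcon
    push Not at hcon
    apply hH b y
    apply MvPolynomial.funext
    intro x
    rw [map_zero, ← hcon fun t => if h : t < j b then x ⟨t, h⟩ else 0]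
    congr 1
    congr 1
    funext t
    rw [dif_pos t.2]
  choose f hf using h1
  let x : ℕ → ℕ → ℚ := fun n => Nat.strongRec (motive := fun _ => ℕ → ℚ) (fun b ih => f b fun i => ih i i.2) n
  have hx : ∀ b, x b = f b fun i => x i := by
    intro b
    show Nat.strongRec (motive := fun _ => ℕ → ℚ) (fun b ih => f b fun i => ih i i.2) b = _
    rw [Nat.strongRec_eq]
  refine ⟨x, fun b => ?_⟩
  have h2 := hf b fun i => x i
  rw [← hx b] at h2
  exact h2

/-- Baker's theorem with products. -/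
theorem baker_products {lam : ℕ → ℂ} (halg : ∀ i, IsAlgebraic ℚ (Complex.exp (lam i)))
    (hli : LinearIndependent ℚ lam) {u : ℕ → ℂ}
    (hu : ∀ P : MvPolynomial ℕ Qa, (∀ a ∈ P.support, a.degree = 2) → aeval u P ∈ Lt → P = 0) :
    LinearIndependent Qa (Sum.elim (Sum.elim (fun _ : Unit => (1 : ℂ)) lam)
      fun p : {p : ℕ × ℕ // p.1 ≤ p.2} => u p.1.1 * u p.1.2) := by
  classical
  have hX : ∀ p : {p : ℕ × ℕ // p.1 ≤ p.2}, aeval u (monomial
      (Finsupp.single p.1.1 1 + Finsupp.single p.1.2 1) (1 : Qa)) = u p.1.1 * u p.1.2 := by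
    intro p
    rw [← one_mul (1 : Qa), ← monomial_mul, map_mul]
    have h1 : ∀ i : ℕ, aeval u (monomial (Finsupp.single i 1) (1 : Qa)) = u i := fun i =>
      aeval_X u i
    rw [h1, h1]
  have hinj : Function.Injective fun p : {p : ℕ × ℕ // p.1 ≤ p.2} =>
      (Finsupp.single p.1.1 1 + Finsupp.single p.1.2 1 : ℕ →₀ ℕ) := by
    rintro ⟨⟨a, b⟩, hab⟩ ⟨⟨c, d⟩, hcd⟩ h
    dsimp only at h hab hcd
    have h1 := DFunLike.congr_fun h a
    have h2 := DFunLike.congr_fun h b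
    have h3 := DFunLike.congr_fun h c
    have h4 := DFunLike.congr_fun h d
    simp only [Finsupp.add_apply, Finsupp.single_apply] at h1 h2 h3 h4
    have : a = c ∧ b = d := by
      constructor <;> (split_ifs at h1 h2 h3 h4 <;> omega)
    exact Subtype.ext (Prod.ext this.1 this.2)
  have key : ∀ (s : Finset {p : ℕ × ℕ // p.1 ≤ p.2}) (g : {p : ℕ × ℕ // p.1 ≤ p.2} → Qa),
      ∑ p ∈ s, g p • (u p.1.1 * u p.1.2) ∈ Lt → ∀ p ∈ s, g p = 0 := by
    intro s g hg p hp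
    set P : MvPolynomial ℕ Qa := ∑ p ∈ s, monomial
      (Finsupp.single p.1.1 1 + Finsupp.single p.1.2 1) (g p) with hP
    have hPe : aeval u P = ∑ p ∈ s, g p • (u p.1.1 * u p.1.2) := by
      rw [hP, map_sum]
      refine Finset.sum_congr rfl fun p _ => ?_
      rw [← hX p, ← map_smul, smul_monomial, smul_eq_mul, mul_one]
    have h0 : P = 0 := by
      refine hu P (fun a ha => ?_) (hPe ▸ hg)
      rw [MvPolynomial.mem_support_iff, hP, coeff_sum] at ha
      obtain ⟨q, -, hq⟩ := Finset.exists_ne_zero_of_sum_ne_zero ha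
      rw [coeff_monomial] at hq
      have h1 : Finsupp.single q.1.1 1 + Finsupp.single q.1.2 1 = a := by
        by_contra h
        rw [if_neg h] at hq
        exact hq rfl
      rw [← h1, map_add, Finsupp.degree_single, Finsupp.degree_single]
    have h1 : coeff (Finsupp.single p.1.1 1 + Finsupp.single p.1.2 1) P = g p := by
      rw [hP, coeff_sum, Finset.sum_eq_single p]
      · rw [coeff_monomial, if_pos rfl]
      · intro q _ hne
        rw [coeff_monomial, if_neg fun h => hne (hinj h)]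
      · exact fun h => absurd hp h
    rw [← h1, h0, coeff_zero]
  refine LinearIndependent.sum_type (baker_one halg hli) ?_ ?_
  · rw [linearIndependent_iff']
    intro s g hg p hp
    exact key s g (by rw [hg]; exact Submodule.zero_mem _) p hp
  · rw [Submodule.disjoint_def]
    intro x hx hx'
    obtain ⟨c, rfl⟩ := (Finsupp.mem_span_range_iff_exists_finsupp).1 hx'
    have h1 : (c.sum fun p a => a • (u p.1.1 * u p.1.2)) ∈ Lt := by
      refine (Submodule.span_le.2 ?_ : Submodule.span Qa _ ≤ Lt) hx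
      rintro _ ⟨i | i, rfl⟩
      · exact Submodule.subset_span (Or.inl rfl)
      · exact Submodule.subset_span (Or.inr (halg i))
    rw [Finsupp.sum] at h1 ⊢
    exact Finset.sum_eq_zero fun p hp => by rw [key _ _ h1 p hp, zero_smul]

end MP60829e.HD
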