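import Pool.Agent.Lib.MP_60829e_nt.HD.Inv

/-! # The structure of a minimal relation -/

open MvPolynomial

namespace MP60829e.HD

open MP60829e.ST (Qa Lsp Lt)
open MP60829e.SB

/-- The value of the monomial `a`. -/
noncomputable def mon {R : Type} [CommSemiring R] (a : ℕ →₀ ℕ) (y : ℕ → R) : R :=
  ∏ i ∈ a.support, y i ^ a i

theorem aeval_mon (q : MvPolynomial ℕ Qa) (y : ℕ → ℂ) :
    aeval y q = ∑ a ∈ q.support, ((coeff a q : Qa) : ℂ) * mon a y := by
  rw [aeval_def, eval₂_eq]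
  rfl

theorem aeval_congr {n : ℕ} {M : Set (ℕ →₀ ℕ)} {q : MvPolynomial ℕ Qa} (hq : SuppIn M n q)
    {x y : ℕ → ℂ} (h : ∀ i < n, x i = y i) : aeval x q = aeval y q := by
  rw [aeval_mon, aeval_mon]
  refine Finset.sum_congr rfl fun a ha => ?_
  congr 1
  exact Finset.prod_congr rfl fun i hi => by rw [h i ((hq a ha).2 i hi)]

/-- The pairs `(c, b)` with `c ∈ Q`, `al ≤ b < c` and `b ∉ Q`. -/
def PR (al : ℕ) (Q : Finset ℕ) : Finset (Σ _ : ℕ, ℕ) := Q.sigma fun c => Finset.Ico al c \ Q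

theorem card_PR (al : ℕ) (Q : Finset ℕ) : (PR al Q).card = ∑ c ∈ Q, (Finset.Ico al c \ Q).card :=
  Finset.card_sigma _ _

/-- The parameters. -/
abbrev ZI (P : Finset (Σ _ : ℕ, ℕ)) (S : Finset (ℕ →₀ ℕ)) : Type := {p // p ∈ P} ⊕ {a // a ∈ S}

variable {P : Finset (Σ _ : ℕ, ℕ)} {S : Finset (ℕ →₀ ℕ)} {n : ℕ}

/-- The variables. -/
noncomputable def XX (P : Finset (Σ _ : ℕ, ℕ)) (S : Finset (ℕ →₀ ℕ)) (n i : ℕ) :
    MvPolynomial (ZI P S ⊕ Fin n) ℂ := if h : i < n then X (Sum.inr ⟨i, h⟩) else 0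

/-- The new variables. -/
noncomputable def YY (P : Finset (Σ _ : ℕ, ℕ)) (S : Finset (ℕ →₀ ℕ)) (n i : ℕ) :
    MvPolynomial (ZI P S ⊕ Fin n) ℂ :=
  XX P S n i + ∑ p : {p // p ∈ P},
    if p.1.1 = i then X (Sum.inl (Sum.inl p)) * XX P S n p.1.2 else 0

/-- The universal polynomial; the coefficient of the monomial `a0` is `1`. -/
noncomputable def GG (P : Finset (Σ _ : ℕ, ℕ)) (S : Finset (ℕ →₀ ℕ)) (n : ℕ) (a0 : ℕ →₀ ℕ) :
    MvPolynomial (ZI P S ⊕ Fin n) ℂ :=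
  mon a0 (YY P S n) + ∑ a : {a // a ∈ S}, X (Sum.inl (Sum.inr a)) * mon a.1 (YY P S n)

/-- The new coordinates. -/
noncomputable def yy (z : ZI P S → Qa) (x : Fin n → ℂ) (i : ℕ) : ℂ :=
  ext x i + ∑ p : {p // p ∈ P}, if p.1.1 = i then (z (Sum.inl p) : ℂ) * ext x p.1.2 else 0

theorem eval_XX (z : ZI P S → Qa) (x : Fin n → ℂ) (i : ℕ) :
    eval (pv z x) (XX P S n i) = ext x i := by
  unfold XX ext
  by_cases h : i < n
  · rw [dif_pos h, dif_pos h, eval_X]
    rfl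
  · rw [dif_neg h, dif_neg h, map_zero]

theorem eval_YY (z : ZI P S → Qa) (x : Fin n → ℂ) (i : ℕ) :
    eval (pv z x) (YY P S n i) = yy z x i := by
  unfold YY yy
  rw [map_add, eval_XX, map_sum]
  congr 1
  refine Finset.sum_congr rfl fun p _ => ?_
  by_cases h : p.1.1 = i
  · rw [if_pos h, if_pos h, map_mul, eval_X, eval_XX]
    rfl
  · rw [if_neg h, if_neg h, map_zero]

theorem eval_mon (z : ZI P S → Qa) (x : Fin n → ℂ) (a : ℕ →₀ ℕ) :
    eval (pv z x) (mon a (YY P S n)) = mon a (yy z x) := by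
  unfold mon
  rw [map_prod]
  exact Finset.prod_congr rfl fun i _ => by rw [map_pow, eval_YY]

theorem eval_GG (z : ZI P S → Qa) (x : Fin n → ℂ) (a0 : ℕ →₀ ℕ) :
    eval (pv z x) (GG P S n a0) = mon a0 (yy z x) +
      ∑ a : {a // a ∈ S}, (z (Sum.inr a) : ℂ) * mon a.1 (yy z x) := by
  unfold GG
  rw [map_add, eval_mon, map_sum]
  congr 1
  refine Finset.sum_congr rfl fun a _ => ?_
  rw [map_mul, eval_X, eval_mon]
  rfl

/-- A relation of minimal degree. -/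
theorem exists_min {M : Set (ℕ →₀ ℕ)} {n : ℕ} {x : ℕ → ℂ} (h : ¬ Free M n x) :
    ∃ q : MvPolynomial ℕ Qa, q ≠ 0 ∧ SuppIn M n q ∧ aeval x q = 0 ∧
      ∀ P : MvPolynomial ℕ Qa, SuppIn M n P → aeval x P = 0 →
        (P = 0 ∨ P.totalDegree < q.totalDegree) → P = 0 := by
  classical
  have h1 : ∃ d : ℕ, ∃ q : MvPolynomial ℕ Qa, q ≠ 0 ∧ SuppIn M n q ∧ aeval x q = 0 ∧
      q.totalDegree = d := by
    by_contra hcon
    refine h fun P hP hx => ?_
    by_contra hne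
    exact hcon ⟨_, P, hne, hP, hx, rfl⟩
  obtain ⟨q, hq0, hq1, hq2, hq3⟩ := Nat.find_spec h1
  refine ⟨q, hq0, hq1, hq2, fun P hP1 hP2 hP3 => ?_⟩
  by_contra hne
  have h2 := hP3.resolve_left hne
  rw [hq3] at h2
  exact Nat.find_min h1 h2 ⟨P, hne, hP1, hP2, rfl⟩

theorem suppIn_pderiv {M : Set (ℕ →₀ ℕ)} (hM : IsLowerSet M) {n : ℕ} {q : MvPolynomial ℕ Qa}
    (h : SuppIn M n q) (i : ℕ) : SuppIn M n (pderiv i q) := by
  classical
  intro a ha
  rw [mem_support_iff, coeff_pderiv] at ha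
  have h1 : a + Finsupp.single i 1 ∈ q.support := by
    rw [mem_support_iff]
    exact left_ne_zero_of_mul ha
  obtain ⟨h2, h3⟩ := h _ h1
  refine ⟨hM (self_le_add_right _ _) h2, fun b hb => h3 b ?_⟩
  rw [Finsupp.mem_support_iff] at hb ⊢
  rw [Finsupp.add_apply]
  omega

theorem deg_pderiv {q : MvPolynomial ℕ Qa} (i : ℕ) :
    pderiv i q = 0 ∨ (pderiv i q).totalDegree < q.totalDegree := by
  by_cases h : pderiv i q = 0
  · exact Or.inl h
  · refine Or.inr ?_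
    classical
    have hne : (pderiv i q).support.Nonempty := support_nonempty.mpr h
    obtain ⟨m, hm, hmd⟩ := Finset.exists_mem_eq_sup _ hne (fun s : ℕ →₀ ℕ => s.sum fun _ e => e)
    have h1 : (pderiv i q).totalDegree = m.sum fun _ e => e := hmd
    rw [h1]
    have h2 : m + Finsupp.single i 1 ∈ q.support := by
      rw [mem_support_iff] at hm ⊢
      rw [coeff_pderiv] at hm
      exact left_ne_zero_of_mul hm
    have h3 := le_totalDegree h2
    rw [Finsupp.sum_add_index' (fun _ => rfl) (fun _ _ _ => rfl)] at h3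
    have h4 : ((Finsupp.single i 1 : ℕ →₀ ℕ).sum fun _ e => e) = 1 := by simp
    omega

/-- A polynomial without the derivative in the last variable. -/
theorem suppIn_of_pderiv {M : Set (ℕ →₀ ℕ)} {n : ℕ} {q : MvPolynomial ℕ Qa}
    (h : SuppIn M (n + 1) q) (h0 : pderiv n q = 0) : SuppIn M n q := by
  classical
  intro a ha
  refine ⟨(h a ha).1, fun b hb => ?_⟩
  have h1 := (h a ha).2 b hb
  rcases Nat.lt_succ_iff_lt_or_eq.1 h1 with h2 | h2
  · exact h2
  · exfalso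
    subst h2
    rw [Finsupp.mem_support_iff] at hb
    obtain ⟨a', ha'⟩ : ∃ a' : ℕ →₀ ℕ, a' = a - Finsupp.single b 1 := ⟨_, rfl⟩
    have h3 : a' + Finsupp.single b 1 = a := by
      rw [ha']
      exact tsub_add_cancel_of_le (by
        rw [Finsupp.single_le_iff]
        exact Nat.one_le_iff_ne_zero.2 hb)
    have h4 : coeff a' (pderiv b q) = 0 := by rw [h0, coeff_zero]
    rw [coeff_pderiv, h3] at h4
    rcases mul_eq_zero.1 h4 with h5 | h5
    · exact (mem_support_iff.1 ha) h5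
    · have h6 : ((a' b : Qa) + 1) ≠ 0 := by exact_mod_cast Nat.succ_ne_zero (a' b)
      exact h6 h5

end MP60829e.HD
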