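import Pool.Agent.Lib.MP_60829e_nt.HD.FinL
import Mathlib.Combinatorics.Nullstellensatz

/-! # Natural numbers: rows with small entries, logarithms of products of primes -/

open MvPolynomial Module

namespace MP60829e.HD

open MP60829e.ST (Qa Lsp Lt)

/-- A polynomial of degree at most `d` has a nonzero value at a point with entries in
`{0, …, d}`. -/
theorem exists_nat_point {m d : ℕ} (f : MvPolynomial (Fin m) Qa) (hf : f ≠ 0)
    (hd : f.totalDegree ≤ d) :
    ∃ x : ℕ → ℕ, (∀ t, x t ≤ d) ∧ eval (fun t : Fin m => ((x t : ℕ) : Qa)) f ≠ 0 := by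
  classical
  by_contra hcon
  push Not at hcon
  apply hf
  obtain ⟨S, hS⟩ : ∃ S : Finset Qa, S = (Finset.range (d + 1)).image (Nat.cast : ℕ → Qa) := ⟨_, rfl⟩
  have hcard : S.card = d + 1 := by
    rw [hS, Finset.card_image_of_injective _ Nat.cast_injective, Finset.card_range]
  refine eq_zero_of_eval_zero_at_prod_finset f (fun _ => S) (fun i => ?_) fun x hx => ?_
  · rw [hcard]
    exact Nat.lt_succ_of_le ((degreeOf_le_totalDegree f i).trans hd)
  · have h1 : ∀ i, ∃ a : ℕ, a ≤ d ∧ ((a : ℕ) : Qa) = x i := by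
      intro i
      have h2 := hx i
      rw [hS, Finset.mem_image] at h2
      obtain ⟨a, ha, hax⟩ := h2
      exact ⟨a, Nat.le_of_lt_succ (Finset.mem_range.1 ha), hax⟩
    choose a ha hax using h1
    have h3 := hcon (fun t => if h : t < m then a ⟨t, h⟩ else 0) (fun t => by
      split_ifs
      · exact ha _
      · exact Nat.zero_le _)
    rw [← h3]
    congr 1
    congr 1
    funext i
    rw [dif_pos i.2]
    exact (hax i).symm

/-- There is a sequence of rows with small natural entries outside the hypersurfaces. -/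
theorem exists_nat_seq {j d : ℕ → ℕ}
    (H : (b : ℕ) → (Fin b × ℕ → Qa) → MvPolynomial (Fin (j b)) Qa) (hH : ∀ b y, H b y ≠ 0)
    (hd : ∀ b y, (H b y).totalDegree ≤ d b) :
    ∃ x : ℕ → ℕ → ℕ, (∀ b t, x b t ≤ d b) ∧
      ∀ b, eval (fun t : Fin (j b) => ((x b t : ℕ) : Qa))
        (H b fun p => ((x p.1 p.2 : ℕ) : Qa)) ≠ 0 := by
  classical
  have h1 : ∀ (b : ℕ) (y : Fin b → ℕ → ℕ), ∃ x : ℕ → ℕ, (∀ t, x t ≤ d b) ∧
      eval (fun t : Fin (j b) => ((x t : ℕ) : Qa)) (H b fun p => ((y p.1 p.2 : ℕ) : Qa)) ≠ 0 :=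
    fun b y => exists_nat_point _ (hH b _) (hd b _)
  choose f hfd hf using h1
  let x : ℕ → ℕ → ℕ := fun n =>
    Nat.strongRec (motive := fun _ => ℕ → ℕ) (fun b ih => f b fun i => ih i i.2) n
  have hx : ∀ b, x b = f b fun i => x i := by
    intro b
    show Nat.strongRec (motive := fun _ => ℕ → ℕ) (fun b ih => f b fun i => ih i i.2) b = _
    rw [Nat.strongRec_eq]
  refine ⟨x, fun b t => ?_, fun b => ?_⟩
  · rw [hx b]
    exact hfd _ _ _
  · have h2 := hf b fun i => x i
    rw [← hx b] at h2
    exact h2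

/-- Logarithms of distinct primes are linearly independent over the rationals. -/
theorem log_primes :
    LinearIndependent ℚ (fun p : Nat.Primes => ((Real.log (p : ℕ) : ℝ) : ℂ)) := by
  classical
  rw [← LinearIndependent.iff_fractionRing (R := ℤ) (K := ℚ)]
  rw [linearIndependent_iff']
  intro s g hg
  have h1 : ∑ p ∈ s, (g p : ℝ) * Real.log (p : ℕ) = 0 := by
    have : ((∑ p ∈ s, (g p : ℝ) * Real.log (p : ℕ) : ℝ) : ℂ) = 0 := by
      rw [← hg]
      push_cast
      refine Finset.sum_congr rfl fun p _ => ?_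
      simp
    exact_mod_cast this
  have h2 : ∏ p ∈ s, ((p : ℕ) : ℝ) ^ (g p).toNat = ∏ p ∈ s, ((p : ℕ) : ℝ) ^ (-g p).toNat := by
    apply Real.log_injOn_pos
    · simp only [Set.mem_Ioi]
      exact Finset.prod_pos fun p _ => pow_pos (by exact_mod_cast p.2.pos) _
    · simp only [Set.mem_Ioi]
      exact Finset.prod_pos fun p _ => pow_pos (by exact_mod_cast p.2.pos) _
    · rw [Real.log_prod, Real.log_prod]
      · rw [← sub_eq_zero, ← Finset.sum_sub_distrib, ← h1]
        refine Finset.sum_congr rfl fun p _ => ?_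
        rw [Real.log_pow, Real.log_pow, ← sub_mul]
        congr 1
        have := Int.toNat_sub_toNat_neg (g p)
        exact_mod_cast this
      · intro p _
        exact pow_ne_zero _ (by exact_mod_cast p.2.ne_zero)
      · intro p _
        exact pow_ne_zero _ (by exact_mod_cast p.2.ne_zero)
  have h3 : ∏ p ∈ s, (p : ℕ) ^ (g p).toNat = ∏ p ∈ s, (p : ℕ) ^ (-g p).toNat := by
    exact_mod_cast h2
  intro q hq
  have h4 := congrArg (fun m => Nat.factorization m (q : ℕ)) h3
  rw [Nat.factorization_prod, Nat.factorization_prod] at h4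
  · simp only [Nat.factorization_pow, Finsupp.coe_finsetSum, Finset.sum_apply,
      Finsupp.coe_smul, Pi.smul_apply, smul_eq_mul] at h4
    have h5 : ∀ e : Nat.Primes → ℕ, ∑ p ∈ s, e p * ((p : ℕ).factorization (q : ℕ)) = e q := by
      intro e
      rw [Finset.sum_eq_single q]
      · rw [q.2.factorization_self, mul_one]
      · intro p _ hpq
        rw [p.2.factorization, Finsupp.single_apply, if_neg, mul_zero]
        intro h
        exact hpq (Subtype.ext h)
      · intro h; exact absurd hq h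
    rw [h5, h5] at h4
    omega
  · intro p _
    exact pow_ne_zero _ p.2.ne_zero
  · intro p _
    exact pow_ne_zero _ p.2.ne_zero

/-- The logarithm of the prime number with index `t`. -/
noncomputable def logP (t : ℕ) : ℂ := ((Real.log (Nat.nth Nat.Prime t) : ℝ) : ℂ)

theorem prime_nth (t : ℕ) : (Nat.nth Nat.Prime t).Prime :=
  Nat.nth_mem_of_infinite Nat.infinite_setOfPred_prime t

theorem exp_logP (t : ℕ) : Complex.exp (logP t) = (Nat.nth Nat.Prime t : ℕ) := by
  unfold logP
  rw [← Complex.ofReal_exp, Real.exp_log (by exact_mod_cast (prime_nth t).pos)]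
  norm_cast

theorem halgP (t : ℕ) : IsAlgebraic ℚ (Complex.exp (logP t)) := by
  rw [exp_logP]
  exact isAlgebraic_natCast _

theorem hliP : LinearIndependent ℚ logP :=
  log_primes.comp (fun t : ℕ => (⟨Nat.nth Nat.Prime t, prime_nth t⟩ : Nat.Primes))
    fun _ _ h => Nat.nth_injective Nat.infinite_setOfPred_prime (congrArg Subtype.val h)

/-- The product of the first `m` primes with exponents `x`. -/
theorem log_prod (m : ℕ) (x : ℕ → ℕ) :
    ((Real.log ((∏ t ∈ Finset.range m, Nat.nth Nat.Prime t ^ x t : ℕ) : ℝ) : ℝ) : ℂ) =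
      ∑ t : Fin m, ((x t : ℕ) : ℂ) * logP t := by
  rw [Nat.cast_prod, Real.log_prod, Complex.ofReal_sum, Finset.sum_range]
  · refine Finset.sum_congr rfl fun t _ => ?_
    rw [Nat.cast_pow, Real.log_pow, Complex.ofReal_mul, Complex.ofReal_natCast]
    rfl
  · intro t _
    exact_mod_cast pow_ne_zero _ (prime_nth t).ne_zero

end MP60829e.HD
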