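import Pool.Agent.Lib.MP_60829e_nt.HD.SeqD

/-! # The recursion for monotone predicates: one polynomial for each row -/

open MvPolynomial

namespace MP60829e.HD

variable {k : Type} [Field k] {j : ℕ → ℕ} {Good : ℕ → (ℕ × ℕ → k) → Prop}

/-- If `T - α` more rows can be added, then fewer rows can be added. -/
theorem Gq.down [Infinite k]
    (hmono : ∀ β γ V, β ≤ γ → Good γ V → Good β V)
    (hcongr : ∀ β V W, (∀ p : ℕ × ℕ, p.1 < β → V p = W p) → Good β V → Good β W)
    {α β T : ℕ} {V : ℕ × ℕ → k} (h : Gq j Good V α T) (hαβ : α ≤ β) (hβT : β ≤ T) :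
    Gq j Good V α β := by
  classical
  obtain ⟨f, h0, hv, hf⟩ := h
  obtain ⟨y, hy⟩ : ∃ y : ℕ × ℕ → k, eval y f ≠ 0 := by
    by_contra hcon
    push Not at hcon
    exact h0 (MvPolynomial.funext fun y => by rw [hcon y, map_zero])
  set R : ℕ × ℕ → MvPolynomial (ℕ × ℕ) k := fun p => if p.1 < β then X p else C (y p) with hR
  have hev : ∀ V' : ℕ × ℕ → k, eval V' (bind₁ R f) =
      eval (fun p => if p.1 < β then V' p else y p) f := by
    intro V'
    rw [eval_bind]
    congr 1
    congr 1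
    funext p
    rw [hR]
    dsimp only
    split_ifs
    · rw [eval_X]
    · rw [eval_C]
  refine ⟨bind₁ R f, ?_, ?_, fun V' hV' hne => ?_⟩
  · intro h
    apply hy
    have h1 := hev y
    rw [h, map_zero] at h1
    rw [h1]
    congr 1
    congr 1
    funext p
    rw [ite_self]
  · intro p hp
    obtain ⟨q, hq, hpq⟩ := Finset.mem_biUnion.1 (vars_bind₁ R f hp)
    rw [hR] at hpq
    dsimp only at hpq
    by_cases h2 : q.1 < β
    · rw [if_pos h2, vars_X, Finset.mem_singleton] at hpq
      obtain ⟨h3, h4, h5⟩ := hv q hq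
      rw [hpq]
      exact ⟨h3, h2, h5⟩
    · rw [if_neg h2, vars_C] at hpq
      exact absurd hpq (Finset.notMem_empty _)
  · rw [hev] at hne
    have h1 := hf (fun p => if p.1 < β then V' p else y p)
      (fun p hp => (if_pos (lt_of_lt_of_le hp hαβ)).trans (hV' p hp)) hne
    exact hcongr β _ V' (fun p hp => if_pos hp) (hmono β T _ hβT h1)

theorem Ext.stepE [Infinite k] (thr : ℕ → ℕ) (D : ℕ → ℕ → ℕ)
    (hmono : ∀ β γ V, β ≤ γ → Good γ V → Good β V)
    (hcongr : ∀ β V W, (∀ p : ℕ × ℕ, p.1 < β → V p = W p) → Good β V → Good β W)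
    (hcore : ∀ α β V, α ≤ β → thr α ≤ β → Gq j Good V α β → Gq j Good V α (β + 1))
    (hD : ∀ α β V, Gq j Good V α β → GqD j Good V α β (D α β)) {α : ℕ}
    {V : ℕ × ℕ → k} (h : Ext j Good V α) :
    ∃ g : MvPolynomial (Fin (j α)) k, g ≠ 0 ∧
      g.totalDegree ≤ D α (max (α + 1) (thr (α + 1))) ∧
      ∀ V' : ℕ × ℕ → k, (∀ p, p.1 < α → V' p = V p) →
      eval (fun t : Fin (j α) => V' (α, t)) g ≠ 0 → Ext j Good V' (α + 1) := by
  classical
  set T := max (α + 1) (thr (α + 1)) with hT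
  have hαT : α ≤ T := (Nat.le_succ α).trans (le_max_left _ _)
  obtain ⟨g, hg0, hg1, hg⟩ := (hD α T V (h T hαT)).row
  refine ⟨g, hg0, hg1, fun V' hV' hne => ?_⟩
  have h0 := hg V' hV' hne
  intro β hβ
  rcases Nat.le_total β T with h2 | h2
  · exact h0.down hmono hcongr hβ h2
  · obtain ⟨i, rfl⟩ := Nat.exists_eq_add_of_le h2
    clear hβ h2
    induction i with
    | zero => exact h0
    | succ i ih =>
      rw [← add_assoc]
      refine hcore (α + 1) (T + i) V' ?_ ?_ ih
      · have := le_max_left (α + 1) (thr (α + 1))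
        omega
      · have := le_max_right (α + 1) (thr (α + 1))
        omega

/-- The recursion. -/
theorem seqE [Infinite k] (h0 : ∀ V, Good 0 V) (thr : ℕ → ℕ) (D : ℕ → ℕ → ℕ)
    (hmono : ∀ β γ V, β ≤ γ → Good γ V → Good β V)
    (hcongr : ∀ β V W, (∀ p : ℕ × ℕ, p.1 < β → V p = W p) → Good β V → Good β W)
    (hcore : ∀ α β V, α ≤ β → (α = 0 ∨ thr α ≤ β) → Gq j Good V α β → Gq j Good V α (β + 1))
    (hD : ∀ α β V, Gq j Good V α β → GqD j Good V α β (D α β)) :
    ∃ H : (b : ℕ) → (Fin b × ℕ → k) → MvPolynomial (Fin (j b)) k, (∀ b y, H b y ≠ 0) ∧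
      (∀ b y, (H b y).totalDegree ≤ D b (max (b + 1) (thr (b + 1)))) ∧
      ∀ V : ℕ × ℕ → k,
        (∀ b, eval (fun t : Fin (j b) => V (b, t)) (H b fun p => V (p.1, p.2)) ≠ 0) →
        ∀ β, Good β V := by
  classical
  choose g hg0 hg1 hg using fun (b : ℕ) (V : ℕ × ℕ → k) (h : Ext j Good V b) =>
    Ext.stepE thr D hmono hcongr
      (fun α β V hαβ hthr => hcore α β V hαβ (Or.inr hthr)) hD h
  let e : (b : ℕ) → (Fin b × ℕ → k) → ℕ × ℕ → k := fun b y p =>
    if h : p.1 < b then y (⟨p.1, h⟩, p.2) else 0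
  let H : (b : ℕ) → (Fin b × ℕ → k) → MvPolynomial (Fin (j b)) k := fun b y =>
    if h : Ext j Good (e b y) b then g b (e b y) h else 1
  have he : ∀ (V : ℕ × ℕ → k) b, ∀ p : ℕ × ℕ, p.1 < b →
      e b (fun q => V (q.1, q.2)) p = V p := by
    intro V b p hp
    show (if h : p.1 < b then V (p.1, p.2) else 0) = V p
    rw [dif_pos hp]
  refine ⟨H, fun b y => ?_, fun b y => ?_, fun V hV => ?_⟩
  · show (if h : Ext j Good (e b y) b then g b (e b y) h else 1) ≠ 0
    split_ifs with h
    · exact hg0 b _ h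
    · exact one_ne_zero
  · show (if h : Ext j Good (e b y) b then g b (e b y) h else 1).totalDegree ≤ _
    split_ifs with h
    · exact hg1 b _ h
    · rw [totalDegree_one]
      exact Nat.zero_le _
  · have key : ∀ b, Ext j Good V b := by
      intro b
      induction b with
      | zero => exact Ext.start h0 (fun β V => hcore 0 β V (Nat.zero_le _) (Or.inl rfl)) V
      | succ b ih =>
        have h1 : Ext j Good (e b fun q => V (q.1, q.2)) b := ih.congr (he V b)
        refine hg b (e b fun q => V (q.1, q.2)) h1 V (fun p hp => (he V b p hp).symm) ?_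
        have h2 := hV b
        have h3 : H b (fun q => V (q.1, q.2)) = g b (e b fun q => V (q.1, q.2)) h1 := dif_pos h1
        rw [h3] at h2
        exact h2
    exact fun β => (key β β le_rfl).good

end MP60829e.HD
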