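import Pool.Agent.Lib.MP_60829e_nt.HD.FinL
import Pool.Agent.Lib.MP_60829e_nt.HD.SeqE
import Pool.Agent.Lib.MP_60829e_nt.HD.NatP

/-! # Generic combinations of logarithms with bounds for the degrees of the hypersurfaces -/

open MvPolynomial Module

namespace MP60829e.HD

open MP60829e.ST (Qa Lsp Lt)

theorem FreeA.down {M : Set (ℕ →₀ ℕ)} {A : Submodule Qa ℂ} {n n' : ℕ} {x : ℕ → ℂ}
    (h : FreeA M A n' x) (hn : n ≤ n') : FreeA M A n x := fun P hP hx =>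
  h P (fun a ha => ⟨(hP a ha).1, fun b hb => lt_of_lt_of_le ((hP a ha).2 b hb) hn⟩) hx

theorem aeval_congr_of_lt {n : ℕ} {x y : ℕ → ℂ} (hxy : ∀ b < n, x b = y b)
    {P : MvPolynomial ℕ Qa} (hP : ∀ a ∈ P.support, ∀ b ∈ a.support, b < n) :
    aeval x P = aeval y P := by
  refine eval₂Hom_congr' rfl (fun b hb _ => ?_) rfl
  obtain ⟨a, ha, hba⟩ := (mem_vars_iff_mem_support b).1 hb
  exact hxy b (hP a ha b hba)

theorem FreeA.congr {M : Set (ℕ →₀ ℕ)} {A : Submodule Qa ℂ} {n : ℕ} {x y : ℕ → ℂ}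
    (h : FreeA M A n x) (hxy : ∀ b < n, x b = y b) : FreeA M A n y := fun P hP hy =>
  h P hP (by rwa [aeval_congr_of_lt hxy fun a ha => (hP a ha).2])

theorem val_congr (lam : ℕ → ℂ) (j : ℕ → ℕ) {V W : ℕ × ℕ → Qa} {b : ℕ}
    (h : ∀ p : ℕ × ℕ, p.1 = b → V p = W p) : val lam j V b = val lam j W b := by
  unfold val
  exact Finset.sum_congr rfl fun l _ => by rw [h (b, l) rfl]

/-- A point outside the hypersurface. -/
theorem Gq.exists_good {k : Type} [Field k] [Infinite k] {j : ℕ → ℕ}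
    {Good : ℕ → (ℕ × ℕ → k) → Prop} {V : ℕ × ℕ → k} {α β : ℕ} (h : Gq j Good V α β) :
    ∃ V' : ℕ × ℕ → k, (∀ p, p.1 < α → V' p = V p) ∧ Good β V' := by
  classical
  obtain ⟨f, h0, hv, hf⟩ := h
  obtain ⟨y, hy⟩ : ∃ y : ℕ × ℕ → k, eval y f ≠ 0 := by
    by_contra hcon
    push Not at hcon
    exact h0 (MvPolynomial.funext fun y => by rw [hcon y, map_zero])
  refine ⟨fun p => if p.1 < α then V p else y p, fun p hp => if_pos hp,
    hf _ (fun p hp => if_pos hp) ?_⟩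
  rw [show eval (fun p => if p.1 < α then V p else y p) f = eval y f from
    eval_congr_vars fun p hp => if_neg (not_lt.2 (hv p hp).1)]
  exact hy

/-- The predicate of the recursion. -/
def GoodL (M : Set (ℕ →₀ ℕ)) (lam : ℕ → ℂ) (j : ℕ → ℕ) (n : ℕ) (V : ℕ × ℕ → Qa) : Prop :=
  Free M1 n (val lam j V) ∧ FreeL M n (val lam j V)

/-- The degree of the minors. -/
noncomputable def dg (M : Set (ℕ →₀ ℕ)) (α β : ℕ) : ℕ :=
  ∑ a ∈ SW M1 (Finset.range β), a α + ∑ a ∈ SW M (Finset.range β), a α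

theorem goodL_minor {M : Set (ℕ →₀ ℕ)}
    (hfin : ∀ n, {a : ℕ →₀ ℕ | a ∈ M ∧ ∀ b ∈ a.support, b < n}.Finite) (lam : ℕ → ℂ)
    (j : ℕ → ℕ) (α β : ℕ) (V : ℕ × ℕ → Qa) (h : Gq j (GoodL M lam j) V α β) :
    GqD j (GoodL M lam j) V α β (dg M α β) := by
  have : Infinite Qa := Infinite.of_injective (Nat.cast : ℕ → Qa) Nat.cast_injective
  obtain ⟨V', hV', h1, h2⟩ := h.exists_good
  obtain ⟨f, hf0, hf1, hf2⟩ := exists_minor (finite_degree 1) ⊥ lam j V α β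
    ⟨V', hV', freeA_bot.2 h1⟩
  obtain ⟨g, hg0, hg1, hg2⟩ := exists_minor hfin Lt lam j V α β ⟨V', hV', h2⟩
  refine ⟨f * g, mul_ne_zero hf0 hg0, (hf1 α).mul (hg1 α), fun W hW hne => ?_⟩
  rw [map_mul] at hne
  exact ⟨freeA_bot.1 (hf2 W hW (left_ne_zero_of_mul hne)), hg2 W hW (right_ne_zero_of_mul hne)⟩

/-- The theorem, rows over the algebraic numbers. -/
theorem hmE {lam : ℕ → ℂ} (hlam : LinearIndependent Qa lam) (hlog : ∀ i, lam i ∈ Lsp)
    {M : Set (ℕ →₀ ℕ)} (hM2 : ∀ a ∈ M, 2 ≤ a.degree)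
    (hM : ∀ a ∈ M, ∀ c, c ≤ a → 2 ≤ c.degree → c ∈ M)
    (hfin : ∀ n, {a : ℕ →₀ ℕ | a ∈ M ∧ ∀ b ∈ a.support, b < n}.Finite) (j : ℕ → ℕ)
    (hj : ∀ b, 2 * b + 2 ≤ j b) (thr : ℕ → ℕ)
    (hcount : ∀ al be, al ≤ be → (al = 0 ∨ thr al ≤ be) →
      ∀ Q ⊆ Finset.Ico al (be + 1), be ∈ Q → ∃ B ⊆ Q,
        ∑ c ∈ Q, (Finset.Ico al c \ Q).card + NM M (Finset.range al ∪ Q) +
          B.card * (B.card + 1) + 1 ≤ ∑ b ∈ B, j b) :
    ∃ H : (b : ℕ) → (Fin b × ℕ → Qa) → MvPolynomial (Fin (j b)) Qa, (∀ b y, H b y ≠ 0) ∧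
      (∀ b y, (H b y).totalDegree ≤ dg M b (max (b + 1) (thr (b + 1)))) ∧
      ∀ V : ℕ × ℕ → Qa,
        (∀ b, eval (fun t : Fin (j b) => V (b, t)) (H b fun p => V (p.1, p.2)) ≠ 0) →
        ∀ n, FreeL M n (val lam j V) := by
  have : Infinite Qa := Infinite.of_injective (Nat.cast : ℕ → Qa) Nat.cast_injective
  obtain ⟨H, h0, h1, h2⟩ := seqE (k := Qa) (j := j) (Good := GoodL M lam j)
    (fun V => ⟨free_zero _ _, freeL_zero hM2 _⟩) thr (dg M)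
    (fun β γ V hβγ h => ⟨freeA_bot.1 ((freeA_bot.2 h.1).down hβγ),
      FreeA.down (A := Lt) h.2 hβγ⟩)
    (fun β V W hVW h => ⟨freeA_bot.1 ((freeA_bot.2 h.1).congr fun b hb =>
        val_congr lam j fun p hp => hVW p (hp ▸ hb)),
      FreeA.congr (A := Lt) h.2 fun b hb => val_congr lam j fun p hp => hVW p (hp ▸ hb)⟩)
    (fun α β V hαβ h hprev => by
      have h1 : GenFree M1 lam j V α (β + 1) :=
        core hlam hlog isLowerSet_one (finite_degree 1) j V hαβ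
          (hprev.mono (Good' := fun n V => Free M1 n (val lam j V)) fun V' hV' => hV'.1)
          fun Q hQ hb => ⟨Q, Finset.Subset.refl _, countM1 hj Q hQ hb⟩
      have h2 : GenFreeL M lam j V α (β + 1) :=
        coreL hlam hlog hM2 hM hfin j V hαβ h1
          (hprev.mono (Good' := fun n V => FreeL M n (val lam j V)) fun V' hV' => hV'.2)
          (hcount α β hαβ h)
      exact Gq.and h1 h2)
    (fun α β V h => goodL_minor hfin lam j α β V h)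
  exact ⟨H, h0, h1, fun V hV n => (h2 V hV n).2⟩

/-- From the algebraic to the rational numbers. -/
theorem exists_ratD {m : ℕ} (f : MvPolynomial (Fin m) Qa) (hf : f ≠ 0) :
    ∃ g : MvPolynomial (Fin m) ℚ, g ≠ 0 ∧ g.totalDegree ≤ f.totalDegree ∧
      ∀ a : Fin m → ℚ, eval a g ≠ 0 → eval (fun s => ((a s : ℚ) : Qa)) f ≠ 0 := by
  classical
  obtain ⟨d, hd⟩ := MvPolynomial.ne_zero_iff.1 hf
  obtain ⟨φ, hφ⟩ : ∃ φ : Module.Dual ℚ Qa, φ (coeff d f) ≠ 0 := by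
    by_contra hcon
    push Not at hcon
    exact hd ((Module.forall_dual_apply_eq_zero_iff ℚ (coeff d f)).1 hcon)
  have hc : ∀ e, coeff e (∑ e ∈ f.support, monomial e (φ (coeff e f))) = φ (coeff e f) := by
    intro e
    rw [coeff_sum, Finset.sum_eq_single e]
    · rw [coeff_monomial, if_pos rfl]
    · intro e' _ he
      rw [coeff_monomial, if_neg he]
    · intro h
      rw [coeff_monomial, if_pos rfl, MvPolynomial.notMem_support_iff.1 h, map_zero]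
  refine ⟨∑ e ∈ f.support, monomial e (φ (coeff e f)), ?_, ?_, fun a ha => ?_⟩
  · rw [MvPolynomial.ne_zero_iff]
    exact ⟨d, by rwa [hc]⟩
  · refine Finset.sup_mono fun e he => ?_
    rw [MvPolynomial.mem_support_iff] at he ⊢
    intro h
    exact he (by rw [hc, h, map_zero])
  · intro h0
    apply ha
    rw [map_sum]
    have h1 : φ (eval (fun s => ((a s : ℚ) : Qa)) f) =
        ∑ e ∈ f.support, eval a (monomial e (φ (coeff e f))) := by
      rw [eval_eq, map_sum]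
      refine Finset.sum_congr rfl fun e _ => ?_
      rw [eval_monomial, Finsupp.prod]
      have h2 : coeff e f * ∏ i ∈ e.support, ((a i : ℚ) : Qa) ^ e i =
          (∏ i ∈ e.support, a i ^ e i) • coeff e f := by
        rw [Algebra.smul_def, mul_comm, map_prod]
        congr 1
        refine Finset.prod_congr rfl fun i _ => ?_
        rw [map_pow]
        rfl
      rw [h2, map_smul, smul_eq_mul, mul_comm]
    rw [← h1, h0, map_zero]

theorem freeL_all {M : Set (ℕ →₀ ℕ)} {x : ℕ → ℂ} (h : ∀ n, FreeL M n x)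
    (P : MvPolynomial ℕ Qa) (hP : ∀ a ∈ P.support, a ∈ M) (hx : aeval x P ∈ Lt) : P = 0 := by
  classical
  obtain ⟨n, hn⟩ : ∃ n : ℕ, ∀ a ∈ P.support, ∀ b ∈ a.support, b < n := by
    refine ⟨(P.support.biUnion fun i => i.support).sup id + 1, fun i hi b hb => ?_⟩
    exact Nat.lt_succ_of_le (Finset.le_sup (f := id) (Finset.mem_biUnion.2 ⟨i, hi, hb⟩))
  exact h n P (fun a ha => ⟨hP a ha, hn a ha⟩) hx

/-- The theorem, rational rows. -/
theorem hmE_rat {lam : ℕ → ℂ} (halg : ∀ i, IsAlgebraic ℚ (Complex.exp (lam i)))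
    (hli : LinearIndependent ℚ lam)
    {M : Set (ℕ →₀ ℕ)} (hM2 : ∀ a ∈ M, 2 ≤ a.degree)
    (hM : ∀ a ∈ M, ∀ c, c ≤ a → 2 ≤ c.degree → c ∈ M)
    (hfin : ∀ n, {a : ℕ →₀ ℕ | a ∈ M ∧ ∀ b ∈ a.support, b < n}.Finite) (j : ℕ → ℕ)
    (hj : ∀ b, 2 * b + 2 ≤ j b) (thr : ℕ → ℕ)
    (hcount : ∀ al be, al ≤ be → (al = 0 ∨ thr al ≤ be) →
      ∀ Q ⊆ Finset.Ico al (be + 1), be ∈ Q → ∃ B ⊆ Q,
        ∑ c ∈ Q, (Finset.Ico al c \ Q).card + NM M (Finset.range al ∪ Q) +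
          B.card * (B.card + 1) + 1 ≤ ∑ b ∈ B, j b) :
    ∃ H : (b : ℕ) → (Fin b → ℕ → ℚ) → MvPolynomial (Fin (j b)) ℚ, (∀ b y, H b y ≠ 0) ∧
      (∀ b y, (H b y).totalDegree ≤ dg M b (max (b + 1) (thr (b + 1)))) ∧
      ∀ x : ℕ → ℕ → ℚ, (∀ b, eval (fun t : Fin (j b) => x b t) (H b fun i => x i) ≠ 0) →
        ∀ P : MvPolynomial ℕ Qa, (∀ a ∈ P.support, a ∈ M) →
          aeval (fun b => ∑ t : Fin (j b), (x b t : ℂ) * lam t) P ∈ Lt → P = 0 := by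
  have hlam := FC.baker lam halg hli
  have hlog : ∀ i, lam i ∈ Lsp := fun i => Submodule.subset_span (halg i)
  obtain ⟨H, hH0, hHd, hH⟩ := hmE hlam hlog hM2 hM hfin j hj thr hcount
  choose g hg0 hgd hg using fun (b : ℕ) (y : Fin b → ℕ → ℚ) =>
    exists_ratD (H b fun p => ((y p.1 p.2 : ℚ) : Qa)) (hH0 b _)
  refine ⟨g, hg0, fun b y => (hgd b y).trans (hHd b _), fun x hx P hP hPL => ?_⟩
  have h1 := hH (fun p => ((x p.1 p.2 : ℚ) : Qa)) fun b => hg b _ _ (hx b)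
  have h2 : val lam j (fun p => ((x p.1 p.2 : ℚ) : Qa)) =
      fun b => ∑ t : Fin (j b), (x b t : ℂ) * lam t := by
    funext b
    unfold val
    rw [Finset.sum_range]
    refine Finset.sum_congr rfl fun t _ => ?_
    rw [Algebra.smul_def]
    congr 1
  rw [h2] at h1
  exact freeL_all h1 P hP hPL

/-- The theorem, rows of natural numbers. -/
theorem hmE_nat {lam : ℕ → ℂ} (halg : ∀ i, IsAlgebraic ℚ (Complex.exp (lam i)))
    (hli : LinearIndependent ℚ lam)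
    {M : Set (ℕ →₀ ℕ)} (hM2 : ∀ a ∈ M, 2 ≤ a.degree)
    (hM : ∀ a ∈ M, ∀ c, c ≤ a → 2 ≤ c.degree → c ∈ M)
    (hfin : ∀ n, {a : ℕ →₀ ℕ | a ∈ M ∧ ∀ b ∈ a.support, b < n}.Finite) (j : ℕ → ℕ)
    (hj : ∀ b, 2 * b + 2 ≤ j b) (thr : ℕ → ℕ)
    (hcount : ∀ al be, al ≤ be → (al = 0 ∨ thr al ≤ be) →
      ∀ Q ⊆ Finset.Ico al (be + 1), be ∈ Q → ∃ B ⊆ Q,
        ∑ c ∈ Q, (Finset.Ico al c \ Q).card + NM M (Finset.range al ∪ Q) +
          B.card * (B.card + 1) + 1 ≤ ∑ b ∈ B, j b) :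
    ∃ x : ℕ → ℕ → ℕ, (∀ b t, x b t ≤ dg M b (max (b + 1) (thr (b + 1)))) ∧
        ∀ P : MvPolynomial ℕ Qa, (∀ a ∈ P.support, a ∈ M) →
          aeval (fun b => ∑ t : Fin (j b), ((x b t : ℕ) : ℂ) * lam t) P ∈ Lt → P = 0 := by
  have hlam := FC.baker lam halg hli
  have hlog : ∀ i, lam i ∈ Lsp := fun i => Submodule.subset_span (halg i)
  obtain ⟨H, hH0, hHd, hH⟩ := hmE hlam hlog hM2 hM hfin j hj thr hcount
  obtain ⟨x, hx0, hx⟩ := exists_nat_seq H hH0 hHd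
  refine ⟨x, hx0, fun P hP hPL => ?_⟩
  have h1 := hH (fun p => ((x p.1 p.2 : ℕ) : Qa)) hx
  have h2 : val lam j (fun p => ((x p.1 p.2 : ℕ) : Qa)) =
      fun b => ∑ t : Fin (j b), ((x b t : ℕ) : ℂ) * lam t := by
    funext b
    unfold val
    rw [Finset.sum_range]
    refine Finset.sum_congr rfl fun t _ => ?_
    rw [Algebra.smul_def]
    congr 1
  rw [h2] at h1
  exact freeL_all h1 P hP hPL

end MP60829e.HD
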