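import Pool.Agent.Lib.MP_60829e_nt.HD.Ech

/-! # The form of a relation with dependent derivatives -/

open MvPolynomial

namespace MP60829e.HD

open MP60829e.ST (Qa Lsp Lt)
open MP60829e.SB

open Classical in
/-- The elements of `M` with support in `W`. -/
noncomputable def SW (M : Set (ℕ →₀ ℕ)) (W : Finset ℕ) : Finset (ℕ →₀ ℕ) :=
  if h : {a : ℕ →₀ ℕ | a ∈ M ∧ a.support ⊆ W}.Finite then h.toFinset else ∅

private theorem fin_SW {M : Set (ℕ →₀ ℕ)}
    (hfin : ∀ n, {a : ℕ →₀ ℕ | a ∈ M ∧ ∀ b ∈ a.support, b < n}.Finite) (W : Finset ℕ) :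
    {a : ℕ →₀ ℕ | a ∈ M ∧ a.support ⊆ W}.Finite := by
  obtain ⟨n, hn⟩ : ∃ n, ∀ b ∈ W, b < n :=
    ⟨W.sup id + 1, fun b hb => Nat.lt_succ_of_le (Finset.le_sup (f := id) hb)⟩
  refine (hfin n).subset ?_
  rintro a ⟨h1, h2⟩
  exact ⟨h1, fun b hb => hn b (h2 hb)⟩

theorem mem_SW {M : Set (ℕ →₀ ℕ)}
    (hfin : ∀ n, {a : ℕ →₀ ℕ | a ∈ M ∧ ∀ b ∈ a.support, b < n}.Finite) (W : Finset ℕ)
    (a : ℕ →₀ ℕ) : a ∈ SW M W ↔ a ∈ M ∧ a.support ⊆ W := by
  unfold SW
  rw [dif_pos (fin_SW hfin W), Set.Finite.mem_toFinset]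
  rfl

theorem card_SW {M : Set (ℕ →₀ ℕ)}
    (hfin : ∀ n, {a : ℕ →₀ ℕ | a ∈ M ∧ ∀ b ∈ a.support, b < n}.Finite) (W : Finset ℕ) :
    (SW M W).card = NM M W := by
  unfold SW NM
  rw [dif_pos (fin_SW hfin W), Set.ncard_eq_toFinset_card _ (fin_SW hfin W)]

/-- If the derivatives of `q` outside `Q` are combinations of the later derivatives in `Q`, then `q`
is a polynomial in the new coordinates. -/
theorem form {M : Set (ℕ →₀ ℕ)}
    (hfin : ∀ n, {a : ℕ →₀ ℕ | a ∈ M ∧ ∀ b ∈ a.support, b < n}.Finite) {n al : ℕ}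
    {q : MvPolynomial ℕ Qa} (hq : SuppIn M n q) {Q : Finset ℕ} (hQ : Q ⊆ Finset.Ico al n)
    (ρ : ℕ → ℕ → Qa) (hρ : ∀ b ∈ Finset.Ico al n, b ∉ Q →
      pderiv b q = ∑ c ∈ Q.filter (b < ·), C (ρ b c) * pderiv c q) {S : Finset (ℕ →₀ ℕ)}
    (z : ZI (PR al Q) S → Qa) (hz : ∀ p, z (Sum.inl p) = ρ p.1.2 p.1.1) (x : Fin n → ℂ) :
    aeval (ext x) q = ∑ a ∈ SW M (Finset.range al ∪ Q),
      ((coeff a q : Qa) : ℂ) * mon a (yy z x) := by
  classical
  obtain ⟨w, hw⟩ : ∃ w : ℕ → ℂ, w = fun i => ∑ p : {p // p ∈ PR al Q},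
      if p.1.1 = i then (z (Sum.inl p) : ℂ) * ext x p.1.2 else 0 := ⟨_, rfl⟩
  have hyy : ∀ i, yy z x i = ext x i + w i := fun i => by rw [hw]; rfl
  obtain ⟨d, hd⟩ : ∃ d : ℕ → ℂ, d = fun i => (if al ≤ i ∧ i ∉ Q then - ext x i else 0) + w i :=
    ⟨_, rfl⟩
  obtain ⟨E, hE⟩ : ∃ E : ℕ → MvPolynomial (Fin n) ℂ, E = fun i => Psi n (pderiv i q) := ⟨_, rfl⟩
  -- the relations between the derivatives
  have hrel : ∀ b ∈ Finset.Ico al n \ Q, E b = ∑ c ∈ Q.filter (b < ·), C ((ρ b c : Qa) : ℂ) * E c := by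
    intro b hb
    rw [Finset.mem_sdiff] at hb
    rw [hE]
    dsimp only
    rw [hρ b hb.1 hb.2, map_sum]
    refine Finset.sum_congr rfl fun c _ => ?_
    rw [map_mul]
    congr 1
    unfold Psi
    rw [algHom_C]
    rfl
  have htan : ∑ i : Fin n, C (d i.1) * pderiv i (Psi n q) = 0 := by
    have h1 : ∀ i : Fin n, C (d i.1) * pderiv i (Psi n q) = C (d i.1) * E i.1 := by
      intro i
      rw [pderiv_Psi, hE]
    rw [Finset.sum_congr rfl fun i _ => h1 i,
      Fin.sum_univ_eq_sum_range (fun i => C (d i) * E i) n]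
    have h2 : ∀ i ∈ Finset.range n, C (d i) * E i =
        (if al ≤ i ∧ i ∉ Q then - (C (ext x i) * E i) else 0) +
        ∑ p : {p // p ∈ PR al Q}, if p.1.1 = i then
          C ((z (Sum.inl p) : ℂ) * ext x p.1.2) * E p.1.1 else 0 := by
      intro i _
      rw [hd]
      dsimp only
      rw [map_add, add_mul]
      congr 1
      · by_cases h : al ≤ i ∧ i ∉ Q
        · rw [if_pos h, if_pos h, map_neg, neg_mul]
        · rw [if_neg h, if_neg h, map_zero, zero_mul]
      · rw [hw]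
        dsimp only
        rw [map_sum, Finset.sum_mul]
        refine Finset.sum_congr rfl fun p _ => ?_
        by_cases h : p.1.1 = i
        · rw [if_pos h, if_pos h, h]
        · rw [if_neg h, if_neg h, map_zero, zero_mul]
    rw [Finset.sum_congr rfl h2, Finset.sum_add_distrib]
    have h3 : ∑ i ∈ Finset.range n, (if al ≤ i ∧ i ∉ Q then - (C (ext x i) * E i) else 0) =
        - ∑ b ∈ Finset.Ico al n \ Q, C (ext x b) * E b := by
      rw [← Finset.sum_neg_distrib, ← Finset.sum_filter]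
      refine Finset.sum_congr ?_ fun _ _ => rfl
      ext i
      simp only [Finset.mem_filter, Finset.mem_range, Finset.mem_sdiff, Finset.mem_Ico]
      tauto
    have h4 : ∑ i ∈ Finset.range n, ∑ p : {p // p ∈ PR al Q}, (if p.1.1 = i then
          C ((z (Sum.inl p) : ℂ) * ext x p.1.2) * E p.1.1 else 0) =
        ∑ p : {p // p ∈ PR al Q}, C ((z (Sum.inl p) : ℂ) * ext x p.1.2) * E p.1.1 := by
      rw [Finset.sum_comm]
      refine Finset.sum_congr rfl fun p _ => ?_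
      rw [Finset.sum_ite_eq, if_pos]
      have h5 := (Finset.mem_sigma.1 p.2).1
      exact Finset.mem_range.2 (Finset.mem_Ico.1 (hQ h5)).2
    have h5 : ∑ p : {p // p ∈ PR al Q}, C ((z (Sum.inl p) : ℂ) * ext x p.1.2) * E p.1.1 =
        ∑ c ∈ Q, ∑ b ∈ Finset.Ico al c \ Q, C ((ρ b c : ℂ) * ext x b) * E c := by
      have h6 : ∀ p : {p // p ∈ PR al Q}, C ((z (Sum.inl p) : ℂ) * ext x p.1.2) * E p.1.1 =
          C ((ρ p.1.2 p.1.1 : ℂ) * ext x p.1.2) * E p.1.1 := fun p => by rw [hz]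
      rw [Finset.sum_congr rfl fun p _ => h6 p,
        Finset.sum_coe_sort (PR al Q) (fun p : (Σ _ : ℕ, ℕ) =>
          C ((ρ p.2 p.1 : ℂ) * ext x p.2) * E p.1)]
      unfold PR
      rw [Finset.sum_sigma]
    have h6 : ∑ b ∈ Finset.Ico al n \ Q, C (ext x b) * E b =
        ∑ c ∈ Q, ∑ b ∈ Finset.Ico al c \ Q, C ((ρ b c : ℂ) * ext x b) * E c := by
      have h7 : ∀ b ∈ Finset.Ico al n \ Q, C (ext x b) * E b =
          ∑ c ∈ Q.filter (b < ·), C ((ρ b c : ℂ) * ext x b) * E c := by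
        intro b hb
        rw [hrel b hb, Finset.mul_sum]
        refine Finset.sum_congr rfl fun c _ => ?_
        rw [map_mul]
        ring
      rw [Finset.sum_congr rfl h7]
      refine Finset.sum_comm' fun b c => ?_
      simp only [Finset.mem_sdiff, Finset.mem_Ico, Finset.mem_filter]
      constructor
      · rintro ⟨⟨⟨h8, h9⟩, h10⟩, h11, h12⟩
        exact ⟨⟨⟨h8, h12⟩, h10⟩, h11⟩
      · rintro ⟨⟨⟨h8, h9⟩, h10⟩, h11⟩
        have h12 := (Finset.mem_Ico.1 (hQ h11)).2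
        exact ⟨⟨⟨h8, by omega⟩, h10⟩, h11, h9⟩
    rw [h3, h4, h5, h6]
    exact neg_add_cancel _
  have h1 := eval_add_of_tangent (Psi n q) x (fun i => d i.1) htan
  rw [eval_Psi, eval_Psi] at h1
  rw [← h1, aeval_mon]
  -- the new point
  have hpt : ∀ i < n, ext (fun i : Fin n => x i + d i.1) i =
      if al ≤ i ∧ i ∉ Q then 0 else yy z x i := by
    intro i hi
    unfold ext
    rw [dif_pos hi]
    by_cases h : al ≤ i ∧ i ∉ Q
    · rw [if_pos h, hd]
      dsimp only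
      rw [if_pos h]
      have h2 : w i = 0 := by
        rw [hw]
        refine Finset.sum_eq_zero fun p _ => ?_
        rw [if_neg]
        intro h3
        exact h.2 (h3 ▸ (Finset.mem_sigma.1 p.2).1)
      rw [h2]
      unfold ext
      rw [dif_pos hi]
      ring
    · rw [if_neg h, hd, hyy]
      dsimp only
      rw [if_neg h]
      unfold ext
      rw [dif_pos hi]
      ring
  have h2 : ∀ a ∈ q.support, ((coeff a q : Qa) : ℂ) *
      mon a (ext fun i : Fin n => x i + d i.1) =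
      if a.support ⊆ Finset.range al ∪ Q then ((coeff a q : Qa) : ℂ) * mon a (yy z x) else 0 := by
    intro a ha
    by_cases h : a.support ⊆ Finset.range al ∪ Q
    · rw [if_pos h]
      congr 1
      refine Finset.prod_congr rfl fun i hi => ?_
      rw [hpt i ((hq a ha).2 i hi), if_neg]
      have h3 := h hi
      rw [Finset.mem_union, Finset.mem_range] at h3
      rintro ⟨h4, h5⟩
      rcases h3 with h3 | h3
      · omega
      · exact h5 h3
    · rw [if_neg h]
      obtain ⟨i, hi, hi'⟩ := Finset.not_subset.1 h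
      rw [Finset.mem_union, Finset.mem_range, not_or] at hi'
      have h3 : mon a (ext fun i : Fin n => x i + d i.1) = 0 := by
        unfold mon
        refine Finset.prod_eq_zero hi ?_
        rw [hpt i ((hq a ha).2 i hi), if_pos ⟨by omega, hi'.2⟩]
        exact zero_pow (Finsupp.mem_support_iff.1 hi)
      rw [h3, mul_zero]
  rw [Finset.sum_congr rfl h2, ← Finset.sum_filter]
  refine Finset.sum_subset ?_ ?_
  · intro a ha
    rw [Finset.mem_filter] at ha
    exact (mem_SW hfin _ a).2 ⟨(hq a ha.1).1, ha.2⟩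
  · intro a ha ha'
    rw [Finset.mem_filter, not_and] at ha'
    have h3 : a ∉ q.support := fun h4 => ha' h4 ((mem_SW hfin _ a).1 ha).2
    rw [notMem_support_iff.1 h3]
    have h4 : (((0 : Qa) : Qa) : ℂ) = 0 := map_zero (algebraMap Qa ℂ)
    rw [h4, zero_mul]

end MP60829e.HD
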