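import Pool.Agent.Lib.MP_60829e_nt.SB.Tan

/-! # The tangent relation for values in the space of the linear forms in logarithms -/

open MvPolynomial Module

namespace MP60829e.HD

open MP60829e.ST (Qa Lsp Lt)
open MP60829e.PS
open MP60829e.SB

/-- The same as `SB.tangent`, with values in `Lt`. -/
theorem tangentL {I ζ ι : Type} [Fintype ζ] [Fintype ι] {r : ℕ} (U : Ultrafilter I)
    (lam : Fin r → ℂ) (G : MvPolynomial (ζ ⊕ ι) ℂ) (z : I → ζ → Qa) (M : I → ι × Fin r → Qa)
    (h : ∀ᶠ a in (U : Filter I), eval (pv (z a) (pt lam (M a))) G ∈ Lt)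
    (D : Derivation Qa (UP U Qa) (UP U Qa)) (hD : ∀ t, D (cls U z t) = 0)
    (T : I → ι × Fin r → Qa) (hT : ∀ p, cls U T p = D (cls U M p)) :
    ∀ᶠ a in (U : Filter I), ∑ i, eval (pv (z a) (pt lam (M a))) (pderiv (Sum.inr i) G) *
      pt lam (T a) i ∈ Lt := by
  classical
  obtain ⟨q, P, hP1, hP2⟩ := FC.forms Lt (sub lam G)
  obtain ⟨c, hc⟩ : ∃ c : I → (ζ ⊕ (ι × Fin r)) → Qa, c = fun a => Sum.elim (z a) (M a) :=
    ⟨_, rfl⟩
  have h1 : ∀ᶠ a in (U : Filter I), ∀ j, eval (c a) (P j) = 0 := by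
    refine h.mono fun a ha j => hP1 _ ?_ j
    rw [hc]
    have h0 := ev_sub lam G (z a) (M a)
    dsimp only
    rw [h0]
    exact ha
  have h2 : ∀ j, ∀ᶠ a in (U : Filter I),
      ∑ p, T a p * eval (c a) (pderiv (Sum.inr p) (P j)) = 0 := by
    intro j
    have hz0 : aeval (fun s => UP.mk U fun a => c a s) (P j) = 0 := by
      rw [FC.up_aeval U c (P j)]
      exact UP.mk_eq_zero.2 (h1.mono fun a ha => ha j)
    have h3 := FC.derivation_aeval D (fun s => UP.mk U fun a => c a s) (P j)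
    rw [hz0, map_zero, Fintype.sum_sum_type] at h3
    have h4 : ∀ t : ζ, D (UP.mk U fun a => c a (Sum.inl t)) = 0 := by
      intro t
      rw [hc]
      exact hD t
    have h5 : ∀ p : ι × Fin r, D (UP.mk U fun a => c a (Sum.inr p)) = UP.mk U fun a => T a p := by
      intro p
      rw [hc]
      exact (hT p).symm
    have h6 : ∀ Q : MvPolynomial (ζ ⊕ (ι × Fin r)) Qa,
        aeval (fun s => UP.mk U fun a => c a s) Q = UP.mk U fun a => eval (c a) Q :=
      fun Q => FC.up_aeval U c Q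
    simp only [h4, h5, h6, zero_mul, Finset.sum_const_zero, zero_add] at h3
    refine UP.mk_eq_zero.1 ?_
    rw [h3]
    have h7 : (fun a => ∑ p, T a p * eval (c a) (pderiv (Sum.inr p) (P j))) =
        ∑ p, (fun a => T a p) * (fun a => eval (c a) (pderiv (Sum.inr p) (P j))) := by
      funext a
      simp only [Finset.sum_apply, Pi.mul_apply]
    rw [h7, map_sum]
    simp only [map_mul]
  have h3 : ∀ᶠ a in (U : Filter I), ∀ j,
      ∑ p, T a p * eval (c a) (pderiv (Sum.inr p) (P j)) = 0 := Filter.eventually_all.2 h2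
  refine h3.mono fun a ha => ?_
  have h4 : TV.dv (c a) (Sum.elim (0 : ζ → Qa) (T a)) (sub lam G) ∈ Lt := by
    refine hP2 _ _ fun j => ?_
    rw [Fintype.sum_sum_type]
    simp only [Sum.elim_inl, Pi.zero_apply, zero_mul, Finset.sum_const_zero, zero_add,
      Sum.elim_inr]
    exact ha j
  rw [hc, dv_sub] at h4
  have h5 : ∑ t : ζ, eval (pv (z a) (pt lam (M a))) (pderiv (Sum.inl t) G) *
      (((0 : ζ → Qa) t : Qa) : ℂ) = 0 := by
    refine Finset.sum_eq_zero fun t _ => ?_
    rw [Pi.zero_apply]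
    exact mul_eq_zero_of_right _ (map_zero (algebraMap Qa ℂ))
  rw [h5, zero_add] at h4
  exact h4

end MP60829e.HD
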