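import Pool.Agent.Lib.MP_60829e_nt.HD.CountM

/-! # The count for the monomials of degree at most two -/

open Finset

namespace MP60829e.HD

/-- The set `Q` has a subset of `x` elements larger than all the others. -/
theorem exists_top (Q : Finset ℕ) : ∀ x ≤ Q.card, ∃ B ⊆ Q, B.card = x ∧
    ∀ b ∈ B, ∀ c ∈ Q \ B, c < b := by
  intro x
  induction x with
  | zero =>
    intro _
    exact ⟨∅, empty_subset _, card_empty, fun b hb => absurd hb (notMem_empty b)⟩
  | succ x ih =>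
    intro hx
    obtain ⟨B, hB, hBc, hBt⟩ := ih (by omega)
    have hne : (Q \ B).Nonempty := by
      rw [← card_pos, card_sdiff_of_subset hB]
      omega
    have hmax := max'_mem (Q \ B) hne
    refine ⟨insert ((Q \ B).max' hne) B, ?_, ?_, ?_⟩
    · exact insert_subset (mem_sdiff.1 hmax).1 hB
    · rw [card_insert_of_notMem (mem_sdiff.1 hmax).2, hBc]
    · intro b hb c hc
      rw [mem_sdiff, mem_insert, not_or] at hc
      have hc' : c ∈ Q \ B := mem_sdiff.2 ⟨hc.1, hc.2.2⟩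
      rcases mem_insert.1 hb with rfl | hb
      · exact lt_of_le_of_ne (le_max' _ _ hc') hc.2.1
      · exact hBt b hb c hc'

theorem card_filter_top {Q B : Finset ℕ} (hB : B ⊆ Q) (ht : ∀ b ∈ B, ∀ c ∈ Q \ B, c < b)
    {b : ℕ} (hb : b ∈ B) :
    (Q.filter (· < b)).card = (Q.card - B.card) + (B.filter (· < b)).card := by
  have h1 : Q.filter (· < b) = (Q \ B) ∪ B.filter (· < b) := by
    ext c
    simp only [mem_filter, mem_union, mem_sdiff]
    constructor
    · rintro ⟨h, h'⟩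
      by_cases hc : c ∈ B
      · exact Or.inr ⟨hc, h'⟩
      · exact Or.inl ⟨h, hc⟩
    · rintro (h | h)
      · exact ⟨h.1, ht b hb c (mem_sdiff.2 h)⟩
      · exact ⟨hB h.1, h.2⟩
  rw [h1, card_union_of_disjoint, card_sdiff_of_subset hB]
  rw [disjoint_left]
  intro c hc hc'
  exact (mem_sdiff.1 hc).2 (mem_filter.1 hc').1

/-- The length of the rows with indices in the top part. -/
theorem sum_top {α : ℕ} {Q B : Finset ℕ} (hQ : ∀ b ∈ Q, α ≤ b) (hB : B ⊆ Q)
    (ht : ∀ b ∈ B, ∀ c ∈ Q \ B, c < b) :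
    ∑ b ∈ B, (2 * b + 4) = 2 * B.card * (α + (Q.card - B.card) + 2) + B.card * (B.card - 1) +
      2 * ∑ b ∈ B, (Ico α b \ Q).card := by
  have h3 : ∀ b ∈ B, 2 * b + 4 = 2 * (α + (Q.card - B.card) + 2) +
      (2 * (B.filter (· < b)).card + 2 * (Ico α b \ Q).card) := by
    intro b hb
    have h1 := pos_eq hQ (hB hb)
    have h2 := card_filter_top hB ht hb
    omega
  rw [sum_congr rfl h3, sum_add_distrib, sum_add_distrib, sum_const, smul_eq_mul,
    ← mul_sum, two_sum_lt, ← mul_sum]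
  ring

/-- The elements outside `Q` are seen mostly from the top of `Q`. -/
theorem sum_le_two {α : ℕ} {Q B : Finset ℕ} (hB : B ⊆ Q)
    (ht : ∀ b ∈ B, ∀ c ∈ Q \ B, c < b) (hc : Q.card ≤ 2 * B.card) :
    ∑ c ∈ Q, (Ico α c \ Q).card ≤ 2 * ∑ b ∈ B, (Ico α b \ Q).card := by
  have h1 : ∑ c ∈ Q \ B, (Ico α c \ Q).card ≤ ∑ b ∈ B, (Ico α b \ Q).card := by
    have h2 : ∀ c ∈ Q \ B, (Ico α c \ Q).card ≤ (Q \ B).sup fun c => (Ico α c \ Q).card :=
      fun c hc => le_sup (f := fun c => (Ico α c \ Q).card) hc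
    have h3 : ∀ b ∈ B, ((Q \ B).sup fun c => (Ico α c \ Q).card) ≤ (Ico α b \ Q).card := by
      intro b hb
      refine Finset.sup_le fun c hc => card_le_card ?_
      exact sdiff_subset_sdiff (Ico_subset_Ico_right (ht b hb c hc).le) subset_rfl
    calc ∑ c ∈ Q \ B, (Ico α c \ Q).card
        ≤ (Q \ B).card • ((Q \ B).sup fun c => (Ico α c \ Q).card) := sum_le_card_nsmul _ _ _ h2
      _ ≤ B.card • ((Q \ B).sup fun c => (Ico α c \ Q).card) := by
          refine Nat.mul_le_mul_right _ ?_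
          rw [card_sdiff_of_subset hB]
          omega
      _ ≤ ∑ b ∈ B, (Ico α b \ Q).card := card_nsmul_le_sum _ _ _ h3
  rw [← sum_sdiff hB]
  omega

/-- The count. -/
theorem countQ' {α β N : ℕ} (h : α = 0 ∨ (α + 1) * (α + 2) ≤ 2 * β) (Q : Finset ℕ)
    (hQ : Q ⊆ Ico α (β + 1)) (hβ : β ∈ Q)
    (hN : 2 * N ≤ (α + Q.card + 1) * (α + Q.card + 2)) :
    ∃ B ⊆ Q, ∑ c ∈ Q, (Ico α c \ Q).card + N + B.card * (B.card - 1) ≤
      ∑ b ∈ B, (2 * b + 4) := by
  classical
  have hQ1 : ∀ b ∈ Q, α ≤ b := fun b hb => (mem_Ico.1 (hQ hb)).1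
  have hcard : 1 ≤ Q.card := card_pos.2 ⟨β, hβ⟩
  by_cases he : Q.card ≤ α + 1
  · -- all of `Q`
    refine ⟨Q, subset_rfl, ?_⟩
    rw [sum_top hQ1 subset_rfl (by simp), Nat.sub_self, add_zero]
    have h5 := pos_eq hQ1 hβ
    have h6 : (Q.filter (· < β)).card ≤ Q.card - 1 := by
      have h61 : Q.filter (· < β) ⊆ Q.erase β := by
        intro c hc
        rw [mem_filter] at hc
        exact mem_erase.2 ⟨hc.2.ne, hc.1⟩
      have := card_le_card h61
      rwa [card_erase_of_mem hβ] at this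
    have h7 : (Ico α β \ Q).card ≤ ∑ c ∈ Q, (Ico α c \ Q).card :=
      single_le_sum (f := fun c => (Ico α c \ Q).card) (fun _ _ => Nat.zero_le _) hβ
    have h8 : N ≤ 2 * Q.card * (α + 2) + ∑ c ∈ Q, (Ico α c \ Q).card := by
      rcases h with rfl | h
      · have h9 : Q.card = 1 := by omega
        rw [h9] at hN ⊢
        omega
      · obtain ⟨e, he'⟩ : ∃ e, e = Q.card := ⟨_, rfl⟩
        obtain ⟨s, hs⟩ : ∃ s, s = ∑ c ∈ Q, (Ico α c \ Q).card := ⟨_, rfl⟩
        rw [← he'] at hN he hcard h6 ⊢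
        rw [← hs] at h7 ⊢
        have h10 : β + 1 ≤ α + e + s := by omega
        have h11 : 2 * N ≤ 2 * (2 * e * (α + 2) + s) := by
          zify at hN h he h10 hcard ⊢
          nlinarith
        omega
    omega
  · -- half of `α + Q`
    have hx : (α + Q.card + 2) / 2 ≤ Q.card := by omega
    obtain ⟨B, hB, hBc, ht⟩ := exists_top Q ((α + Q.card + 2) / 2) hx
    refine ⟨B, hB, ?_⟩
    rw [sum_top hQ1 hB ht]
    have h1 := sum_le_two (α := α) hB ht (by omega)
    have h2 : N ≤ 2 * B.card * (α + (Q.card - B.card) + 2) := by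
      obtain ⟨e, he'⟩ : ∃ e, e = Q.card := ⟨_, rfl⟩
      rw [← he'] at hN he hx hBc ⊢
      obtain ⟨x, hx'⟩ : ∃ x, x = B.card := ⟨_, rfl⟩
      rw [← hx'] at hBc ⊢
      have h3 : 2 * N ≤ 2 * (2 * x * (α + (e - x) + 2)) := by
        have h4 : x ≤ e := by omega
        obtain ⟨y, rfl⟩ := Nat.exists_eq_add_of_le h4
        rw [Nat.add_sub_cancel_left]
        rcases Nat.even_or_odd' (α + (x + y) + 2) with ⟨t, ht | ht⟩
        · have h5 : x = t := by omega
          have h6 : α + y + 2 = x := by omega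
          have h7 : α + (x + y) + 2 = 2 * x := by omega
          have h8 : α + (x + y) + 1 = 2 * x - 1 := by omega
          rw [h7, h8] at hN
          rw [h6]
          have h9 : (2 * x - 1) * (2 * x) ≤ (2 * x) * (2 * x) :=
            Nat.mul_le_mul_right _ (Nat.sub_le _ _)
          nlinarith
        · have h5 : x = t := by omega
          have h6 : α + y + 2 = x + 1 := by omega
          have h7 : α + (x + y) + 2 = 2 * x + 1 := by omega
          have h8 : α + (x + y) + 1 = 2 * x := by omega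
          rw [h7, h8] at hN
          rw [h6]
          nlinarith
      omega
    omega

/-- The number of the monomials of degree at most `2`. -/
theorem card_two (W : Finset ℕ) : 2 * {a : ℕ →₀ ℕ | a ∈ {a : ℕ →₀ ℕ | a.degree ≤ 2} ∧
    a.support ⊆ W}.ncard ≤ (W.card + 1) * (W.card + 2) := by
  classical
  have hsub : {a : ℕ →₀ ℕ | a ∈ {a : ℕ →₀ ℕ | a.degree ≤ 2} ∧ a.support ⊆ W} ⊆
      ((finsuppAntidiag W 0 ∪ (finsuppAntidiag W 1 ∪ finsuppAntidiag W 2) :
        Finset (ℕ →₀ ℕ)) : Set (ℕ →₀ ℕ)) := by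
    rintro a ⟨ha1, ha2⟩
    rw [Set.mem_ofPred_eq] at ha1
    have h1 : W.sum a = a.degree := by
      rw [Finsupp.degree_apply]
      exact (sum_subset ha2 fun b _ hb => Finsupp.notMem_support_iff.1 hb).symm
    rw [mem_coe, mem_union, mem_union, mem_finsuppAntidiag, mem_finsuppAntidiag,
      mem_finsuppAntidiag, h1]
    have h2 : a.degree = 0 ∨ a.degree = 1 ∨ a.degree = 2 := by omega
    rcases h2 with h2 | h2 | h2
    · exact Or.inl ⟨h2, ha2⟩
    · exact Or.inr (Or.inl ⟨h2, ha2⟩)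
    · exact Or.inr (Or.inr ⟨h2, ha2⟩)
  have h1 := Set.ncard_le_ncard hsub (Finset.finite_toSet _)
  rw [Set.ncard_coe_finset] at h1
  have h2 := card_union_le (finsuppAntidiag W 0) (finsuppAntidiag W 1 ∪ finsuppAntidiag W 2)
  have h3 := card_union_le (finsuppAntidiag W 1) (finsuppAntidiag W 2)
  rw [card_finsuppAntidiag_nat_eq_multichoose, card_finsuppAntidiag_nat_eq_multichoose] at h3
  rw [card_finsuppAntidiag_nat_eq_multichoose] at h2
  have h4 : 2 * W.card.multichoose 2 = W.card * (W.card + 1) := by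
    rw [Nat.multichoose_eq, show W.card + 2 - 1 = W.card + 1 by omega, Nat.choose_two_right,
      Nat.mul_div_cancel' (Nat.even_mul_pred_self _).two_dvd, Nat.add_sub_cancel, mul_comm]
  rw [Nat.multichoose_one_right] at h3
  rw [Nat.multichoose_zero_right] at h2
  nlinarith

theorem countQ {α β : ℕ} (h : α = 0 ∨ (α + 1) * (α + 2) ≤ 2 * β) (Q : Finset ℕ)
    (hQ : Q ⊆ Ico α (β + 1)) (hβ : β ∈ Q) :
    ∃ B ⊆ Q, ∑ c ∈ Q, (Ico α c \ Q).card + {a : ℕ →₀ ℕ | a ∈ {a : ℕ →₀ ℕ | a.degree ≤ 2} ∧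
      a.support ⊆ range α ∪ Q}.ncard + B.card * (B.card - 1) ≤ ∑ b ∈ B, (2 * b + 4) := by
  refine countQ' h Q hQ hβ ?_
  have h1 := card_two (range α ∪ Q)
  have h2 : (range α ∪ Q).card = α + Q.card := by
    rw [card_union_of_disjoint, card_range]
    rw [disjoint_left]
    intro c hc hc'
    have h3 := mem_range.1 hc
    have h4 := (mem_Ico.1 (hQ hc')).1
    omega
  rwa [h2] at h1

end MP60829e.HD
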