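import Pool.Agent.Lib.MP_60829e_nt.FS.Hyp

/-! # Relations with monomials in a set closed under division: definitions

The variables are `X_0, X_1, …`; the row `b` of `V` has `j b` entries and gives the number
`val lam j V b = ∑_{l < j b} V (b, l) lam l`. -/

open MvPolynomial Module

namespace MP60829e.HD

open MP60829e.ST (Qa Lsp Lt)

/-- The number `∑_{l < j b} V (b, l) lam l`. -/
noncomputable def val (lam : ℕ → ℂ) (j : ℕ → ℕ) (V : ℕ × ℕ → Qa) (b : ℕ) : ℂ :=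
  ∑ l ∈ Finset.range (j b), V (b, l) • lam l

/-- There is no relation with monomials in `M` between `x 0, …, x (n - 1)`. -/
def Free (M : Set (ℕ →₀ ℕ)) (n : ℕ) (x : ℕ → ℂ) : Prop :=
  ∀ P : MvPolynomial ℕ Qa, (∀ a ∈ P.support, a ∈ M ∧ ∀ b ∈ a.support, b < n) →
    aeval x P = 0 → P = 0

/-- Off a hypersurface in the variables of the rows `al, …, be - 1`, the numbers
`val lam j V b`, `b < be`, are free, if the rows `< al` of `V` are those of `V0`. -/
def GenFree (M : Set (ℕ →₀ ℕ)) (lam : ℕ → ℂ) (j : ℕ → ℕ) (V0 : ℕ × ℕ → Qa) (al be : ℕ) : Prop :=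
  ∃ H : MvPolynomial (ℕ × ℕ) Qa, H ≠ 0 ∧ (∀ p ∈ H.vars, al ≤ p.1 ∧ p.1 < be ∧ p.2 < j p.1) ∧
    ∀ V : ℕ × ℕ → Qa, (∀ p, p.1 < al → V p = V0 p) → eval V H ≠ 0 → Free M be (val lam j V)

/-- The number of elements of `M` with support in `W`. -/
noncomputable def NM (M : Set (ℕ →₀ ℕ)) (W : Finset ℕ) : ℕ :=
  {a : ℕ →₀ ℕ | a ∈ M ∧ a.support ⊆ W}.ncard

end MP60829e.HD
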