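import Pool.Agent.Lib.MP_60829e_nt.HD.Defs

/-! # Values in the linear forms in logarithms: definitions -/

open MvPolynomial Module

namespace MP60829e.HD

open MP60829e.ST (Qa Lsp Lt)

/-- No polynomial with monomials in `M` takes a value in the space of the linear forms in
logarithms at `x 0, …, x (n - 1)`. -/
def FreeL (M : Set (ℕ →₀ ℕ)) (n : ℕ) (x : ℕ → ℂ) : Prop :=
  ∀ P : MvPolynomial ℕ Qa, (∀ a ∈ P.support, a ∈ M ∧ ∀ b ∈ a.support, b < n) →
    aeval x P ∈ Lt → P = 0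

/-- Off a hypersurface in the variables of the rows `al, …, be - 1`, the numbers
`val lam j V b`, `b < be`, satisfy `FreeL`, if the rows `< al` of `V` are those of `V0`. -/
def GenFreeL (M : Set (ℕ →₀ ℕ)) (lam : ℕ → ℂ) (j : ℕ → ℕ) (V0 : ℕ × ℕ → Qa) (al be : ℕ) :
    Prop :=
  ∃ H : MvPolynomial (ℕ × ℕ) Qa, H ≠ 0 ∧ (∀ p ∈ H.vars, al ≤ p.1 ∧ p.1 < be ∧ p.2 < j p.1) ∧
    ∀ V : ℕ × ℕ → Qa, (∀ p, p.1 < al → V p = V0 p) → eval V H ≠ 0 → FreeL M be (val lam j V)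

end MP60829e.HD
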