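import Pool.Agent.Lib.MP_60829e_nt.HD.Tan
import Pool.Agent.Lib.MP_60829e_nt.FC.Dim

/-! # The family of the polynomials which depend only on some linear forms -/

open MvPolynomial Module

namespace MP60829e.HD

open MP60829e.ST (Qa Lsp Lt)
open MP60829e.FD

theorem aeval_eq {n : ℕ} (g : MvPolynomial (Fin n) Qa) (x : Fin n → ℂ) :
    aeval x g = eval x (map (algebraMap Qa ℂ) g) := by
  rw [eval_map]
  rfl

private theorem totalDegree_map_le' {n : ℕ} (f : MvPolynomial (Fin n) Qa) :
    (map (algebraMap Qa ℂ) f).totalDegree ≤ f.totalDegree :=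
  Finset.sup_mono (support_map_subset (algebraMap Qa ℂ) f)

theorem eq_zero_of_aeval {n : ℕ} (q : MvPolynomial (Fin n) Qa)
    (h : ∀ x : Fin n → ℂ, aeval x q = 0) : q = 0 := by
  have h1 : map (algebraMap Qa ℂ) q = 0 := by
    apply MvPolynomial.funext
    intro x
    rw [← aeval_eq, h, map_zero]
  exact map_injective _ (algebraMap Qa ℂ).injective (by rw [h1, map_zero])

/-- Generators of the space of the polynomials of degree at most `D`. -/
theorem gens (n D : ℕ) : ∃ g : Fin ((n + D).choose n) → MvPolynomial (Fin n) ℂ,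
    ∀ R : MvPolynomial (Fin n) Qa, R.totalDegree ≤ D → ∃ y : Fin ((n + D).choose n) → Qa,
      ∀ x : Fin n → ℂ, aeval x R = ∑ q, (y q : ℂ) * eval x (g q) := by
  classical
  obtain ⟨A, hA⟩ : ∃ A : Submodule Qa ℂ, A = Submodule.span Qa {(1 : ℂ)} := ⟨_, rfl⟩
  have hfin : FiniteDimensional Qa A := by
    rw [hA]
    exact FiniteDimensional.span_of_finite Qa (Set.finite_singleton _)
  have hA1 : finrank Qa A ≤ 1 := by
    rw [hA]
    exact (finrank_span_singleton one_ne_zero).le
  have hmemA : ∀ c : Qa, (c : ℂ) ∈ A := by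
    intro c
    rw [hA, Submodule.mem_span_singleton]
    exact ⟨c, by rw [Algebra.smul_def, mul_one]; rfl⟩
  have hex := FC.exists_gens A hA1 n D
  rw [one_mul] at hex
  obtain ⟨g, -, hgen⟩ := hex
  refine ⟨g, fun R hR => ?_⟩
  obtain ⟨y, hy⟩ := hgen (map (algebraMap Qa ℂ) R) (by
    rw [FC.mem_PD]
    refine ⟨(totalDegree_map_le' R).trans hR, fun a => ?_⟩
    rw [coeff_map]
    exact hmemA _)
  refine ⟨y, fun x => ?_⟩
  rw [aeval_eq, hy, map_sum]
  refine Finset.sum_congr rfl fun q _ => ?_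
  have h2 : y q • g q = ((y q : Qa) : ℂ) • g q := rfl
  rw [h2, smul_eval]

theorem totalDegree_aeval_le' {ι κ : Type} (v : ι → MvPolynomial κ Qa)
    (hv : ∀ i, (v i).totalDegree ≤ 1) (F : MvPolynomial ι Qa) :
    (aeval v F).totalDegree ≤ F.totalDegree := by
  classical
  conv_lhs => rw [F.as_sum, map_sum]
  refine (totalDegree_finsetSum _ _).trans (Finset.sup_le fun m hm => ?_)
  rw [aeval_monomial]
  refine (totalDegree_mul _ _).trans ?_
  rw [MvPolynomial.algebraMap_eq, totalDegree_C, zero_add, Finsupp.prod]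
  refine (totalDegree_finsetProd _ _).trans ?_
  refine le_trans (Finset.sum_le_sum fun i _ => ?_) (le_totalDegree hm)
  refine (totalDegree_pow _ _).trans ?_
  calc m i * (v i).totalDegree ≤ m i * 1 := Nat.mul_le_mul_left _ (hv i)
    _ = m i := mul_one _

/-- The point with the coordinates in `S` removed by means of `ρ`. -/
noncomputable def hat {n : ℕ} (S : Finset (Fin n)) (ρ : Fin n → Fin n → Qa) (x : Fin n → ℂ) :
    Fin n → ℂ := fun i => if i ∈ S then 0 else x i + ∑ b ∈ S, (ρ b i : ℂ) * x b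

/-- The number of the coordinates outside `S`. -/
noncomputable def cn {n : ℕ} (S : Finset (Fin n)) : ℕ := Fintype.card {i : Fin n // i ∉ S}

theorem cn_eq {n : ℕ} (S : Finset (Fin n)) : cn S = n - S.card := by
  classical
  unfold cn
  rw [Fintype.card_subtype_compl, Fintype.card_fin, Fintype.card_coe]

/-- The substituted linear forms. -/
noncomputable def Xh {n N1 p : ℕ} (S : Finset (Fin n)) (ε : Fin p → Fin n × Fin n)
    (i : Fin n) : MvPolynomial (Fin (N1 + p) ⊕ Fin n) ℂ :=
  X (Sum.inr i) + ∑ l : Fin p, if (ε l).2 = i ∧ (ε l).1 ∈ S then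
    X (Sum.inl (Fin.natAdd N1 l)) * X (Sum.inr (ε l).1) else 0

theorem eval_Xh {n N1 p : ℕ} (S : Finset (Fin n)) (ε : Fin p → Fin n × Fin n) (i : Fin n)
    (w : Fin (N1 + p) ⊕ Fin n → ℂ) : eval w (Xh S ε i) = w (Sum.inr i) +
      ∑ l : Fin p, if (ε l).2 = i ∧ (ε l).1 ∈ S then
        w (Sum.inl (Fin.natAdd N1 l)) * w (Sum.inr (ε l).1) else 0 := by
  unfold Xh
  rw [map_add, eval_X, map_sum]
  congr 1
  refine Finset.sum_congr rfl fun l _ => ?_
  split_ifs
  · rw [map_mul, eval_X, eval_X]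
  · rw [map_zero]

/-- The family. -/
noncomputable def GG {n m N1 p : ℕ} (S : Finset (Fin n)) (ε : Fin p → Fin n × Fin n)
    (e : Fin m → Fin n) (g : Fin N1 → MvPolynomial (Fin m) ℂ) :
    MvPolynomial (Fin (N1 + p) ⊕ Fin n) ℂ :=
  ∑ q, X (Sum.inl (Fin.castAdd p q)) * aeval (fun t => Xh S ε (e t)) (g q)

theorem eval_comp {σ τ : Type} (f : σ → MvPolynomial τ ℂ) (Q : MvPolynomial σ ℂ) (w : τ → ℂ) :
    eval w (aeval f Q) = eval (fun t => eval w (f t)) Q := by
  induction Q using MvPolynomial.induction_on with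
  | C a => rw [algHom_C, eval_C, MvPolynomial.algebraMap_eq, eval_C]
  | add p q hp hq => rw [map_add, map_add, map_add, hp, hq]
  | mul_X p i hp => rw [map_mul, map_mul, map_mul, hp, aeval_X, eval_X]

theorem eval_GG {n m N1 p : ℕ} (S : Finset (Fin n)) (ε : Fin p → Fin n × Fin n)
    (e : Fin m → Fin n) (g : Fin N1 → MvPolynomial (Fin m) ℂ)
    (w : Fin (N1 + p) ⊕ Fin n → ℂ) :
    eval w (GG S ε e g) = ∑ q, w (Sum.inl (Fin.castAdd p q)) *
      eval (fun t => eval w (Xh S ε (e t))) (g q) := by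
  unfold GG
  rw [map_sum]
  refine Finset.sum_congr rfl fun q _ => ?_
  rw [map_mul, eval_X, eval_comp]

theorem aeval_comp {σ τ : Type} (f : σ → MvPolynomial τ Qa) (Q : MvPolynomial σ Qa)
    (w : τ → ℂ) : aeval w (aeval f Q) = aeval (fun t => aeval w (f t)) Q := by
  induction Q using MvPolynomial.induction_on with
  | C a => rw [algHom_C, algHom_C, MvPolynomial.algebraMap_eq, algHom_C]
  | add p q hp hq => rw [map_add, map_add, map_add, hp, hq]
  | mul_X p i hp => rw [map_mul, map_mul, map_mul, hp, aeval_X, aeval_X]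

/-- Euler's relation. -/
theorem euler {n m N1 p : ℕ} (S : Finset (Fin n)) (ε : Fin p → Fin n × Fin n)
    (e : Fin m → Fin n) (g : Fin N1 → MvPolynomial (Fin m) ℂ) (y : Fin N1 → Qa)
    (s : Fin p → Qa) (x : Fin n → ℂ) (hy0 : y ≠ 0)
    (h0 : eval (Sum.elim (fun l => ((Fin.append y s l : Qa) : ℂ)) x) (GG S ε e g) = 0) :
    finrank Qa (Submodule.span Qa (Set.range fun l => eval
      (Sum.elim (fun l => ((Fin.append y s l : Qa) : ℂ)) x) (pderiv (Sum.inl l) (GG S ε e g)))) + 1 ≤
        N1 + p := by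
  classical
  set z : Fin (N1 + p) → Qa := Fin.append y s with hz
  have hz1 : ∀ q, z (Fin.castAdd p q) = y q := fun q => Fin.append_left _ _ _
  set v : Fin (N1 + p) → Qa := Fin.append y 0 with hv
  have hv1 : ∀ q, v (Fin.castAdd p q) = y q := fun q => Fin.append_left _ _ _
  have hv2 : ∀ l, v (Fin.natAdd N1 l) = 0 := fun l => Fin.append_right _ _ _
  have heul := dir_deriv (GG S ε e g) (Sum.elim (fun l => (z l : ℂ)) x)
    (Sum.elim (fun l => (v l : ℂ)) 0) 0 (by
      intro t
      have h1 : ∀ t', eval (fun s => (Sum.elim (fun l => (z l : ℂ)) x :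
          Fin (N1 + p) ⊕ Fin n → ℂ) s + t * (Sum.elim (fun l => (v l : ℂ)) 0 :
          Fin (N1 + p) ⊕ Fin n → ℂ) s) (Xh S ε (e t')) =
          eval (Sum.elim (fun l => (z l : ℂ)) x) (Xh S ε (e t')) := by
        intro t'
        rw [eval_Xh, eval_Xh]
        simp only [Sum.elim_inl, Sum.elim_inr, hv2, ZeroMemClass.coe_zero, mul_zero, add_zero,
          Pi.zero_apply]
      rw [eval_GG, Polynomial.eval_zero]
      simp only [h1]
      rw [eval_GG] at h0
      have h2 : ∀ q, (fun s => (Sum.elim (fun l => (z l : ℂ)) x :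
          Fin (N1 + p) ⊕ Fin n → ℂ) s + t * (Sum.elim (fun l => (v l : ℂ)) 0 :
          Fin (N1 + p) ⊕ Fin n → ℂ) s) (Sum.inl (Fin.castAdd p q)) =
          (1 + t) * (Sum.elim (fun l => (z l : ℂ)) x :
          Fin (N1 + p) ⊕ Fin n → ℂ) (Sum.inl (Fin.castAdd p q)) := by
        intro q
        dsimp only
        rw [Sum.elim_inl, Sum.elim_inl, hz1, hv1]
        ring
      calc _ = (1 + t) * ∑ q, (Sum.elim (fun l => (z l : ℂ)) x :
            Fin (N1 + p) ⊕ Fin n → ℂ) (Sum.inl (Fin.castAdd p q)) *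
              eval (fun t' => eval (Sum.elim (fun l => (z l : ℂ)) x) (Xh S ε (e t'))) (g q) := by
            rw [Finset.mul_sum]
            refine Finset.sum_congr rfl fun q _ => ?_
            rw [← mul_assoc]
            congr 1
            exact h2 q
        _ = 0 := by rw [h0, mul_zero])
  rw [Polynomial.derivative_zero, Polynomial.eval_zero, Fintype.sum_sum_type] at heul
  simp only [Sum.elim_inl, Sum.elim_inr, Pi.zero_apply, zero_mul, Finset.sum_const_zero,
    add_zero] at heul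
  set P : Fin (N1 + p) → ℂ := fun l =>
    eval (Sum.elim (fun l => (z l : ℂ)) x) (pderiv (Sum.inl l) (GG S ε e g)) with hP
  have hnli : ¬ LinearIndependent Qa P := by
    intro hli
    apply hy0
    funext q
    have h1 := Fintype.linearIndependent_iff.1 hli v heul (Fin.castAdd p q)
    rw [hv1] at h1
    exact h1
  have h1 : finrank Qa (Submodule.span Qa (Set.range P)) ≤ N1 + p := by
    have := finrank_range_le_card (R := Qa) P
    rwa [Fintype.card_fin] at this
  rcases h1.lt_or_eq with h2 | h2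
  · exact h2
  · exfalso
    apply hnli
    rw [linearIndependent_iff_card_eq_finrank_span, Fintype.card_fin]
    exact h2.symm

/-- The values of the family. -/
theorem val_GG {n N1 p : ℕ} (S : Finset (Fin n)) (ε : Fin p → Fin n × Fin n)
    (hεi : Function.Injective ε) (e : {i : Fin n // i ∉ S} ≃ Fin (cn S))
    (g : Fin N1 → MvPolynomial (Fin (cn S)) ℂ) (q : MvPolynomial (Fin n) Qa)
    (ρ : Fin n → Fin n → Qa) (hρ : ∀ b i, b ∈ S → ρ b i ≠ 0 → ∃ l, ε l = (b, i))
    (hinv : ∀ x : Fin n → ℂ, aeval x q = aeval (hat S ρ x) q)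
    (y : Fin N1 → Qa) (hy : ∀ x : Fin (cn S) → ℂ,
      aeval x (aeval (fun i => if h : i ∉ S then (X (e ⟨i, h⟩) : MvPolynomial (Fin (cn S)) Qa)
        else 0) q) = ∑ q, (y q : ℂ) * eval x (g q)) (x : Fin n → ℂ) :
    eval (Sum.elim (fun l => ((Fin.append y (fun l => ρ (ε l).1 (ε l).2) l : Qa) : ℂ)) x)
      (GG S ε (fun t => (e.symm t : Fin n)) g) = aeval x q := by
  classical
  set z : Fin (N1 + p) → Qa := Fin.append y fun l => ρ (ε l).1 (ε l).2 with hz
  have hz1 : ∀ q, z (Fin.castAdd p q) = y q := fun q => Fin.append_left _ _ _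
  have hz2 : ∀ l, z (Fin.natAdd N1 l) = ρ (ε l).1 (ε l).2 := fun l => Fin.append_right _ _ _
  have hXz : (fun t => eval (Sum.elim (fun l => (z l : ℂ)) x) (Xh S ε (e.symm t : Fin n))) =
      fun t => hat S ρ x (e.symm t) := by
    funext t
    rw [eval_Xh]
    unfold hat
    rw [if_neg (e.symm t).2, Sum.elim_inr]
    congr 1
    have h1 : ∀ l : Fin p, (if (ε l).2 = (e.symm t : Fin n) ∧ (ε l).1 ∈ S then
        (Sum.elim (fun l => (z l : ℂ)) x : Fin (N1 + p) ⊕ Fin n → ℂ)
          (Sum.inl (Fin.natAdd N1 l)) *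
          (Sum.elim (fun l => (z l : ℂ)) x : Fin (N1 + p) ⊕ Fin n → ℂ)
            (Sum.inr (ε l).1) else 0) =
        (fun b : Fin n × Fin n => if b.2 = (e.symm t : Fin n) ∧ b.1 ∈ S then
          (ρ b.1 b.2 : ℂ) * x b.1 else 0) (ε l) := by
      intro l
      dsimp only
      rw [Sum.elim_inl, Sum.elim_inr, hz2]
    rw [Finset.sum_congr rfl fun l _ => h1 l]
    have h2 : ∑ l, (fun b : Fin n × Fin n => if b.2 = (e.symm t : Fin n) ∧ b.1 ∈ S then
          (ρ b.1 b.2 : ℂ) * x b.1 else 0) (ε l) =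
        ∑ b : Fin n × Fin n, (if b.2 = (e.symm t : Fin n) ∧ b.1 ∈ S then
          (ρ b.1 b.2 : ℂ) * x b.1 else 0) := by
      rw [← Finset.sum_subset (Finset.subset_univ (Finset.univ.map ⟨ε, hεi⟩))]
      · rw [Finset.sum_map]
        rfl
      · intro b _ hb
        split_ifs with hb2
        · by_contra hne
          have h3 : ρ b.1 b.2 ≠ 0 := by
            intro h0
            rw [h0, ZeroMemClass.coe_zero, zero_mul] at hne
            exact hne rfl
          obtain ⟨l, hl⟩ := hρ b.1 b.2 hb2.2 h3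
          exact hb (Finset.mem_map.2 ⟨l, Finset.mem_univ _, hl⟩)
        · rfl
    rw [h2, Fintype.sum_prod_type, ← Finset.sum_subset (Finset.subset_univ S)]
    · refine Finset.sum_congr rfl fun b hb => ?_
      rw [Finset.sum_eq_single (e.symm t : Fin n)]
      · rw [if_pos ⟨rfl, hb⟩]
      · intro i _ hi
        rw [if_neg fun h => hi h.1]
      · intro h
        exact absurd (Finset.mem_univ _) h
    · intro b _ hb
      refine Finset.sum_eq_zero fun i _ => ?_
      rw [if_neg fun h => hb h.2]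
  rw [eval_GG, hXz, hinv x]
  have h3 : (fun i => aeval (fun t => hat S ρ x (e.symm t))
      (if h : i ∉ S then (X (e ⟨i, h⟩) : MvPolynomial (Fin (cn S)) Qa) else 0)) =
        hat S ρ x := by
    funext i
    by_cases hi : i ∈ S
    · rw [dif_neg (not_not.2 hi), map_zero]
      unfold hat
      rw [if_pos hi]
    · rw [dif_pos hi, aeval_X, Equiv.symm_apply_apply]
  have h4 := hy fun t => hat S ρ x (e.symm t)
  rw [aeval_comp, h3] at h4
  rw [h4]
  refine Finset.sum_congr rfl fun t _ => ?_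
  rw [Sum.elim_inl, hz1]

/-- The family. -/
theorem exists_family {n : ℕ} (S : Finset (Fin n)) (Pr : Finset (Fin n × Fin n)) (D : ℕ) :
    ∃ G : MvPolynomial (Fin ((cn S + D).choose (cn S) + Pr.card) ⊕ Fin n) ℂ,
      ∀ (q : MvPolynomial (Fin n) Qa) (ρ : Fin n → Fin n → Qa), q.totalDegree ≤ D → q ≠ 0 →
        (∀ b i, b ∈ S → ρ b i ≠ 0 → (b, i) ∈ Pr) →
        (∀ x : Fin n → ℂ, aeval x q = aeval (hat S ρ x) q) →
        ∃ z : Fin ((cn S + D).choose (cn S) + Pr.card) → Qa,
          (∀ x : Fin n → ℂ, eval (Sum.elim (fun l => (z l : ℂ)) x) G = aeval x q) ∧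
          ∀ x : Fin n → ℂ, aeval x q = 0 →
            finrank Qa (Submodule.span Qa (Set.range fun l =>
              eval (Sum.elim (fun l => (z l : ℂ)) x) (pderiv (Sum.inl l) G))) + 1 ≤
                (cn S + D).choose (cn S) + Pr.card := by
  classical
  obtain ⟨g, hg⟩ := gens (cn S) D
  let e : {i : Fin n // i ∉ S} ≃ Fin (cn S) := Fintype.equivFin _
  let ε : Fin Pr.card → Fin n × Fin n := fun l => ((Finset.equivFin Pr).symm l).1
  have hεi : Function.Injective ε := fun l l' h =>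
    (Finset.equivFin Pr).symm.injective (Subtype.ext h)
  refine ⟨GG S ε (fun t => (e.symm t : Fin n)) g, fun q ρ hqD hq0 hρ hinv => ?_⟩
  obtain ⟨y, hy⟩ := hg (aeval (fun i => if h : i ∉ S then
      (X (e ⟨i, h⟩) : MvPolynomial (Fin (cn S)) Qa) else 0) q) (by
    refine (totalDegree_aeval_le' _ (fun i => ?_) q).trans hqD
    by_cases h : i ∉ S
    · rw [dif_pos h]
      exact (totalDegree_X (e ⟨i, h⟩)).le
    · rw [dif_neg h, totalDegree_zero]
      exact Nat.zero_le 1)
  have hval := val_GG S ε hεi e g q ρ (fun b i hb hne => by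
    have h1 := hρ b i hb hne
    refine ⟨Finset.equivFin Pr ⟨(b, i), h1⟩, ?_⟩
    change ((Finset.equivFin Pr).symm (Finset.equivFin Pr ⟨(b, i), h1⟩)).1 = (b, i)
    rw [Equiv.symm_apply_apply]) hinv y hy
  refine ⟨Fin.append y fun l => ρ (ε l).1 (ε l).2, hval, fun x hx => ?_⟩
  refine euler S ε _ g y _ x ?_ (by rw [hval, hx])
  rintro rfl
  apply hq0
  apply eq_zero_of_aeval
  intro x
  rw [← hval, eval_GG]
  refine Finset.sum_eq_zero fun t _ => ?_
  rw [Sum.elim_inl, Fin.append_left, Pi.zero_apply, ZeroMemClass.coe_zero, zero_mul]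

end MP60829e.HD
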