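import Pool.Agent.Lib.MP_60829e_nt.HD.StructL
import Pool.Agent.Lib.MP_60829e_nt.TV.Star
import Pool.Agent.Lib.MP_60829e_nt.TV.Sub

/-! # The hypersurfaces as minors: bounds for the degrees -/

open MvPolynomial

namespace MP60829e.HD

open MP60829e.ST (Qa Lsp Lt)

section Adm

variable {R : Type} [CommRing R] {W : ℕ × ℕ → Prop} {b : ℕ}

/-- The degree of a monomial in the entries of the row `b`. -/
noncomputable def rd (b : ℕ) (m : (ℕ × ℕ) →₀ ℕ) : ℕ := m.sum fun p e => if p.1 = b then e else 0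

theorem rd_add (b : ℕ) (m m' : (ℕ × ℕ) →₀ ℕ) : rd b (m + m') = rd b m + rd b m' := by
  unfold rd
  refine Finsupp.sum_add_index' (fun p => ?_) fun p e e' => ?_
  · exact ite_self _
  · split_ifs <;> rfl

/-- The variables lie in `W`, and the degree in the row `b` is at most `d`. -/
def Adm (W : ℕ × ℕ → Prop) (b d : ℕ) (f : MvPolynomial (ℕ × ℕ) R) : Prop :=
  ∀ m ∈ f.support, (∀ p ∈ m.support, W p) ∧ rd b m ≤ d

theorem Adm.mono {d d' : ℕ} {f : MvPolynomial (ℕ × ℕ) R} (h : Adm W b d f) (hd : d ≤ d') :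
    Adm W b d' f := fun m hm => ⟨(h m hm).1, (h m hm).2.trans hd⟩

theorem Adm.C (W : ℕ × ℕ → Prop) (b : ℕ) (c : R) : Adm W b 0 (C c : MvPolynomial (ℕ × ℕ) R) := by
  classical
  intro m hm
  rw [mem_support_iff, coeff_C] at hm
  have h1 : m = 0 := by
    by_contra h
    rw [if_neg (Ne.symm h)] at hm
    exact hm rfl
  subst h1
  refine ⟨fun p hp => ?_, ?_⟩
  · rw [Finsupp.support_zero] at hp
    exact absurd hp (Finset.notMem_empty p)
  · unfold rd
    rw [Finsupp.sum_zero_index]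

theorem Adm.X {p : ℕ × ℕ} (hp : W p) : Adm W b (if p.1 = b then 1 else 0)
    (X p : MvPolynomial (ℕ × ℕ) R) := by
  classical
  intro m hm
  rw [mem_support_iff, coeff_X] at hm
  have h1 : Finsupp.single p 1 = m := by
    by_contra h
    rw [if_neg h] at hm
    exact hm rfl
  subst h1
  refine ⟨fun q hq => ?_, ?_⟩
  · rw [Finsupp.support_single _ one_ne_zero, Finset.mem_singleton] at hq
    rw [hq]
    exact hp
  · unfold rd
    have h2 : (Finsupp.single p 1).sum (fun p e => if p.1 = b then e else 0) =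
        if p.1 = b then 1 else 0 := Finsupp.sum_single_index (ite_self _)
    exact h2.le

theorem Adm.mul {d d' : ℕ} {f g : MvPolynomial (ℕ × ℕ) R} (hf : Adm W b d f)
    (hg : Adm W b d' g) : Adm W b (d + d') (f * g) := by
  classical
  intro m hm
  obtain ⟨m1, h1, m2, h2, rfl⟩ := Finset.mem_add.1 (support_mul f g hm)
  refine ⟨fun p hp => ?_, ?_⟩
  · rcases Finset.mem_union.1 (Finsupp.support_add hp) with h3 | h3
    · exact (hf _ h1).1 p h3
    · exact (hg _ h2).1 p h3
  · rw [rd_add]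
    exact add_le_add (hf _ h1).2 (hg _ h2).2

theorem Adm.add {d : ℕ} {f g : MvPolynomial (ℕ × ℕ) R} (hf : Adm W b d f)
    (hg : Adm W b d g) : Adm W b d (f + g) := by
  classical
  intro m hm
  rcases Finset.mem_union.1 (support_add hm) with h | h
  · exact hf m h
  · exact hg m h

theorem Adm.neg {d : ℕ} {f : MvPolynomial (ℕ × ℕ) R} (hf : Adm W b d f) :
    Adm W b d (-f) := by
  intro m hm
  rw [support_neg] at hm
  exact hf m hm

theorem Adm.zero (d : ℕ) : Adm W b d (0 : MvPolynomial (ℕ × ℕ) R) := by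
  intro m hm
  rw [support_zero] at hm
  exact absurd hm (Finset.notMem_empty m)

theorem Adm.sum {ι : Type} {s : Finset ι} {d : ℕ} {f : ι → MvPolynomial (ℕ × ℕ) R}
    (h : ∀ i ∈ s, Adm W b d (f i)) : Adm W b d (∑ i ∈ s, f i) := by
  classical
  induction s using Finset.induction_on with
  | empty =>
    rw [Finset.sum_empty]
    exact Adm.zero d
  | insert i s hi ih =>
    rw [Finset.sum_insert hi]
    exact (h i (Finset.mem_insert_self _ _)).add
      (ih fun i' hi' => h i' (Finset.mem_insert_of_mem hi'))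

theorem Adm.prod {ι : Type} {s : Finset ι} {d : ι → ℕ} {f : ι → MvPolynomial (ℕ × ℕ) R}
    (h : ∀ i ∈ s, Adm W b (d i) (f i)) : Adm W b (∑ i ∈ s, d i) (∏ i ∈ s, f i) := by
  classical
  induction s using Finset.induction_on with
  | empty =>
    rw [Finset.sum_empty, Finset.prod_empty, ← C_1]
    exact Adm.C W b 1
  | insert i s hi ih =>
    rw [Finset.sum_insert hi, Finset.prod_insert hi]
    exact (h i (Finset.mem_insert_self _ _)).mul
      (ih fun i' hi' => h i' (Finset.mem_insert_of_mem hi'))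

theorem Adm.pow {d : ℕ} {f : MvPolynomial (ℕ × ℕ) R} (hf : Adm W b d f) (n : ℕ) :
    Adm W b (n * d) (f ^ n) := by
  induction n with
  | zero =>
    rw [zero_mul, pow_zero, ← C_1]
    exact Adm.C W b 1
  | succ n ih =>
    rw [pow_succ, Nat.succ_mul]
    exact ih.mul hf

theorem Adm.det {n : Type} [Fintype n] [DecidableEq n] {d : n → ℕ}
    {F : Matrix n n (MvPolynomial (ℕ × ℕ) R)} (h : ∀ i i', Adm W b (d i') (F i i')) :
    Adm W b (∑ i, d i) F.det := by
  classical
  rw [Matrix.det_apply]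
  refine Adm.sum fun σ _ => ?_
  have h1 : Adm W b (∑ i, d i) (∏ i, F (σ i) i) := Adm.prod fun i _ => h _ _
  rcases Int.units_eq_one_or (Equiv.Perm.sign σ) with h2 | h2
  · rw [h2, one_smul]
    exact h1
  · rw [h2, Units.neg_smul, one_smul]
    exact h1.neg

end Adm

open TV (ev star)

/-- The linear form of the row `i`; the rows `< al` are those of `V0`. -/
noncomputable def lp (lam : ℕ → ℂ) (j : ℕ → ℕ) (V0 : ℕ × ℕ → Qa) (al i : ℕ) :
    MvPolynomial (ℕ × ℕ) ℂ :=
  ∑ l ∈ Finset.range (j i), C (lam l) * (if i < al then C ((V0 (i, l) : Qa) : ℂ) else X (i, l))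

private theorem ev_sum' {ι : Type} (s : Finset ι) (V : ℕ × ℕ → Qa)
    (f : ι → MvPolynomial (ℕ × ℕ) ℂ) : ev V (∑ i ∈ s, f i) = ∑ i ∈ s, ev V (f i) := map_sum _ _ _

private theorem ev_prod' {ι : Type} (s : Finset ι) (V : ℕ × ℕ → Qa)
    (f : ι → MvPolynomial (ℕ × ℕ) ℂ) : ev V (∏ i ∈ s, f i) = ∏ i ∈ s, ev V (f i) :=
  map_prod (aeval (R := ℂ) fun s => algebraMap Qa ℂ (V s)) _ _

private theorem ev_pow' (V : ℕ × ℕ → Qa) (f : MvPolynomial (ℕ × ℕ) ℂ) (n : ℕ) :
    ev V (f ^ n) = ev V f ^ n :=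
  map_pow (aeval (R := ℂ) fun s => algebraMap Qa ℂ (V s)) _ _

theorem ev_lp (lam : ℕ → ℂ) (j : ℕ → ℕ) (V0 V : ℕ × ℕ → Qa) (al i : ℕ)
    (h : ∀ p, p.1 < al → V p = V0 p) : ev V (lp lam j V0 al i) = val lam j V i := by
  unfold lp val
  rw [ev_sum']
  refine Finset.sum_congr rfl fun l _ => ?_
  rw [TV.ev_mul, TV.ev_C, Algebra.smul_def, mul_comm]
  congr 1
  by_cases h1 : i < al
  · rw [if_pos h1, TV.ev_C, h (i, l) h1]
    rfl
  · rw [if_neg h1, TV.ev_X]

theorem ev_mon (lam : ℕ → ℂ) (j : ℕ → ℕ) (V0 V : ℕ × ℕ → Qa) (al : ℕ)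
    (h : ∀ p, p.1 < al → V p = V0 p) (a : ℕ →₀ ℕ) :
    ev V (mon a (lp lam j V0 al)) = mon a (val lam j V) := by
  unfold mon
  rw [ev_prod']
  exact Finset.prod_congr rfl fun i _ => by rw [ev_pow', ev_lp lam j V0 V al i h]

theorem adm_mon (lam : ℕ → ℂ) (j : ℕ → ℕ) (V0 : ℕ × ℕ → Qa) (al be b : ℕ) (a : ℕ →₀ ℕ)
    (ha : ∀ i ∈ a.support, i < be) :
    Adm (fun p : ℕ × ℕ => al ≤ p.1 ∧ p.1 < be ∧ p.2 < j p.1) b (a b)
      (mon a (lp lam j V0 al)) := by
  classical
  have h1 : ∀ i ∈ a.support, Adm (fun p : ℕ × ℕ => al ≤ p.1 ∧ p.1 < be ∧ p.2 < j p.1) b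
      (if i = b then 1 else 0) (lp lam j V0 al i) := by
    intro i hi
    unfold lp
    refine Adm.sum fun l hl => ?_
    rw [← zero_add (if i = b then 1 else 0)]
    refine (Adm.C _ _ _).mul ?_
    by_cases h2 : i < al
    · rw [if_pos h2]
      exact (Adm.C _ _ _).mono (Nat.zero_le _)
    · rw [if_neg h2]
      exact Adm.X (p := (i, l)) ⟨not_lt.1 h2, ha i hi, Finset.mem_range.1 hl⟩
  unfold mon
  refine (Adm.prod fun i hi => (h1 i hi).pow (a i)).mono ?_
  simp only [mul_ite, mul_one, mul_zero]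
  rw [Finset.sum_ite_eq' a.support b]
  split_ifs
  · exact le_rfl
  · exact Nat.zero_le _

theorem Adm.star {W : ℕ × ℕ → Prop} {b d : ℕ} {f : MvPolynomial (ℕ × ℕ) ℂ} (h : Adm W b d f)
    (φ : ℂ →ₗ[Qa] Qa) : Adm W b d (star φ f) := by
  intro m hm
  refine h m ?_
  rw [mem_support_iff] at hm ⊢
  intro h1
  exact hm (by rw [TV.coeff_star, h1, map_zero])

/-- No polynomial with monomials in `M` takes a value in `A`. -/
def FreeA (M : Set (ℕ →₀ ℕ)) (A : Submodule Qa ℂ) (n : ℕ) (x : ℕ → ℂ) : Prop :=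
  ∀ P : MvPolynomial ℕ Qa, (∀ a ∈ P.support, a ∈ M ∧ ∀ b ∈ a.support, b < n) →
    aeval x P ∈ A → P = 0

theorem freeA_bot {M : Set (ℕ →₀ ℕ)} {n : ℕ} {x : ℕ → ℂ} : FreeA M ⊥ n x ↔ Free M n x := by
  unfold FreeA Free
  simp only [Submodule.mem_bot]

theorem freeA_iff {M : Set (ℕ →₀ ℕ)}
    (hfin : ∀ n, {a : ℕ →₀ ℕ | a ∈ M ∧ ∀ b ∈ a.support, b < n}.Finite) (A : Submodule Qa ℂ)
    (n : ℕ) (x : ℕ → ℂ) : FreeA M A n x ↔
      LinearIndependent Qa fun a : {a // a ∈ SW M (Finset.range n)} => A.mkQ (mon a.1 x) := by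
  classical
  have hS : ∀ a, a ∈ SW M (Finset.range n) ↔ a ∈ M ∧ ∀ b ∈ a.support, b < n := by
    intro a
    rw [mem_SW hfin]
    refine and_congr_right fun _ => ?_
    exact ⟨fun h b hb => Finset.mem_range.1 (h hb), fun h b hb => Finset.mem_range.2 (h b hb)⟩
  rw [Fintype.linearIndependent_iff]
  constructor
  · intro h c hc a
    obtain ⟨P, hP⟩ : ∃ P : MvPolynomial ℕ Qa, P = ∑ a : {a // a ∈ SW M (Finset.range n)},
        monomial a.1 (c a) := ⟨_, rfl⟩
    have hcoef : ∀ a : {a // a ∈ SW M (Finset.range n)}, coeff a.1 P = c a := by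
      intro a
      rw [hP, coeff_sum, Finset.sum_eq_single a]
      · rw [coeff_monomial, if_pos rfl]
      · intro a' _ hne
        rw [coeff_monomial, if_neg]
        intro h1
        exact hne (Subtype.ext h1)
      · intro h1
        exact absurd (Finset.mem_univ a) h1
    have h0 : P = 0 := by
      refine h P (fun a ha => ?_) ?_
      · rw [← hS]
        rw [mem_support_iff, hP, coeff_sum] at ha
        by_contra hcon
        refine ha (Finset.sum_eq_zero fun a' _ => ?_)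
        rw [coeff_monomial, if_neg]
        intro h1
        exact hcon (h1 ▸ a'.2)
      · rw [← Submodule.Quotient.mk_eq_zero, ← Submodule.mkQ_apply, hP, map_sum, map_sum, ← hc]
        refine Finset.sum_congr rfl fun a _ => ?_
        rw [← map_smul, aeval_monomial, Algebra.smul_def]
        rfl
    rw [← hcoef a, h0, coeff_zero]
  · intro h P hP hx
    have h1 : ∑ a : {a // a ∈ SW M (Finset.range n)}, coeff a.1 P • A.mkQ (mon a.1 x) = 0 := by
      rw [← Submodule.Quotient.mk_eq_zero, ← Submodule.mkQ_apply] at hx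
      rw [← hx, aeval_mon, map_sum]
      rw [Finset.sum_coe_sort (SW M (Finset.range n)) (fun a => coeff a P • A.mkQ (mon a x))]
      symm
      refine (Finset.sum_congr rfl fun a _ => ?_).trans (Finset.sum_subset
        (fun a ha => (hS a).2 (hP a ha)) fun a _ ha => ?_)
      · rw [← map_smul, Algebra.smul_def]
        rfl
      · rw [notMem_support_iff.1 ha, zero_smul]
    have h2 := h (fun a => coeff a.1 P) h1
    refine MvPolynomial.ext _ _ fun a => ?_
    rw [coeff_zero]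
    by_cases ha : a ∈ P.support
    · exact h2 ⟨a, (hS a).2 (hP a ha)⟩
    · exact notMem_support_iff.1 ha

/-- The hypersurface is a minor. -/
theorem exists_minor {M : Set (ℕ →₀ ℕ)}
    (hfin : ∀ n, {a : ℕ →₀ ℕ | a ∈ M ∧ ∀ b ∈ a.support, b < n}.Finite) (A : Submodule Qa ℂ)
    (lam : ℕ → ℂ) (j : ℕ → ℕ) (V0 : ℕ × ℕ → Qa) (al be : ℕ)
    (hex : ∃ V : ℕ × ℕ → Qa, (∀ p, p.1 < al → V p = V0 p) ∧ FreeA M A be (val lam j V)) :
    ∃ H : MvPolynomial (ℕ × ℕ) Qa, H ≠ 0 ∧
      (∀ b, Adm (fun p : ℕ × ℕ => al ≤ p.1 ∧ p.1 < be ∧ p.2 < j p.1) b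
        (∑ a ∈ SW M (Finset.range be), a b) H) ∧
      ∀ V : ℕ × ℕ → Qa, (∀ p, p.1 < al → V p = V0 p) → eval V H ≠ 0 →
        FreeA M A be (val lam j V) := by
  classical
  obtain ⟨Vs, hVs, hfree⟩ := hex
  rw [freeA_iff hfin] at hfree
  have hinj : Function.Injective (Fintype.linearCombination Qa
      (fun a : {a // a ∈ SW M (Finset.range be)} => A.mkQ (mon a.1 (val lam j Vs)))) := by
    rw [← LinearMap.ker_eq_bot, LinearMap.ker_eq_bot']
    intro c hc
    rw [Fintype.linearIndependent_iff] at hfree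
    funext a
    exact hfree c hc a
  obtain ⟨g, hg⟩ := LinearMap.exists_leftInverse_of_injective _ (LinearMap.ker_eq_bot.2 hinj)
  obtain ⟨ψ, hψ⟩ : ∃ ψ : {a // a ∈ SW M (Finset.range be)} → (ℂ →ₗ[Qa] Qa),
      ψ = fun a' => (LinearMap.proj a').comp (g.comp A.mkQ) := ⟨_, rfl⟩
  have hdual : ∀ a' a : {a // a ∈ SW M (Finset.range be)},
      ψ a' (mon a.1 (val lam j Vs)) = if a' = a then 1 else 0 := by
    intro a' a
    have h1 := congrFun (LinearMap.congr_fun hg (Pi.single a 1)) a'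
    rw [LinearMap.comp_apply, Fintype.linearCombination_apply_single, one_smul,
      LinearMap.id_apply, Pi.single_apply] at h1
    rw [hψ]
    exact h1
  obtain ⟨F, hF⟩ : ∃ F : Matrix {a // a ∈ SW M (Finset.range be)}
      {a // a ∈ SW M (Finset.range be)} (MvPolynomial (ℕ × ℕ) Qa),
      F = fun a' a => star (ψ a') (mon a.1 (lp lam j V0 al)) := ⟨_, rfl⟩
  have heval : ∀ V : ℕ × ℕ → Qa, (∀ p, p.1 < al → V p = V0 p) →
      eval V F.det = Matrix.det (fun a' a => ψ a' (mon a.1 (val lam j V))) := by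
    intro V hV
    rw [RingHom.map_det]
    congr 1
    funext a' a
    rw [RingHom.mapMatrix_apply, Matrix.map_apply, hF]
    dsimp only
    rw [TV.eval_star, ev_mon lam j V0 V al hV]
  refine ⟨F.det, ?_, ?_, ?_⟩
  · intro h0
    have h1 := heval Vs hVs
    rw [h0, map_zero] at h1
    have h2 : (fun a' a : {a // a ∈ SW M (Finset.range be)} =>
        ψ a' (mon a.1 (val lam j Vs))) = (1 : Matrix _ _ Qa) := by
      funext a' a
      rw [hdual, Matrix.one_apply]
    rw [h2, Matrix.det_one] at h1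
    exact zero_ne_one h1
  · intro b
    rw [← Finset.sum_coe_sort (SW M (Finset.range be)) (fun a => a b)]
    refine Adm.det fun a' a => ?_
    rw [hF]
    refine (adm_mon lam j V0 al be b a.1 fun i hi => ?_).star _
    exact Finset.mem_range.1 (((mem_SW hfin _ a.1).1 a.2).2 hi)
  · intro V hV hne
    rw [heval V hV] at hne
    rw [freeA_iff hfin, Fintype.linearIndependent_iff]
    intro c hc a
    have h1 : Matrix.mulVec (fun a' a : {a // a ∈ SW M (Finset.range be)} =>
        ψ a' (mon a.1 (val lam j V))) c = 0 := by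
      funext a'
      have h2 := congrFun (congrArg g hc) a'
      rw [map_zero, map_sum, Finset.sum_apply] at h2
      show ∑ a : {a // a ∈ SW M (Finset.range be)}, ψ a' (mon a.1 (val lam j V)) * c a = 0
      refine (Finset.sum_congr rfl fun a _ => ?_).trans h2
      rw [map_smul, Pi.smul_apply, smul_eq_mul, mul_comm, hψ]
      rfl
    exact congrFun (Matrix.eq_zero_of_mulVec_eq_zero hne h1) a

end MP60829e.HD
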