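import Pool.Agent.Lib.MP_60829e_nt.HD.Seq
import Pool.Agent.Lib.MP_60829e_nt.HD.Minor

/-! # The recursion with bounds for the degrees -/

open MvPolynomial

namespace MP60829e.HD

variable {k : Type} [Field k] {j : ℕ → ℕ} {Good : ℕ → (ℕ × ℕ → k) → Prop}

/-- As `Gq`, and the degree in the entries of the row `al` is at most `d`. -/
def GqD (j : ℕ → ℕ) (Good : ℕ → (ℕ × ℕ → k) → Prop) (V : ℕ × ℕ → k) (α β d : ℕ) : Prop :=
  ∃ f : MvPolynomial (ℕ × ℕ) k, f ≠ 0 ∧
    Adm (fun p : ℕ × ℕ => α ≤ p.1 ∧ p.1 < β ∧ p.2 < j p.1) α d f ∧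
    ∀ V' : ℕ × ℕ → k, (∀ p, p.1 < α → V' p = V p) → eval V' f ≠ 0 → Good β V'

theorem GqD.gq {V : ℕ × ℕ → k} {α β d : ℕ} (h : GqD j Good V α β d) : Gq j Good V α β := by
  classical
  obtain ⟨f, h0, h1, h2⟩ := h
  refine ⟨f, h0, fun p hp => ?_, h2⟩
  obtain ⟨m, hm, hpm⟩ := (mem_vars_iff_mem_support p).1 hp
  exact (h1 m hm).1 p hpm

/-- The total degree after the substitution of variables and constants. -/
theorem totalDegree_subst {α d r : ℕ} {W : ℕ × ℕ → Prop} {f : MvPolynomial (ℕ × ℕ) k}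
    (h : Adm W α d f) (S : ℕ × ℕ → MvPolynomial (Fin r) k)
    (hS : ∀ p, (S p).totalDegree ≤ if p.1 = α then 1 else 0) : (bind₁ S f).totalDegree ≤ d := by
  classical
  have h1 : bind₁ S f = ∑ m ∈ f.support, C (coeff m f) * ∏ p ∈ m.support, S p ^ m p := by
    conv_lhs => rw [← support_sum_monomial_coeff f]
    rw [map_sum]
    exact Finset.sum_congr rfl fun m _ => bind₁_monomial _ _ _
  rw [h1]
  refine (totalDegree_finsetSum _ _).trans (Finset.sup_le fun m hm => ?_)
  refine (totalDegree_mul _ _).trans ?_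
  rw [totalDegree_C, zero_add]
  refine (totalDegree_finsetProd _ _).trans ?_
  refine le_trans ?_ (h m hm).2
  unfold rd
  rw [Finsupp.sum]
  refine Finset.sum_le_sum fun p _ => ?_
  refine (totalDegree_pow _ _).trans ?_
  have h2 := Nat.mul_le_mul_left (m p) (hS p)
  split_ifs at h2 ⊢ with h3
  · omega
  · omega

/-- One more row is fixed. -/
theorem GqD.row [Infinite k] {α β d : ℕ} {V : ℕ × ℕ → k} (h : GqD j Good V α β d) :
    ∃ g : MvPolynomial (Fin (j α)) k, g ≠ 0 ∧ g.totalDegree ≤ d ∧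
      ∀ V' : ℕ × ℕ → k, (∀ p, p.1 < α → V' p = V p) →
      eval (fun t : Fin (j α) => V' (α, t)) g ≠ 0 → Gq j Good V' (α + 1) β := by
  classical
  obtain ⟨f, h0, hadm, hf⟩ := h
  have hv : ∀ p ∈ f.vars, α ≤ p.1 ∧ p.1 < β ∧ p.2 < j p.1 := by
    intro p hp
    obtain ⟨m, hm, hpm⟩ := (mem_vars_iff_mem_support p).1 hp
    exact (hadm m hm).1 p hpm
  obtain ⟨y, hy⟩ : ∃ y : ℕ × ℕ → k, eval y f ≠ 0 := by
    by_contra hcon
    push Not at hcon
    exact h0 (MvPolynomial.funext fun y => by rw [hcon y, map_zero])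
  set S : ℕ × ℕ → MvPolynomial (Fin (j α)) k := fun p =>
    if h : p.1 = α ∧ p.2 < j α then X ⟨p.2, h.2⟩ else C (y p) with hS
  refine ⟨bind₁ S f, ?_, ?_, fun V' hV' hne => ?_⟩
  · intro h
    apply hy
    have h1 := eval_bind S f (fun t => y (α, t))
    rw [h, map_zero] at h1
    rw [h1]
    refine eval_congr_vars fun p _ => ?_
    rw [hS]
    dsimp only
    split_ifs with h2
    · rw [eval_X]
      exact congrArg y (Prod.ext h2.1 rfl)
    · rw [eval_C]
  · refine totalDegree_subst hadm S fun p => ?_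
    rw [hS]
    dsimp only
    by_cases h2 : p.1 = α ∧ p.2 < j α
    · rw [dif_pos h2, if_pos h2.1, totalDegree_X]
    · rw [dif_neg h2, totalDegree_C]
      exact Nat.zero_le _
  · set T : ℕ × ℕ → MvPolynomial (ℕ × ℕ) k := fun p =>
      if p.1 = α then C (V' p) else X p with hT
    refine ⟨bind₁ T f, ?_, ?_, fun V'' hV'' hne' => ?_⟩
    · intro h
      apply hne
      have h1 := eval_bind T f y
      rw [h, map_zero] at h1
      rw [eval_bind, h1]
      refine eval_congr_vars fun p hp => ?_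
      rw [hS, hT]
      dsimp only
      by_cases h2 : p.1 = α
      · rw [if_pos h2, dif_pos ⟨h2, h2 ▸ (hv p hp).2.2⟩, eval_X, eval_C]
        exact congrArg V' (Prod.ext h2.symm rfl)
      · rw [if_neg h2, dif_neg (fun h3 => h2 h3.1), eval_X, eval_C]
    · intro p hp
      obtain ⟨q, hq, hpq⟩ := Finset.mem_biUnion.1 (vars_bind₁ T f hp)
      rw [hT] at hpq
      dsimp only at hpq
      by_cases h2 : q.1 = α
      · rw [if_pos h2, vars_C] at hpq
        exact absurd hpq (Finset.notMem_empty _)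
      · rw [if_neg h2, vars_X, Finset.mem_singleton] at hpq
        obtain ⟨h3, h4, h5⟩ := hv q hq
        rw [hpq]
        exact ⟨by omega, h4, h5⟩
    · refine hf V'' (fun p hp => ?_) ?_
      · rw [hV'' p (by omega), hV' p hp]
      · rw [eval_bind] at hne'
        rw [show eval V'' f = eval (fun p => eval V'' (T p)) f from
          eval_congr_vars fun p _ => ?_]
        · exact hne'
        · rw [hT]
          dsimp only
          split_ifs with h2
          · rw [eval_C, hV'' p (by omega)]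
          · rw [eval_X]

/-- Fewer rows. -/
theorem Gq.of_le [Infinite k] (hmono : ∀ β T V, β ≤ T → Good T V → Good β V)
    (hcongr : ∀ β (V W : ℕ × ℕ → k), (∀ p : ℕ × ℕ, p.1 < β → V p = W p) → Good β V → Good β W)
    {α β T : ℕ} {V : ℕ × ℕ → k} (hαβ : α ≤ β) (hβT : β ≤ T) (h : Gq j Good V α T) :
    Gq j Good V α β := by
  classical
  obtain ⟨f, h0, hv, hf⟩ := h
  obtain ⟨y, hy⟩ : ∃ y : ℕ × ℕ → k, eval y f ≠ 0 := by
    by_contra hcon
    push Not at hcon
    exact h0 (MvPolynomial.funext fun y => by rw [hcon y, map_zero])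
  set S : ℕ × ℕ → MvPolynomial (ℕ × ℕ) k := fun p => if p.1 < β then X p else C (y p) with hS
  refine ⟨bind₁ S f, ?_, fun p hp => ?_, fun V' hV' hne => ?_⟩
  · intro h
    apply hy
    have h1 := eval_bind S f y
    rw [h, map_zero] at h1
    rw [h1]
    refine eval_congr_vars fun p _ => ?_
    rw [hS]
    dsimp only
    split_ifs
    · rw [eval_X]
    · rw [eval_C]
  · obtain ⟨q, hq, hpq⟩ := Finset.mem_biUnion.1 (vars_bind₁ S f hp)
    rw [hS] at hpq
    dsimp only at hpq
    by_cases h2 : q.1 < β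
    · rw [if_pos h2, vars_X, Finset.mem_singleton] at hpq
      obtain ⟨h3, h4, h5⟩ := hv q hq
      rw [hpq]
      exact ⟨h3, h2, h5⟩
    · rw [if_neg h2, vars_C] at hpq
      exact absurd hpq (Finset.notMem_empty _)
  · rw [eval_bind] at hne
    have h1 : Good T (fun p => if p.1 < β then V' p else y p) := by
      refine hf _ (fun p hp => ?_) ?_
      · rw [if_pos (lt_of_lt_of_le hp hαβ), hV' p hp]
      · convert hne using 2
        congr 1
        funext p
        rw [hS]
        dsimp only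
        split_ifs
        · rw [eval_X]
        · rw [eval_C]
    refine hcongr β _ V' (fun p hp => ?_) (hmono β T _ hβT h1)
    exact if_pos hp

theorem Ext.stepD [Infinite k] (thr : ℕ → ℕ) (D : ℕ → ℕ → ℕ)
    (hmono : ∀ β T V, β ≤ T → Good T V → Good β V)
    (hcongr : ∀ β (V W : ℕ × ℕ → k), (∀ p : ℕ × ℕ, p.1 < β → V p = W p) → Good β V → Good β W)
    (hcore : ∀ α β V, α ≤ β → thr α ≤ β → Gq j Good V α β → Gq j Good V α (β + 1))
    (hD : ∀ α β V, Gq j Good V α β → GqD j Good V α β (D α β)) {α : ℕ}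
    {V : ℕ × ℕ → k} (h : Ext j Good V α) :
    ∃ g : MvPolynomial (Fin (j α)) k, g ≠ 0 ∧
      g.totalDegree ≤ D α (max (α + 1) (thr (α + 1))) ∧
      ∀ V' : ℕ × ℕ → k, (∀ p, p.1 < α → V' p = V p) →
      eval (fun t : Fin (j α) => V' (α, t)) g ≠ 0 → Ext j Good V' (α + 1) := by
  classical
  obtain ⟨T, hT⟩ : ∃ T, T = max (α + 1) (thr (α + 1)) := ⟨_, rfl⟩
  have hαT : α + 1 ≤ T := hT ▸ le_max_left _ _
  have hthr : thr (α + 1) ≤ T := hT ▸ le_max_right _ _
  obtain ⟨g, hg0, hg1, hg⟩ := (hD α T V (h T (by omega))).row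
  refine ⟨g, hg0, hT ▸ hg1, fun V' hV' hne => ?_⟩
  have h1 : Gq j Good V' (α + 1) T := hg V' hV' hne
  intro β hβ
  rcases Nat.le_total β T with h2 | h2
  · exact h1.of_le hmono hcongr hβ h2
  · obtain ⟨i, rfl⟩ := Nat.exists_eq_add_of_le h2
    clear hβ h2
    induction i with
    | zero => exact h1
    | succ i ih =>
      rw [← add_assoc]
      exact hcore (α + 1) (T + i) V' (by omega) (by omega) ih

/-- The recursion. -/
theorem seqD [Infinite k] (h0 : ∀ V, Good 0 V) (thr : ℕ → ℕ) (D : ℕ → ℕ → ℕ)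
    (hmono : ∀ β T V, β ≤ T → Good T V → Good β V)
    (hcongr : ∀ β (V W : ℕ × ℕ → k), (∀ p : ℕ × ℕ, p.1 < β → V p = W p) → Good β V → Good β W)
    (hcore : ∀ α β V, α ≤ β → (α = 0 ∨ thr α ≤ β) → Gq j Good V α β → Gq j Good V α (β + 1))
    (hD : ∀ α β V, Gq j Good V α β → GqD j Good V α β (D α β)) :
    ∃ H : (b : ℕ) → (Fin b × ℕ → k) → MvPolynomial (Fin (j b)) k, (∀ b y, H b y ≠ 0) ∧
      (∀ b y, (H b y).totalDegree ≤ D b (max (b + 1) (thr (b + 1)))) ∧
      ∀ V : ℕ × ℕ → k,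
        (∀ b, eval (fun t : Fin (j b) => V (b, t)) (H b fun p => V (p.1, p.2)) ≠ 0) →
        ∀ β, Good β V := by
  classical
  choose g hg0 hg1 hg using fun (b : ℕ) (V : ℕ × ℕ → k) (h : Ext j Good V b) =>
    Ext.stepD thr D hmono hcongr (fun α β V hαβ hthr => hcore α β V hαβ (Or.inr hthr)) hD h
  let e : (b : ℕ) → (Fin b × ℕ → k) → ℕ × ℕ → k := fun b y p =>
    if h : p.1 < b then y (⟨p.1, h⟩, p.2) else 0
  let H : (b : ℕ) → (Fin b × ℕ → k) → MvPolynomial (Fin (j b)) k := fun b y =>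
    if h : Ext j Good (e b y) b then g b (e b y) h else 1
  have he : ∀ (V : ℕ × ℕ → k) b, ∀ p : ℕ × ℕ, p.1 < b →
      e b (fun q => V (q.1, q.2)) p = V p := by
    intro V b p hp
    show (if h : p.1 < b then V (p.1, p.2) else 0) = V p
    rw [dif_pos hp]
  refine ⟨H, fun b y => ?_, fun b y => ?_, fun V hV => ?_⟩
  · show (if h : Ext j Good (e b y) b then g b (e b y) h else 1) ≠ 0
    split_ifs with h
    · exact hg0 b _ h
    · exact one_ne_zero
  · show (if h : Ext j Good (e b y) b then g b (e b y) h else 1).totalDegree ≤ _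
    split_ifs with h
    · exact hg1 b _ h
    · rw [totalDegree_one]
      exact Nat.zero_le _
  · have key : ∀ b, Ext j Good V b := by
      intro b
      induction b with
      | zero => exact Ext.start h0 (fun β V => hcore 0 β V (Nat.zero_le _) (Or.inl rfl)) V
      | succ b ih =>
        have h1 : Ext j Good (e b fun q => V (q.1, q.2)) b := ih.congr (he V b)
        refine hg b (e b fun q => V (q.1, q.2)) h1 V (fun p hp => (he V b p hp).symm) ?_
        have h2 := hV b
        have h3 : H b (fun q => V (q.1, q.2)) = g b (e b fun q => V (q.1, q.2)) h1 := dif_pos h1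
        rw [h3] at h2
        exact h2
    exact fun β => (key β β le_rfl).good

end MP60829e.HD
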