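import Pool.Agent.Lib.MP_60829e_nt.HD.FinL
import Pool.Agent.Lib.MP_60829e_nt.HD.SeqD

/-! # Baker's theorem with products: natural numbers of bounded size -/

open MvPolynomial Module

namespace MP60829e.HD

open MP60829e.ST (Qa Lsp Lt)

/-- The degree of the product of the monomials `1, X_0, …, X_(n-1)` in one variable. -/
theorem sum_one_le (n b : ℕ) :
    ∑ a ∈ SW {a : ℕ →₀ ℕ | a.degree ≤ 1} (Finset.range n), a b ≤ 1 := by
  classical
  have hsub : (SW {a : ℕ →₀ ℕ | a.degree ≤ 1} (Finset.range n)).filter (fun a => a b ≠ 0) ⊆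
      {Finsupp.single b 1} := by
    intro a ha
    rw [Finset.mem_filter, mem_SW (finite_degree 1)] at ha
    obtain ⟨⟨h1, -⟩, h2⟩ := ha
    have h3 : Finsupp.single b 1 ≤ a := Finsupp.single_le_iff.2 (Nat.one_le_iff_ne_zero.2 h2)
    obtain ⟨c, rfl⟩ := exists_add_of_le h3
    have h4 : (Finsupp.single b 1 + c : ℕ →₀ ℕ).degree ≤ 1 := h1
    rw [map_add, Finsupp.degree_single] at h4
    have h5 : c.degree = 0 := by omega
    rw [Finsupp.degree_eq_zero_iff] at h5
    rw [h5, add_zero]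
    exact Finset.mem_singleton_self _
  rw [← Finset.sum_filter_ne_zero]
  refine (Finset.sum_le_sum_of_subset hsub).trans ?_
  rw [Finset.sum_singleton, Finsupp.single_eq_same]

/-- The degree of the product of the monomials of degree two in one variable. -/
theorem sum_two_le (n b : ℕ) :
    ∑ a ∈ SW {a : ℕ →₀ ℕ | a.degree = 2} (Finset.range n), a b ≤ n + 1 := by
  classical
  have hfin : ∀ n, {a : ℕ →₀ ℕ | a ∈ {a : ℕ →₀ ℕ | a.degree = 2} ∧
      ∀ b ∈ a.support, b < n}.Finite :=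
    fun n => (finite_degree 2 n).subset fun a ha => ⟨le_of_eq ha.1, ha.2⟩
  have hsub : (SW {a : ℕ →₀ ℕ | a.degree = 2} (Finset.range n)).filter (fun a => a b ≠ 0) ⊆
      (Finset.range n).image fun c => Finsupp.single b 1 + Finsupp.single c 1 := by
    intro a ha
    rw [Finset.mem_filter, mem_SW hfin] at ha
    obtain ⟨⟨h1, h6⟩, h2⟩ := ha
    have h3 : Finsupp.single b 1 ≤ a := Finsupp.single_le_iff.2 (Nat.one_le_iff_ne_zero.2 h2)
    obtain ⟨c, rfl⟩ := exists_add_of_le h3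
    have h4 : (Finsupp.single b 1 + c : ℕ →₀ ℕ).degree = 2 := h1
    rw [map_add, Finsupp.degree_single] at h4
    have h5 : c.degree = 1 := by omega
    obtain ⟨i, rfl⟩ := (Finsupp.sum_eq_one_iff c).1 h5
    refine Finset.mem_image.2 ⟨i, h6 ?_, rfl⟩
    rw [Finsupp.mem_support_iff, Finsupp.add_apply, Finsupp.single_eq_same]
    omega
  rw [← Finset.sum_filter_ne_zero]
  refine (Finset.sum_le_sum_of_subset hsub).trans ?_
  rw [Finset.sum_image]
  · simp only [Finsupp.add_apply, Finsupp.single_eq_same]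
    rw [Finset.sum_add_distrib, Finset.sum_const, Finset.card_range, smul_eq_mul, mul_one]
    refine Nat.add_le_add_left ?_ n
    simp only [Finsupp.single_apply]
    rw [Finset.sum_ite_eq' (Finset.range n) b]
    split_ifs
    · exact le_rfl
    · exact Nat.zero_le _
  · intro c _ d _ h
    have h1 := add_left_cancel h
    exact Finsupp.single_left_injective one_ne_zero h1

/-- The hypersurface has small degree in the entries of one row. -/
theorem gqD_of_gq {M : Set (ℕ →₀ ℕ)}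
    (hfin : ∀ n, {a : ℕ →₀ ℕ | a ∈ M ∧ ∀ b ∈ a.support, b < n}.Finite)
    {lam : ℕ → ℂ} {j : ℕ → ℕ} {α β : ℕ} {V : ℕ × ℕ → Qa}
    (h : Gq j (fun n V => Free {a | a.degree ≤ 1} n (val lam j V) ∧
      FreeL M n (val lam j V)) V α β) :
    GqD j (fun n V => Free {a | a.degree ≤ 1} n (val lam j V) ∧
      FreeL M n (val lam j V)) V α β (1 + ∑ a ∈ SW M (Finset.range β), a α) := by
  classical
  have : Infinite Qa := Infinite.of_injective (Nat.cast : ℕ → Qa) Nat.cast_injective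
  obtain ⟨f, h0, hv, hf⟩ := h
  obtain ⟨y, hy⟩ : ∃ y : ℕ × ℕ → Qa, eval y f ≠ 0 := by
    by_contra hcon
    push Not at hcon
    exact h0 (MvPolynomial.funext fun y => by rw [hcon y, map_zero])
  obtain ⟨V', hV', hG1, hG2⟩ : ∃ V' : ℕ × ℕ → Qa, (∀ p, p.1 < α → V' p = V p) ∧
      Free {a | a.degree ≤ 1} β (val lam j V') ∧ FreeL M β (val lam j V') := by
    refine ⟨fun p => if p.1 < α then V p else y p, fun p hp => if_pos hp, ?_⟩
    refine hf _ (fun p hp => if_pos hp) ?_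
    rw [show eval (fun p : ℕ × ℕ => if p.1 < α then V p else y p) f = eval y f from
      eval_congr_vars fun p hp => if_neg (not_lt.2 (hv p hp).1)]
    exact hy
  obtain ⟨H1, hH1, hA1, hE1⟩ := exists_minor (finite_degree 1) ⊥ lam j V α β
    ⟨V', hV', freeA_bot.2 hG1⟩
  obtain ⟨H2, hH2, hA2, hE2⟩ := exists_minor hfin Lt lam j V α β ⟨V', hV', hG2⟩
  refine ⟨H1 * H2, mul_ne_zero hH1 hH2,
    ((hA1 α).mul (hA2 α)).mono (Nat.add_le_add_right (sum_one_le β α) _), fun W hW hne => ?_⟩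
  rw [map_mul] at hne
  exact ⟨freeA_bot.1 (hE1 W hW (left_ne_zero_of_mul hne)),
    hE2 W hW (right_ne_zero_of_mul hne)⟩

theorem FreeA.congr {M : Set (ℕ →₀ ℕ)} {A : Submodule Qa ℂ} {n : ℕ} {x x' : ℕ → ℂ}
    (h : FreeA M A n x) (hx : ∀ b < n, x b = x' b) : FreeA M A n x' := by
  intro P hP hPA
  refine h P hP ?_
  rw [aeval_mon] at hPA ⊢
  have h1 : ∑ a ∈ P.support, ((coeff a P : Qa) : ℂ) * mon a x =
      ∑ a ∈ P.support, ((coeff a P : Qa) : ℂ) * mon a x' := by
    refine Finset.sum_congr rfl fun a ha => ?_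
    congr 1
    unfold mon
    exact Finset.prod_congr rfl fun i hi => by rw [hx i ((hP a ha).2 i hi)]
  rw [h1]
  exact hPA

theorem FreeA.mono {M : Set (ℕ →₀ ℕ)} {A : Submodule Qa ℂ} {n n' : ℕ} {x : ℕ → ℂ}
    (h : FreeA M A n x) (hn : n' ≤ n) : FreeA M A n' x := fun P hP hPA =>
  h P (fun a ha => ⟨(hP a ha).1, fun b hb => lt_of_lt_of_le ((hP a ha).2 b hb) hn⟩) hPA

theorem val_congr (lam : ℕ → ℂ) (j : ℕ → ℕ) {V W : ℕ × ℕ → Qa} {n : ℕ}
    (h : ∀ p : ℕ × ℕ, p.1 < n → V p = W p) : ∀ b < n, val lam j V b = val lam j W b := by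
  intro b hb
  unfold val
  exact Finset.sum_congr rfl fun l _ => by rw [h (b, l) hb]

/-- The theorem, rows over the algebraic numbers, with bounds for the degrees. -/
theorem hmLD {lam : ℕ → ℂ} (hlam : LinearIndependent Qa lam) (hlog : ∀ i, lam i ∈ Lsp)
    {M : Set (ℕ →₀ ℕ)} (hM2 : ∀ a ∈ M, 2 ≤ a.degree)
    (hM : ∀ a ∈ M, ∀ c, c ≤ a → 2 ≤ c.degree → c ∈ M)
    (hfin : ∀ n, {a : ℕ →₀ ℕ | a ∈ M ∧ ∀ b ∈ a.support, b < n}.Finite) (j : ℕ → ℕ)
    (hj : ∀ b, 2 * b + 2 ≤ j b) (thr : ℕ → ℕ)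
    (hcount : ∀ al be, al ≤ be → (al = 0 ∨ thr al ≤ be) →
      ∀ Q ⊆ Finset.Ico al (be + 1), be ∈ Q → ∃ B ⊆ Q,
        ∑ c ∈ Q, (Finset.Ico al c \ Q).card + NM M (Finset.range al ∪ Q) +
          B.card * (B.card + 1) + 1 ≤ ∑ b ∈ B, j b) :
    ∃ H : (b : ℕ) → (Fin b × ℕ → Qa) → MvPolynomial (Fin (j b)) Qa, (∀ b y, H b y ≠ 0) ∧
      (∀ b y, (H b y).totalDegree ≤
        1 + ∑ a ∈ SW M (Finset.range (max (b + 1) (thr (b + 1)))), a b) ∧
      ∀ V : ℕ × ℕ → Qa,
        (∀ b, eval (fun t : Fin (j b) => V (b, t)) (H b fun p => V (p.1, p.2)) ≠ 0) →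
        ∀ n, FreeL M n (val lam j V) := by
  have : Infinite Qa := Infinite.of_injective (Nat.cast : ℕ → Qa) Nat.cast_injective
  have hcore : ∀ (α β : ℕ) (V : ℕ × ℕ → Qa), α ≤ β → (α = 0 ∨ thr α ≤ β) →
      Gq j (fun n V => Free {a | a.degree ≤ 1} n (val lam j V) ∧
        FreeL M n (val lam j V)) V α β →
      Gq j (fun n V => Free {a | a.degree ≤ 1} n (val lam j V) ∧
        FreeL M n (val lam j V)) V α (β + 1) := by
    intro α β V hαβ h hprev
    have h1 : GenFree {a | a.degree ≤ 1} lam j V α (β + 1) :=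
      core hlam hlog isLowerSet_one (finite_degree 1) j V hαβ
        (hprev.mono (Good' := fun n V => Free {a | a.degree ≤ 1} n (val lam j V))
          fun V' hV' => hV'.1)
        fun Q hQ hb => ⟨Q, Finset.Subset.refl _, countM1 hj Q hQ hb⟩
    have h2 : GenFreeL M lam j V α (β + 1) :=
      coreL hlam hlog hM2 hM hfin j V hαβ h1
        (hprev.mono (Good' := fun n V => FreeL M n (val lam j V)) fun V' hV' => hV'.2)
        (hcount α β hαβ h)
    exact Gq.and h1 h2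
  obtain ⟨H, hH0, hHd, hH⟩ := seqD (k := Qa) (j := j)
    (Good := fun n V => Free {a | a.degree ≤ 1} n (val lam j V) ∧ FreeL M n (val lam j V))
    (fun V => ⟨free_zero _ _, freeL_zero hM2 _⟩) thr
    (fun α β => 1 + ∑ a ∈ SW M (Finset.range β), a α)
    (fun β T V hβT h => ⟨freeA_bot.1 ((freeA_bot.2 h.1).mono hβT), FreeA.mono (A := Lt) h.2 hβT⟩)
    (fun β V W hVW h => ⟨freeA_bot.1 ((freeA_bot.2 h.1).congr (val_congr lam _ hVW)),
      FreeA.congr (A := Lt) h.2 (val_congr lam _ hVW)⟩)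
    hcore (fun α β V h => gqD_of_gq hfin h)
  exact ⟨H, hH0, hHd, fun V hV n => (hH V hV n).2⟩

/-- A polynomial over the algebraic numbers is nonzero at the rational points outside a hypersurface
over the rational numbers which is not of larger degree. -/
theorem exists_ratD {m : ℕ} (f : MvPolynomial (Fin m) Qa) (hf : f ≠ 0) :
    ∃ g : MvPolynomial (Fin m) ℚ, g ≠ 0 ∧ g.totalDegree ≤ f.totalDegree ∧
      ∀ a : Fin m → ℚ, eval a g ≠ 0 → eval (fun s => ((a s : ℚ) : Qa)) f ≠ 0 := by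
  classical
  obtain ⟨d, hd⟩ := MvPolynomial.ne_zero_iff.1 hf
  obtain ⟨φ, hφ⟩ : ∃ φ : Module.Dual ℚ Qa, φ (coeff d f) ≠ 0 := by
    by_contra hcon
    push Not at hcon
    exact hd ((Module.forall_dual_apply_eq_zero_iff ℚ (coeff d f)).1 hcon)
  refine ⟨∑ e ∈ f.support, monomial e (φ (coeff e f)), ?_, ?_, fun a ha => ?_⟩
  · rw [MvPolynomial.ne_zero_iff]
    refine ⟨d, ?_⟩
    rw [coeff_sum, Finset.sum_eq_single d]
    · rwa [coeff_monomial, if_pos rfl]
    · intro e _ he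
      rw [coeff_monomial, if_neg he]
    · intro h
      rw [MvPolynomial.notMem_support_iff] at h
      exact absurd h hd
  · exact totalDegree_finsetSum_le fun e he =>
      (totalDegree_monomial_le e _).trans (le_totalDegree he)
  · intro h0
    apply ha
    rw [map_sum]
    have h1 : φ (eval (fun s => ((a s : ℚ) : Qa)) f) =
        ∑ e ∈ f.support, eval a (monomial e (φ (coeff e f))) := by
      rw [eval_eq, map_sum]
      refine Finset.sum_congr rfl fun e _ => ?_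
      rw [eval_monomial, Finsupp.prod]
      have h2 : coeff e f * ∏ i ∈ e.support, ((a i : ℚ) : Qa) ^ e i =
          (∏ i ∈ e.support, a i ^ e i) • coeff e f := by
        rw [Algebra.smul_def, mul_comm, map_prod]
        congr 1
        refine Finset.prod_congr rfl fun i _ => ?_
        rw [map_pow]
        rfl
      rw [h2, map_smul, smul_eq_mul, mul_comm]
    rw [← h1, h0, map_zero]

/-- The theorem, rational rows, with bounds for the degrees. -/
theorem hmLD_rat {lam : ℕ → ℂ} (halg : ∀ i, IsAlgebraic ℚ (Complex.exp (lam i)))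
    (hli : LinearIndependent ℚ lam)
    {M : Set (ℕ →₀ ℕ)} (hM2 : ∀ a ∈ M, 2 ≤ a.degree)
    (hM : ∀ a ∈ M, ∀ c, c ≤ a → 2 ≤ c.degree → c ∈ M)
    (hfin : ∀ n, {a : ℕ →₀ ℕ | a ∈ M ∧ ∀ b ∈ a.support, b < n}.Finite) (j : ℕ → ℕ)
    (hj : ∀ b, 2 * b + 2 ≤ j b) (thr : ℕ → ℕ)
    (hcount : ∀ al be, al ≤ be → (al = 0 ∨ thr al ≤ be) →
      ∀ Q ⊆ Finset.Ico al (be + 1), be ∈ Q → ∃ B ⊆ Q,
        ∑ c ∈ Q, (Finset.Ico al c \ Q).card + NM M (Finset.range al ∪ Q) +
          B.card * (B.card + 1) + 1 ≤ ∑ b ∈ B, j b) :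
    ∃ H : (b : ℕ) → (Fin b → ℕ → ℚ) → MvPolynomial (Fin (j b)) ℚ, (∀ b y, H b y ≠ 0 ∧
      (H b y).totalDegree ≤ 1 + ∑ a ∈ SW M (Finset.range (max (b + 1) (thr (b + 1)))), a b) ∧
      ∀ x : ℕ → ℕ → ℚ, (∀ b, eval (fun t : Fin (j b) => x b t) (H b fun i => x i) ≠ 0) →
        ∀ P : MvPolynomial ℕ Qa, (∀ a ∈ P.support, a ∈ M) →
          aeval (fun b => ∑ t : Fin (j b), (x b t : ℂ) * lam t) P ∈ Lt → P = 0 := by
  have hlam := FC.baker lam halg hli
  have hlog : ∀ i, lam i ∈ Lsp := fun i => Submodule.subset_span (halg i)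
  obtain ⟨H, hH0, hHd, hH⟩ := hmLD hlam hlog hM2 hM hfin j hj thr hcount
  choose g hg0 hgd hg using fun (b : ℕ) (y : Fin b → ℕ → ℚ) =>
    exists_ratD (H b fun p => ((y p.1 p.2 : ℚ) : Qa)) (hH0 b _)
  refine ⟨g, fun b y => ⟨hg0 b y, (hgd b y).trans (hHd b _)⟩, fun x hx P hP hPL => ?_⟩
  have h1 := hH (fun p => ((x p.1 p.2 : ℚ) : Qa)) fun b => hg b _ _ (hx b)
  have h2 : val lam j (fun p => ((x p.1 p.2 : ℚ) : Qa)) =
      fun b => ∑ t : Fin (j b), (x b t : ℂ) * lam t := by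
    funext b
    unfold val
    rw [Finset.sum_range]
    refine Finset.sum_congr rfl fun t _ => ?_
    rw [Algebra.smul_def]
    congr 1
  rw [h2] at h1
  obtain ⟨n, hn⟩ : ∃ n : ℕ, ∀ a ∈ P.support, ∀ b ∈ a.support, b < n := by
    refine ⟨(P.support.biUnion fun i => i.support).sup id + 1, fun i hi b hb => ?_⟩
    exact Nat.lt_succ_of_le (Finset.le_sup (f := id) (Finset.mem_biUnion.2 ⟨i, hi, hb⟩))
  exact h1 n P (fun a ha => ⟨hP a ha, hn a ha⟩) hPL

/-- The bound for the degree in the quadratic case. -/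
theorem deg_eq (b : ℕ) :
    max (b + 1) ((b + 1) * (b + 1 + 1) / 2) + 2 = (b + 1) * (b + 2) / 2 + 2 := by
  obtain ⟨T, hT⟩ : ∃ T, (b + 1) * (b + 1 + 1) = 2 * T := by
    obtain ⟨T, hT⟩ := Nat.even_mul_succ_self (b + 1)
    exact ⟨T, by omega⟩
  have h1 : (b + 1) * (b + 1 + 1) / 2 = T := by omega
  have h2 : b + 1 ≤ T := by nlinarith
  have h3 : (b + 1) * (b + 2) = (b + 1) * (b + 1 + 1) := by ring
  rw [h3, h1, max_eq_right h2]

/-- Degree two. -/
theorem hdLD {lam : ℕ → ℂ} (halg : ∀ i, IsAlgebraic ℚ (Complex.exp (lam i)))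
    (hli : LinearIndependent ℚ lam) :
    ∃ H : (b : ℕ) → (Fin b → ℕ → ℚ) → MvPolynomial (Fin (2 * b + 4)) ℚ,
      (∀ b y, H b y ≠ 0 ∧ (H b y).totalDegree ≤ (b + 1) * (b + 2) / 2 + 2) ∧
      ∀ x : ℕ → ℕ → ℚ,
        (∀ b, eval (fun t : Fin (2 * b + 4) => x b t) (H b fun i => x i) ≠ 0) →
        ∀ P : MvPolynomial ℕ Qa, (∀ a ∈ P.support, a ∈ {a : ℕ →₀ ℕ | a.degree = 2}) →
          aeval (fun b => ∑ t : Fin (2 * b + 4), (x b t : ℂ) * lam t) P ∈ Lt → P = 0 := by
  obtain ⟨H, h1, h2⟩ := hmLD_rat halg hli (M := {a | a.degree = 2})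
    (fun _ ha => le_of_eq (Eq.symm ha))
    (fun a ha c hca hc => le_antisymm ((Finsupp.degree_mono hca).trans (le_of_eq ha)) hc)
    (fun n => (finite_degree 2 n).subset fun a ha => ⟨le_of_eq ha.1, ha.2⟩)
    (fun b => 2 * b + 4) (fun b => by omega) (fun al => al * (al + 1) / 2)
    fun al be _ h Q hQ hbe => countQL (h.imp id fun h => by
      obtain ⟨T, hT⟩ := Nat.even_mul_succ_self al
      omega) Q hQ hbe
  refine ⟨H, fun b y => ⟨(h1 b y).1, (h1 b y).2.trans ?_⟩, h2⟩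
  have h3 := sum_two_le (max (b + 1) ((b + 1) * (b + 1 + 1) / 2)) b
  have h4 := deg_eq b
  omega

/-- The numbers of the monomials. -/
theorem NM_range_le {M : Set (ℕ →₀ ℕ)}
    (hfin : ∀ n, {a : ℕ →₀ ℕ | a ∈ M ∧ ∀ b ∈ a.support, b < n}.Finite)
    (hM2 : ∀ a ∈ M, 2 ≤ a.degree) {m : ℕ → ℕ} (hm : ∀ b, mb M b ≤ m b) (n : ℕ) :
    NM M (Finset.range n) ≤ ∑ i ∈ Finset.range n, m i := by
  have h1 := card_le M hfin 0 (Finset.range n)
  have h2 : {a : ℕ →₀ ℕ | a ∈ M ∧ a.support ⊆ Finset.range 0} = ∅ := by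
    refine Set.eq_empty_of_forall_notMem fun a ha => ?_
    have h3 : a = 0 := by
      rw [← Finsupp.support_eq_empty, ← Finset.subset_empty]
      exact ha.2
    have h4 := hM2 a ha.1
    rw [h3, map_zero] at h4
    omega
  rw [h2, Set.ncard_empty, zero_add, Finset.range_zero, Finset.empty_union] at h1
  exact h1.trans (Finset.sum_le_sum fun b _ => hm b)

/-- The exponents are small. -/
theorem exp_le {M : Set (ℕ →₀ ℕ)}
    (hM : ∀ a ∈ M, ∀ c, c ≤ a → 2 ≤ c.degree → c ∈ M)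
    (hfin : ∀ n, {a : ℕ →₀ ℕ | a ∈ M ∧ ∀ b ∈ a.support, b < n}.Finite) {a : ℕ →₀ ℕ}
    (ha : a ∈ M) (b : ℕ) : a b ≤ mb M b + 1 := by
  classical
  have hfb : {a | a ∈ M ∧ a.support ⊆ Finset.range (b + 1) ∧ b ∈ a.support}.Finite :=
    (hfin (b + 1)).subset fun a ha => ⟨ha.1, fun c hc => Finset.mem_range.1 (ha.2.1 hc)⟩
  have h1 : (((Finset.Icc 2 (a b)).image fun e => Finsupp.single b e : Finset (ℕ →₀ ℕ)) :
      Set (ℕ →₀ ℕ)) ⊆ {a | a ∈ M ∧ a.support ⊆ Finset.range (b + 1) ∧ b ∈ a.support} := by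
    intro c hc
    obtain ⟨e, he, rfl⟩ := Finset.mem_image.1 (Finset.mem_coe.1 hc)
    obtain ⟨he1, he2⟩ := Finset.mem_Icc.1 he
    have hs : (Finsupp.single b e : ℕ →₀ ℕ).support = {b} :=
      Finsupp.support_single _ (by omega)
    refine ⟨hM a ha _ (Finsupp.single_le_iff.2 he2) ?_, ?_, ?_⟩
    · rw [Finsupp.degree_single]
      exact he1
    · rw [hs]
      intro i hi
      rw [Finset.mem_singleton] at hi
      rw [hi]
      exact Finset.mem_range.2 (Nat.lt_succ_self b)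
    · rw [hs]
      exact Finset.mem_singleton_self b
  have h2 := Set.ncard_le_ncard h1 hfb
  rw [Set.ncard_coe_finset, Finset.card_image_of_injective _
    (Finsupp.single_injective b), Nat.card_Icc] at h2
  unfold mb
  omega

/-- General sets of monomials. -/
theorem hmLD_main {lam : ℕ → ℂ} (halg : ∀ i, IsAlgebraic ℚ (Complex.exp (lam i)))
    (hli : LinearIndependent ℚ lam)
    {M : Set (ℕ →₀ ℕ)} (hM2 : ∀ a ∈ M, 2 ≤ a.degree)
    (hM : ∀ a ∈ M, ∀ c, c ≤ a → 2 ≤ c.degree → c ∈ M)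
    (hfin : ∀ n, {a : ℕ →₀ ℕ | a ∈ M ∧ ∀ b ∈ a.support, b < n}.Finite) {m : ℕ → ℕ}
    (hm : ∀ b, mb M b ≤ m b) :
    ∃ H : (b : ℕ) → (Fin b → ℕ → ℚ) → MvPolynomial (Fin (m b + 2 * b + 3)) ℚ,
      (∀ b y, H b y ≠ 0 ∧ (H b y).totalDegree ≤ 1 + (m b + 1) *
        ∑ i ∈ Finset.range (b + 1 + ∑ i ∈ Finset.range (b + 1), m i), m i) ∧
      ∀ x : ℕ → ℕ → ℚ,
        (∀ b, eval (fun t : Fin (m b + 2 * b + 3) => x b t) (H b fun i => x i) ≠ 0) →
        ∀ P : MvPolynomial ℕ Qa, (∀ a ∈ P.support, a ∈ M) →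
          aeval (fun b => ∑ t : Fin (m b + 2 * b + 3), (x b t : ℂ) * lam t) P ∈ Lt → P = 0 := by
  obtain ⟨H, h1, h2⟩ := hmLD_rat halg hli hM2 hM hfin (fun b => m b + 2 * b + 3)
    (fun b => by omega) (fun al => al + NM M (Finset.range al))
    fun al be _ h Q hQ hbe => ⟨Q, Finset.Subset.refl _, by
      refine (countML M hfin hM2 h Q hQ hbe).trans (Finset.sum_le_sum fun b _ => ?_)
      have := hm b
      omega⟩
  refine ⟨H, fun b y => ⟨(h1 b y).1, (h1 b y).2.trans ?_⟩, h2⟩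
  obtain ⟨T, hT⟩ : ∃ T, T = max (b + 1) (b + 1 + NM M (Finset.range (b + 1))) := ⟨_, rfl⟩
  rw [← hT]
  have h3 : T ≤ b + 1 + ∑ i ∈ Finset.range (b + 1), m i := by
    have := NM_range_le hfin hM2 hm (b + 1)
    rw [hT]
    omega
  have h4 : ∑ a ∈ SW M (Finset.range T), a b ≤ (SW M (Finset.range T)).card * (m b + 1) := by
    rw [← smul_eq_mul]
    refine Finset.sum_le_card_nsmul _ _ _ fun a ha => ?_
    exact (exp_le hM hfin ((mem_SW hfin _ a).1 ha).1 b).trans (Nat.add_le_add_right (hm b) 1)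
  rw [card_SW hfin] at h4
  refine Nat.add_le_add_left (h4.trans ?_) 1
  rw [mul_comm]
  refine Nat.mul_le_mul_left _ ((NM_range_le hfin hM2 hm T).trans ?_)
  exact Finset.sum_le_sum_of_subset (Finset.range_subset_range.2 h3)

/-- There is a sequence of natural numbers outside the hypersurfaces. -/
theorem exists_seqN {j d : ℕ → ℕ}
    (H : (b : ℕ) → (Fin b → ℕ → ℚ) → MvPolynomial (Fin (j b)) ℚ)
    (hH : ∀ b y, H b y ≠ 0) (hd : ∀ b y, (H b y).totalDegree ≤ d b) :
    ∃ x : ℕ → ℕ → ℕ, (∀ b t, x b t ≤ d b) ∧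
      ∀ b, eval (fun t : Fin (j b) => (x b t : ℚ)) (H b fun i t => (x i t : ℚ)) ≠ 0 := by
  classical
  have h1 : ∀ (b : ℕ) (y : Fin b → ℕ → ℕ), ∃ x : ℕ → ℕ, (∀ t, x t ≤ d b) ∧
      eval (fun t : Fin (j b) => (x t : ℚ)) (H b fun i t => (y i t : ℚ)) ≠ 0 := by
    intro b y
    by_contra hcon
    push Not at hcon
    refine hH b (fun i t => (y i t : ℚ)) (eq_zero_of_eval_zero_at_prod_finset _
      (fun _ => (Finset.range (d b + 1)).image (Nat.cast : ℕ → ℚ)) (fun i => ?_) fun x hx => ?_)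
    · rw [Finset.card_image_of_injective _ Nat.cast_injective, Finset.card_range]
      exact Nat.lt_succ_of_le ((degreeOf_le_totalDegree _ i).trans (hd b _))
    · have h2 : ∀ i, ∃ n : ℕ, n ≤ d b ∧ (n : ℚ) = x i := by
        intro i
        obtain ⟨n, hn, hn'⟩ := Finset.mem_image.1 (hx i)
        exact ⟨n, Nat.lt_succ_iff.1 (Finset.mem_range.1 hn), hn'⟩
      choose n hn hn' using h2
      rw [← hcon (fun t => if h : t < j b then n ⟨t, h⟩ else 0) fun t => ?_]
      · congr 1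
        congr 1
        funext t
        rw [dif_pos t.2]
        exact (hn' t).symm
      · split_ifs with h
        · exact hn _
        · exact Nat.zero_le _
  choose f hf1 hf using h1
  let x : ℕ → ℕ → ℕ := fun n =>
    Nat.strongRec (motive := fun _ => ℕ → ℕ) (fun b ih => f b fun i => ih i i.2) n
  have hx : ∀ b, x b = f b fun i => x i := by
    intro b
    show Nat.strongRec (motive := fun _ => ℕ → ℕ) (fun b ih => f b fun i => ih i i.2) b = _
    rw [Nat.strongRec_eq]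
  refine ⟨x, fun b t => ?_, fun b => ?_⟩
  · rw [hx b]
    exact hf1 b _ t
  · have h2 := hf b fun i => x i
    rw [← hx b] at h2
    exact h2

/-- Baker's theorem with products: natural coefficients of bounded size. -/
theorem products_nat {lam : ℕ → ℂ} (halg : ∀ i, IsAlgebraic ℚ (Complex.exp (lam i)))
    (hli : LinearIndependent ℚ lam) :
    ∃ x : ℕ → ℕ → ℕ, (∀ b t, x b t ≤ (b + 1) * (b + 2) / 2 + 2) ∧ ∀ u : ℕ → ℂ,
      (∀ b, u b = ∑ t ∈ Finset.range (2 * b + 4), (x b t : ℂ) * lam t) →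
      LinearIndependent Qa (Sum.elim (Sum.elim (fun _ : Unit => (1 : ℂ)) lam)
        fun p : {p : ℕ × ℕ // p.1 ≤ p.2} => u p.1.1 * u p.1.2) := by
  obtain ⟨H, hHd, hH⟩ := hdLD halg hli
  obtain ⟨x, hx1, hx⟩ := exists_seqN (j := fun b => 2 * b + 4)
    (d := fun b => (b + 1) * (b + 2) / 2 + 2) H (fun b y => (hHd b y).1) fun b y => (hHd b y).2
  refine ⟨x, hx1, fun u hu => ?_⟩
  · refine baker_products halg hli fun P hP hPL => ?_
    refine hH (fun b t => (x b t : ℚ)) hx P hP ?_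
    have h1 : (fun b => ∑ t : Fin (2 * b + 4), (((x b t : ℕ) : ℚ) : ℂ) * lam t) = u := by
      funext b
      rw [hu b, Finset.sum_range]
      refine Finset.sum_congr rfl fun t _ => ?_
      rw [Rat.cast_natCast]
    rw [h1]
    exact hPL

/-- Logarithms of distinct primes are linearly independent over the rationals. -/
private theorem log_primes :
    LinearIndependent ℚ (fun p : Nat.Primes => ((Real.log (p : ℕ) : ℝ) : ℂ)) := by
  classical
  rw [← LinearIndependent.iff_fractionRing (R := ℤ) (K := ℚ)]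
  rw [linearIndependent_iff']
  intro s g hg
  have h1 : ∑ p ∈ s, (g p : ℝ) * Real.log (p : ℕ) = 0 := by
    have : ((∑ p ∈ s, (g p : ℝ) * Real.log (p : ℕ) : ℝ) : ℂ) = 0 := by
      rw [← hg]
      push_cast
      refine Finset.sum_congr rfl fun p _ => ?_
      simp
    exact_mod_cast this
  have h2 : ∏ p ∈ s, ((p : ℕ) : ℝ) ^ (g p).toNat = ∏ p ∈ s, ((p : ℕ) : ℝ) ^ (-g p).toNat := by
    apply Real.log_injOn_pos
    · simp only [Set.mem_Ioi]
      exact Finset.prod_pos fun p _ => pow_pos (by exact_mod_cast p.2.pos) _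
    · simp only [Set.mem_Ioi]
      exact Finset.prod_pos fun p _ => pow_pos (by exact_mod_cast p.2.pos) _
    · rw [Real.log_prod, Real.log_prod]
      · rw [← sub_eq_zero, ← Finset.sum_sub_distrib, ← h1]
        refine Finset.sum_congr rfl fun p _ => ?_
        rw [Real.log_pow, Real.log_pow, ← sub_mul]
        congr 1
        have := Int.toNat_sub_toNat_neg (g p)
        exact_mod_cast this
      · intro p _
        exact pow_ne_zero _ (by exact_mod_cast p.2.ne_zero)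
      · intro p _
        exact pow_ne_zero _ (by exact_mod_cast p.2.ne_zero)
  have h3 : ∏ p ∈ s, (p : ℕ) ^ (g p).toNat = ∏ p ∈ s, (p : ℕ) ^ (-g p).toNat := by
    exact_mod_cast h2
  intro q hq
  have h4 := congrArg (fun m => Nat.factorization m (q : ℕ)) h3
  rw [Nat.factorization_prod, Nat.factorization_prod] at h4
  · simp only [Nat.factorization_pow, Finsupp.coe_finsetSum, Finset.sum_apply,
      Finsupp.coe_smul, Pi.smul_apply, smul_eq_mul] at h4
    have h5 : ∀ e : Nat.Primes → ℕ, ∑ p ∈ s, e p * ((p : ℕ).factorization (q : ℕ)) = e q := by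
      intro e
      rw [Finset.sum_eq_single q]
      · rw [q.2.factorization_self, mul_one]
      · intro p _ hpq
        rw [p.2.factorization, Finsupp.single_apply, if_neg, mul_zero]
        intro h
        exact hpq (Subtype.ext h)
      · intro h; exact absurd hq h
    rw [h5, h5] at h4
    omega
  · intro p _
    exact pow_ne_zero _ p.2.ne_zero
  · intro p _
    exact pow_ne_zero _ p.2.ne_zero

/-- Baker's theorem for the primes with products of logarithms of natural numbers. -/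
theorem primes_nat : ∃ x : ℕ → ℕ → ℕ, (∀ b t, x b t ≤ (b + 1) * (b + 2) / 2 + 2) ∧
    ∀ a : ℕ → ℕ, (∀ b, a b = ∏ t ∈ Finset.range (2 * b + 4), Nat.nth Nat.Prime t ^ x b t) →
    LinearIndependent Qa (Sum.elim (Sum.elim (fun _ : Unit => (1 : ℂ))
      fun p : Nat.Primes => Complex.log (p : ℕ))
        fun p : {p : ℕ × ℕ // p.1 ≤ p.2} => Complex.log (a p.1.1) * Complex.log (a p.1.2)) := by
  classical
  have hpos : ∀ t, 0 < Nat.nth Nat.Prime t := fun t => (Nat.prime_nth_prime t).pos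
  have halg : ∀ i, IsAlgebraic ℚ (Complex.exp (Complex.log ((Nat.nth Nat.Prime i : ℕ) : ℂ))) := by
    intro i
    rw [Complex.exp_log (Nat.cast_ne_zero.2 (hpos i).ne')]
    exact isAlgebraic_natCast _
  have hlog : ∀ n : ℕ, Complex.log ((n : ℕ) : ℂ) = ((Real.log (n : ℕ) : ℝ) : ℂ) := fun n =>
    (Complex.natCast_log (n := n)).symm
  have hli : LinearIndependent ℚ fun i => Complex.log ((Nat.nth Nat.Prime i : ℕ) : ℂ) := by
    have h1 := log_primes.comp (fun i : ℕ => (⟨Nat.nth Nat.Prime i, Nat.prime_nth_prime i⟩ :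
      Nat.Primes)) fun i i' h => Nat.nth_injective Nat.infinite_setOfPred_prime
        (congrArg (fun p : Nat.Primes => (p : ℕ)) h)
    have h2 : (fun i => Complex.log ((Nat.nth Nat.Prime i : ℕ) : ℂ)) =
        (fun p : Nat.Primes => ((Real.log (p : ℕ) : ℝ) : ℂ)) ∘
          (fun i : ℕ => (⟨Nat.nth Nat.Prime i, Nat.prime_nth_prime i⟩ : Nat.Primes)) := by
      funext i
      exact hlog _
    rw [h2]
    exact h1
  obtain ⟨x, hx1, hx⟩ := products_nat halg hli
  refine ⟨x, hx1, fun a ha => ?_⟩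
  have ha1 : ∀ b, Real.log (a b) = ∑ t ∈ Finset.range (2 * b + 4),
      (x b t : ℝ) * Real.log (Nat.nth Nat.Prime t) := by
    intro b
    rw [ha b, Nat.cast_prod, Real.log_prod]
    · refine Finset.sum_congr rfl fun t _ => ?_
      rw [Nat.cast_pow, Real.log_pow]
    · intro t _
      exact Nat.cast_ne_zero.2 (pow_pos (hpos t) _).ne'
  have h1 := hx (fun b => Complex.log (a b)) fun b => by
    rw [hlog, ha1 b]
    push_cast
    refine Finset.sum_congr rfl fun t _ => ?_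
    rw [hlog]
  have h2 := h1.comp (Sum.map (Sum.map id fun p : Nat.Primes => Nat.count Nat.Prime (p : ℕ)) id)
    (Sum.map_injective.2 ⟨Sum.map_injective.2 ⟨Function.injective_id, fun p q h => ?_⟩,
      Function.injective_id⟩)
  · have h3 : (Sum.elim (Sum.elim (fun _ : Unit => (1 : ℂ))
        fun p : Nat.Primes => Complex.log (p : ℕ))
        fun p : {p : ℕ × ℕ // p.1 ≤ p.2} => Complex.log (a p.1.1) * Complex.log (a p.1.2)) =
        (Sum.elim (Sum.elim (fun _ : Unit => (1 : ℂ))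
          fun i => Complex.log ((Nat.nth Nat.Prime i : ℕ) : ℂ))
          fun p : {p : ℕ × ℕ // p.1 ≤ p.2} => Complex.log (a p.1.1) * Complex.log (a p.1.2)) ∘
          (Sum.map (Sum.map id fun p : Nat.Primes => Nat.count Nat.Prime (p : ℕ)) id) := by
      funext i
      rcases i with ((i | p) | i)
      · rfl
      · show Complex.log ((p : ℕ) : ℂ) =
          Complex.log ((Nat.nth Nat.Prime (Nat.count Nat.Prime (p : ℕ)) : ℕ) : ℂ)
        rw [Nat.nth_count p.2]
      · rfl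
    rw [h3]
    exact h2
  · exact Subtype.ext (Nat.count_injective p.2 q.2 h)

end MP60829e.HD
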