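import Pool.Agent.Lib.MP_60829e_nt.HD.Defs

/-! # Polynomials which are invariant under translations -/

open MvPolynomial Module

namespace MP60829e.HD

open MP60829e.ST (Qa Lsp Lt)
open MP60829e.SB

/-- The chain rule along a line. -/
private theorem line_deriv {n : ℕ} (F : MvPolynomial (Fin n) ℂ) (x d : Fin n → ℂ) :
    Polynomial.derivative (aeval (fun i => Polynomial.C (x i) + Polynomial.C (d i) * Polynomial.X) F) =
      aeval (fun i => Polynomial.C (x i) + Polynomial.C (d i) * Polynomial.X)
        (∑ i, C (d i) * pderiv i F) := by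
  classical
  induction F using MvPolynomial.induction_on with
  | C a =>
    have h1 : (aeval (fun i => Polynomial.C (x i) + Polynomial.C (d i) * Polynomial.X)
        (C a : MvPolynomial (Fin n) ℂ) : Polynomial ℂ) = Polynomial.C a := algHom_C _ a
    rw [h1, Polynomial.derivative_C]
    simp
  | add p q hp hq =>
    rw [map_add, Polynomial.derivative_add, hp, hq, ← map_add, ← Finset.sum_add_distrib]
    congr 1
    refine Finset.sum_congr rfl fun i _ => ?_
    rw [map_add, mul_add]
  | mul_X p i0 hp =>
    rw [map_mul, aeval_X, Polynomial.derivative_mul, hp]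
    have h1 : Polynomial.derivative (Polynomial.C (x i0) + Polynomial.C (d i0) * Polynomial.X) =
        Polynomial.C (d i0) := by simp
    rw [h1]
    have h2 : ∑ i, C (d i) * pderiv i (p * X i0) =
        (∑ i, C (d i) * pderiv i p) * X i0 + p * C (d i0) := by
      have h3 : ∀ i, C (d i) * pderiv i (p * X i0) =
          C (d i) * pderiv i p * X i0 + (if i = i0 then p * C (d i0) else 0) := by
        intro i
        rw [pderiv_mul, pderiv_X]
        by_cases h : i = i0
        · subst h
          rw [if_pos rfl, Pi.single_eq_same]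
          ring
        · rw [if_neg h, Pi.single_eq_of_ne (Ne.symm h)]
          ring
      rw [Finset.sum_congr rfl fun i _ => h3 i, Finset.sum_add_distrib, Finset.sum_ite_eq',
        if_pos (Finset.mem_univ i0), Finset.sum_mul]
    rw [h2, map_add, map_mul, map_mul, aeval_X]
    have h4 : (aeval (fun i => Polynomial.C (x i) + Polynomial.C (d i) * Polynomial.X)
        (C (d i0) : MvPolynomial (Fin n) ℂ) : Polynomial ℂ) = Polynomial.C (d i0) := algHom_C _ _
    rw [h4]

private theorem line_eval {n : ℕ} (F : MvPolynomial (Fin n) ℂ) (x d : Fin n → ℂ) (t : ℂ) :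
    Polynomial.eval t (aeval (fun i => Polynomial.C (x i) +
      Polynomial.C (d i) * Polynomial.X) F) = eval (fun i => x i + d i * t) F := by
  induction F using MvPolynomial.induction_on with
  | C a =>
    have h1 : (aeval (fun i => Polynomial.C (x i) + Polynomial.C (d i) * Polynomial.X)
        (C a : MvPolynomial (Fin n) ℂ) : Polynomial ℂ) = Polynomial.C a := algHom_C _ a
    rw [h1, Polynomial.eval_C, eval_C]
  | add p q hp hq => rw [map_add, Polynomial.eval_add, hp, hq, map_add]
  | mul_X p i0 hp => rw [map_mul, Polynomial.eval_mul, hp, aeval_X, map_mul, eval_X]; simp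

/-- A polynomial with zero derivative in the direction `d` is invariant under `d`. -/
theorem eval_add_of_tangent {n : ℕ} (F : MvPolynomial (Fin n) ℂ) (x d : Fin n → ℂ)
    (h : ∑ i, C (d i) * pderiv i F = 0) : eval (fun i => x i + d i) F = eval x F := by
  have h1 := line_deriv F x d
  rw [h, map_zero] at h1
  have h2 := Polynomial.eq_C_of_derivative_eq_zero h1
  have h4 := line_eval F x d 1
  have h5 := line_eval F x d 0
  rw [h2, Polynomial.eval_C] at h4 h5
  simp only [mul_one, mul_zero, add_zero] at h4 h5
  rw [← h4, ← h5]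

/-- The support condition. -/
def SuppIn (M : Set (ℕ →₀ ℕ)) (n : ℕ) (P : MvPolynomial ℕ Qa) : Prop :=
  ∀ a ∈ P.support, a ∈ M ∧ ∀ b ∈ a.support, b < n

/-- The point `x` extended by zero. -/
noncomputable def ext {n : ℕ} (x : Fin n → ℂ) (i : ℕ) : ℂ := if h : i < n then x ⟨i, h⟩ else 0

/-- A polynomial over `Qa` in the variables `X_i` as a complex polynomial in `X_i`, `i < n`. -/
noncomputable def Psi (n : ℕ) : MvPolynomial ℕ Qa →ₐ[Qa] MvPolynomial (Fin n) ℂ :=
  aeval fun i : ℕ => if h : i < n then X ⟨i, h⟩ else 0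

theorem eval_Psi {n : ℕ} (q : MvPolynomial ℕ Qa) (x : Fin n → ℂ) :
    eval x (Psi n q) = aeval (ext x) q := by
  induction q using MvPolynomial.induction_on with
  | C a =>
    have h1 : Psi n (C a) = algebraMap Qa _ a := by unfold Psi; rw [algHom_C]
    have h2 : aeval (ext x) (C a : MvPolynomial ℕ Qa) = algebraMap Qa ℂ a := algHom_C _ _
    have h3 : algebraMap Qa (MvPolynomial (Fin n) ℂ) a = C (algebraMap Qa ℂ a) := rfl
    rw [h1, h2, h3, eval_C]
  | add p q hp hq => rw [map_add, map_add, map_add, hp, hq]
  | mul_X p i hp =>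
    rw [map_mul, map_mul, map_mul, hp, aeval_X]
    congr 1
    unfold Psi ext
    rw [aeval_X]
    by_cases h : i < n
    · rw [dif_pos h, dif_pos h, eval_X]
    · rw [dif_neg h, dif_neg h, map_zero]

theorem pderiv_Psi {n : ℕ} (q : MvPolynomial ℕ Qa) (i : Fin n) :
    pderiv i (Psi n q) = Psi n (pderiv i.1 q) := by
  classical
  induction q using MvPolynomial.induction_on with
  | C a =>
    have h1 : Psi n (C a) = C (algebraMap Qa ℂ a) := by unfold Psi; rw [algHom_C]; rfl
    rw [h1, pderiv_C, pderiv_C, map_zero]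
  | add p q hp hq => rw [map_add, map_add, map_add, map_add, hp, hq]
  | mul_X p i0 hp =>
    rw [map_mul, pderiv_mul, pderiv_mul, map_add, map_mul, map_mul, hp]
    congr 2
    rw [pderiv_X]
    unfold Psi
    rw [aeval_X]
    by_cases h : i0 < n
    · rw [dif_pos h, pderiv_X]
      by_cases h' : i0 = i.1
      · subst h'
        rw [Pi.single_eq_same, Pi.single_eq_same, map_one]
      · rw [Pi.single_eq_of_ne (M := fun _ => MvPolynomial ℕ Qa) h', map_zero,
          Pi.single_eq_of_ne]
        intro h2
        exact h' (congrArg Fin.val h2)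
    · rw [dif_neg h, map_zero, Pi.single_eq_of_ne, map_zero]
      intro h2
      exact h (h2 ▸ i.2)

/-- The derivatives of two polynomials with the same values agree. -/
theorem pderiv_eq {ζ : Type} {n : ℕ} (z : ζ → Qa) (F : MvPolynomial (ζ ⊕ Fin n) ℂ)
    (q : MvPolynomial ℕ Qa) (h : ∀ x, eval (pv z x) F = aeval (ext x) q) (x : Fin n → ℂ)
    (i : Fin n) : eval (pv z x) (pderiv (Sum.inr i) F) = aeval (ext x) (pderiv i.1 q) := by
  classical
  obtain ⟨φ, hφ⟩ : ∃ φ : MvPolynomial (ζ ⊕ Fin n) ℂ →ₐ[ℂ] MvPolynomial (Fin n) ℂ,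
      φ = aeval (Sum.elim (fun t => (C ((z t : Qa) : ℂ) : MvPolynomial (Fin n) ℂ)) X) := ⟨_, rfl⟩
  have h1 : ∀ (G : MvPolynomial (ζ ⊕ Fin n) ℂ) (y : Fin n → ℂ),
      eval y (φ G) = eval (pv z y) G := by
    intro G y
    induction G using MvPolynomial.induction_on with
    | C a => rw [algHom_C, algebraMap_eq, eval_C, eval_C]
    | add p q hp hq => rw [map_add, map_add, map_add, hp, hq]
    | mul_X p s hp =>
      rw [map_mul, map_mul, map_mul, hp, hφ, aeval_X, eval_X]
      rcases s with t | t
      · rw [Sum.elim_inl, eval_C]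
        rfl
      · rw [Sum.elim_inr, eval_X]
        rfl
  have h2 : ∀ G : MvPolynomial (ζ ⊕ Fin n) ℂ, φ (pderiv (Sum.inr i) G) = pderiv i (φ G) := by
    intro G
    induction G using MvPolynomial.induction_on with
    | C a => rw [pderiv_C, map_zero, algHom_C, algebraMap_eq, pderiv_C]
    | add p q hp hq => rw [map_add, map_add, map_add, map_add, hp, hq]
    | mul_X p s hp =>
      rw [pderiv_mul, map_add, map_mul, map_mul, map_mul, pderiv_mul, hp]
      congr 2
      rw [hφ, aeval_X, pderiv_X]
      rcases s with t | t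
      · rw [Sum.elim_inl, pderiv_C, Pi.single_eq_of_ne (by simp), map_zero]
      · rw [Sum.elim_inr, pderiv_X]
        by_cases h3 : t = i
        · subst h3
          rw [Pi.single_eq_same, Pi.single_eq_same, map_one]
        · rw [Pi.single_eq_of_ne (M := fun _ => MvPolynomial (Fin n) ℂ) h3,
            Pi.single_eq_of_ne, map_zero]
          intro h4
          exact h3 (Sum.inr_injective h4)
  have h3 : φ F = Psi n q := by
    refine MvPolynomial.funext fun y => ?_
    rw [h1, h, eval_Psi]
  rw [← h1, h2, h3, pderiv_Psi, eval_Psi]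

end MP60829e.HD
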