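import Pool.Agent.Lib.MP_60829e_nt.HD.Form

/-! # The data of a point which is not free -/

open MvPolynomial

namespace MP60829e.HD

open MP60829e.ST (Qa Lsp Lt)
open MP60829e.SB

theorem coe_inj {c : Qa} (h : c ≠ 0) : (c : ℂ) ≠ 0 := by
  intro h1
  exact h (Subtype.ext h1)

/-- A polynomial over `Qa` which vanishes at all complex points is zero. -/
theorem eq_zero_of_aeval {q : MvPolynomial ℕ Qa} (h : ∀ y : ℕ → ℂ, aeval y q = 0) :
    q = 0 := by
  have h1 : map (algebraMap Qa ℂ) q = 0 := by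
    refine MvPolynomial.funext fun y => ?_
    rw [map_zero, eval_map, ← aeval_def]
    exact h y
  exact (map_eq_zero_iff _ (map_injective _ (algebraMap Qa ℂ).injective)).1 h1

theorem struct {M : Set (ℕ →₀ ℕ)} (hM : IsLowerSet M)
    (hfin : ∀ n, {a : ℕ →₀ ℕ | a ∈ M ∧ ∀ b ∈ a.support, b < n}.Finite) {al be : ℕ}
    (hab : al ≤ be) (x : ℕ → ℂ) (h1 : Free M be x) (h2 : ¬ Free M (be + 1) x) :
    ∃ Q ⊆ Finset.Ico al (be + 1), be ∈ Q ∧ ∃ a0 ∈ SW M (Finset.range al ∪ Q),
      ∃ z : ZI (PR al Q) ((SW M (Finset.range al ∪ Q)).erase a0) → Qa,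
        eval (pv z fun i : Fin (be + 1) => x i.1) (GG (PR al Q)
          ((SW M (Finset.range al ∪ Q)).erase a0) (be + 1) a0) = 0 ∧
        LinearIndependent Qa fun i : {i : Fin (be + 1) // i.1 ∈ Q} =>
          eval (pv z fun i : Fin (be + 1) => x i.1) (pderiv (Sum.inr i.1) (GG (PR al Q)
            ((SW M (Finset.range al ∪ Q)).erase a0) (be + 1) a0)) := by
  classical
  obtain ⟨q, hq0, hq1, hq2, hq3⟩ := exists_min h2
  have hlast : aeval x (pderiv be q) ≠ 0 := by
    intro h3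
    have h4 := hq3 _ (suppIn_pderiv hM hq1 be) h3 (deg_pderiv be)
    exact hq0 (h1 q (suppIn_of_pderiv hq1 h4) hq2)
  obtain ⟨Q, hQ1, hQ2, hQ3, hQ4⟩ := echelon (fun b => aeval x (pderiv b q)) (be + 1)
    (be + 1 - al) al (by omega)
  have hbeQ : be ∈ Q := hQ4 be rfl hab hlast
  -- the coefficients
  have h3 : ∀ b, ∃ ρ : ℕ → Qa, b ∈ Finset.Ico al (be + 1) → b ∉ Q →
      ∑ c ∈ Q.filter (b < ·), ρ c • aeval x (pderiv c q) = aeval x (pderiv b q) := by
    intro b
    by_cases h4 : b ∈ Finset.Ico al (be + 1) ∧ b ∉ Q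
    · obtain ⟨ρ, hρ⟩ := hQ3 b h4.1 h4.2
      exact ⟨ρ, fun _ _ => hρ⟩
    · exact ⟨0, fun h5 h6 => absurd ⟨h5, h6⟩ h4⟩
  choose ρ hρ using h3
  have hρ' : ∀ b ∈ Finset.Ico al (be + 1), b ∉ Q →
      pderiv b q = ∑ c ∈ Q.filter (b < ·), C (ρ b c) * pderiv c q := by
    intro b hb hbQ
    rw [← sub_eq_zero]
    refine hq3 _ ?_ ?_ ?_
    · intro a ha
      by_contra hcon
      rw [mem_support_iff] at ha
      refine ha ?_
      rw [coeff_sub, coeff_sum]
      have h4 : ∀ c, coeff a (pderiv c q) = 0 := by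
        intro c
        by_contra h5
        exact hcon (suppIn_pderiv hM hq1 c a (mem_support_iff.2 h5))
      rw [h4, Finset.sum_eq_zero, sub_zero]
      intro c _
      rw [coeff_C_mul, h4, mul_zero]
    · rw [map_sub, sub_eq_zero, map_sum, ← hρ b hb hbQ]
      refine Finset.sum_congr rfl fun c _ => ?_
      rw [map_mul, algHom_C, Algebra.smul_def]
    · by_cases h4 : pderiv b q - ∑ c ∈ Q.filter (b < ·), C (ρ b c) * pderiv c q = 0
      · exact Or.inl h4
      · refine Or.inr ?_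
        have hpos : 0 < q.totalDegree := by
          rcases deg_pderiv (q := q) be with h5 | h5
          · rw [h5, map_zero] at hlast
            exact absurd rfl hlast
          · omega
        have hd : ∀ c, (pderiv c q).totalDegree < q.totalDegree := by
          intro c
          rcases deg_pderiv (q := q) c with h5 | h5
          · rw [h5, totalDegree_zero]
            exact hpos
          · exact h5
        have hsum : (∑ c ∈ Q.filter (b < ·), C (ρ b c) * pderiv c q).totalDegree <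
            q.totalDegree := by
          refine lt_of_le_of_lt (totalDegree_finsetSum _ _) ?_
          rw [Finset.sup_lt_iff (by exact hpos)]
          intro c _
          refine lt_of_le_of_lt (totalDegree_mul _ _) ?_
          rw [totalDegree_C, zero_add]
          exact hd c
        exact lt_of_le_of_lt (totalDegree_sub _ _) (max_lt (hd b) hsum)
  -- the form
  have hform := fun (S : Finset (ℕ →₀ ℕ)) (z : ZI (PR al Q) S → Qa)
    (hz : ∀ p, z (Sum.inl p) = ρ p.1.2 p.1.1) (y : Fin (be + 1) → ℂ) =>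
      form hfin hq1 hQ1 ρ hρ' z hz y
  -- the coefficient a0
  obtain ⟨a0, ha0, ha0'⟩ : ∃ a0 ∈ SW M (Finset.range al ∪ Q), coeff a0 q ≠ 0 := by
    by_contra hcon
    push Not at hcon
    refine hq0 (eq_zero_of_aeval fun y => ?_)
    have h4 : aeval y q = aeval (ext fun i : Fin (be + 1) => y i.1) q := by
      refine aeval_congr hq1 fun i hi => ?_
      unfold ext
      rw [dif_pos hi]
    rw [h4, hform ∅ (Sum.elim (fun p => ρ p.1.2 p.1.1) fun _ => 0) (fun p => rfl)]
    refine Finset.sum_eq_zero fun a ha => ?_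
    rw [hcon a ha]
    have h5 : (((0 : Qa) : Qa) : ℂ) = 0 := map_zero (algebraMap Qa ℂ)
    rw [h5, zero_mul]
  refine ⟨Q, hQ1, hbeQ, a0, ha0, Sum.elim (fun p => ρ p.1.2 p.1.1)
    (fun a => (coeff a0 q)⁻¹ * coeff a.1 q), ?_⟩
  obtain ⟨z, hz⟩ : ∃ z : ZI (PR al Q) ((SW M (Finset.range al ∪ Q)).erase a0) → Qa,
      z = Sum.elim (fun p => ρ p.1.2 p.1.1) (fun a => (coeff a0 q)⁻¹ * coeff a.1 q) := ⟨_, rfl⟩
  rw [← hz]
  have hz1 : ∀ p, z (Sum.inl p) = ρ p.1.2 p.1.1 := fun p => by rw [hz]; rfl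
  have hz2 : ∀ a, z (Sum.inr a) = (coeff a0 q)⁻¹ * coeff a.1 q := fun a => by rw [hz]; rfl
  have hc0 : ((coeff a0 q : Qa) : ℂ) ≠ 0 := coe_inj ha0'
  have hval : ∀ y : Fin (be + 1) → ℂ, eval (pv z y) (GG (PR al Q)
      ((SW M (Finset.range al ∪ Q)).erase a0) (be + 1) a0) =
      aeval (ext y) (C (coeff a0 q)⁻¹ * q) := by
    intro y
    rw [eval_GG, map_mul, algHom_C, hform _ z hz1 y, ← Finset.add_sum_erase _ _ ha0, mul_add]
    have h5 : algebraMap Qa ℂ (coeff a0 q)⁻¹ = ((coeff a0 q : Qa) : ℂ)⁻¹ := by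
      rw [map_inv₀]
      rfl
    rw [h5, inv_mul_cancel_left₀ hc0, Finset.mul_sum]
    congr 1
    rw [← Finset.sum_coe_sort ((SW M (Finset.range al ∪ Q)).erase a0)
      (fun a => ((coeff a0 q : Qa) : ℂ)⁻¹ * (((coeff a q : Qa) : ℂ) * mon a (yy z y)))]
    refine Finset.sum_congr rfl fun a _ => ?_
    rw [hz2, ← mul_assoc]
    rfl
  have hx : ∀ P : MvPolynomial ℕ Qa, SuppIn M (be + 1) P →
      aeval (ext fun i : Fin (be + 1) => x i.1) P = aeval x P := by
    intro P hP
    refine aeval_congr hP fun i hi => ?_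
    unfold ext
    rw [dif_pos hi]
  refine ⟨?_, ?_⟩
  · rw [hval, map_mul, hx q hq1, hq2, mul_zero]
  · have h5 : (fun i : {i : Fin (be + 1) // i.1 ∈ Q} =>
        eval (pv z fun i : Fin (be + 1) => x i.1) (pderiv (Sum.inr i.1) (GG (PR al Q)
          ((SW M (Finset.range al ∪ Q)).erase a0) (be + 1) a0))) =
        fun i => (coeff a0 q)⁻¹ • aeval x (pderiv i.1.1 q) := by
      funext i
      rw [pderiv_eq z _ _ hval, pderiv_mul, pderiv_C, zero_mul, zero_add, map_mul, algHom_C,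
        hx _ (suppIn_pderiv hM hq1 _), Algebra.smul_def]
    rw [h5]
    have h6 : LinearIndependent Qa fun i : {i : Fin (be + 1) // i.1 ∈ Q} =>
        aeval x (pderiv i.1.1 q) := by
      have h7 : LinearIndependent Qa fun i : (Q : Set ℕ) => aeval x (pderiv i.1 q) := hQ2
      refine h7.comp (fun i : {i : Fin (be + 1) // i.1 ∈ Q} => (⟨i.1.1, i.2⟩ : (Q : Set ℕ))) ?_
      intro i j hij
      have h8 := congrArg Subtype.val hij
      exact Subtype.ext (Fin.ext h8)
    exact h6.units_smul fun _ => Units.mk0 _ (inv_ne_zero ha0')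

end MP60829e.HD
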