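import Pool.Agent.Lib.MP_60829e_nt.HD.Struct
import Pool.Agent.Lib.MP_60829e_nt.HD.DefsL

/-! # Values in the space of the linear forms in logarithms: the structure of a minimal relation -/

open MvPolynomial

namespace MP60829e.HD

open MP60829e.ST (Qa Lsp Lt)
open MP60829e.SB

/-- The monomials of degree at most one. -/
def M1 : Set (ℕ →₀ ℕ) := {a | a.degree ≤ 1}

theorem Lsp_le_Lt : Lsp ≤ Lt := Submodule.span_mono fun _ h => Or.inr h

theorem one_mem_Lt : (1 : ℂ) ∈ Lt := Submodule.subset_span (Or.inl rfl)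

/-- The support condition for derivatives. -/
def SuppD (M : Set (ℕ →₀ ℕ)) (n : ℕ) (P : MvPolynomial ℕ Qa) : Prop :=
  ∀ a ∈ P.support, 1 ≤ a.degree ∧ (2 ≤ a.degree → a ∈ M) ∧ ∀ b ∈ a.support, b < n

private theorem suppD_pderiv {M : Set (ℕ →₀ ℕ)} (hM2 : ∀ a ∈ M, 2 ≤ a.degree)
    (hM : ∀ a ∈ M, ∀ b ≤ a, 2 ≤ b.degree → b ∈ M) {n : ℕ} {q : MvPolynomial ℕ Qa}
    (h : SuppIn M n q) (i : ℕ) : SuppD M n (pderiv i q) := by
  classical
  intro a ha
  rw [mem_support_iff, coeff_pderiv] at ha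
  have h1 : a + Finsupp.single i 1 ∈ q.support := by
    rw [mem_support_iff]
    exact left_ne_zero_of_mul ha
  obtain ⟨h2, h3⟩ := h _ h1
  refine ⟨?_, fun h4 => hM _ h2 _ (self_le_add_right _ _) h4, fun b hb => h3 b ?_⟩
  · have h4 := hM2 _ h2
    rw [map_add, Finsupp.degree_single] at h4
    omega
  · rw [Finsupp.mem_support_iff] at hb ⊢
    rw [Finsupp.add_apply]
    omega

/-- A monomial of degree at most one has its value in `Lt`. -/
private theorem mon_mem {n : ℕ} {x : ℕ → ℂ} (hx : ∀ i < n, x i ∈ Lsp) {a : ℕ →₀ ℕ}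
    (ha : a.degree < 2) (hn : ∀ b ∈ a.support, b < n) : mon a x ∈ Lt := by
  classical
  by_cases h0 : a = 0
  · subst h0
    have h1 : mon (0 : ℕ →₀ ℕ) x = 1 := by
      unfold mon
      rw [Finsupp.support_zero, Finset.prod_empty]
    rw [h1]
    exact one_mem_Lt
  · obtain ⟨i, hi⟩ : ∃ i, a i ≠ 0 := by
      by_contra hcon
      push Not at hcon
      exact h0 (Finsupp.ext hcon)
    have hle : Finsupp.single i 1 ≤ a := Finsupp.single_le_iff.2 (Nat.one_le_iff_ne_zero.2 hi)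
    obtain ⟨c, hc⟩ : ∃ c, a = c + Finsupp.single i 1 := ⟨a - Finsupp.single i 1,
      (tsub_add_cancel_of_le hle).symm⟩
    have hc0 : c = 0 := by
      have h1 : a.degree = c.degree + 1 := by rw [hc, map_add, Finsupp.degree_single]
      have h2 : c.degree = 0 := by omega
      exact (Finsupp.degree_eq_zero_iff c).1 h2
    rw [hc0, zero_add] at hc
    have h1 : mon a x = x i := by
      unfold mon
      rw [hc, Finsupp.support_single _ one_ne_zero, Finset.prod_singleton,
        Finsupp.single_eq_same, pow_one]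
    rw [h1]
    exact Lsp_le_Lt (hx i (hn i (Finsupp.mem_support_iff.2 hi)))

/-- The part of `P` of degree at least two. -/
private noncomputable def hi (P : MvPolynomial ℕ Qa) : MvPolynomial ℕ Qa :=
  ∑ a ∈ P.support.filter (fun a => 2 ≤ a.degree), monomial a (coeff a P)

private theorem coeff_hi (P : MvPolynomial ℕ Qa) (a : ℕ →₀ ℕ) :
    coeff a (hi P) = if 2 ≤ a.degree then coeff a P else 0 := by
  classical
  unfold hi
  rw [coeff_sum]
  simp only [coeff_monomial]
  rw [Finset.sum_ite_eq' _ a]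
  by_cases h : 2 ≤ a.degree
  · rw [if_pos h]
    by_cases h1 : a ∈ P.support
    · rw [if_pos (Finset.mem_filter.2 ⟨h1, h⟩)]
    · rw [if_neg (fun h2 => h1 (Finset.mem_filter.1 h2).1)]
      exact (notMem_support_iff.1 h1).symm
  · rw [if_neg (fun h2 : a ∈ P.support.filter (fun a => 2 ≤ a.degree) =>
      h (Finset.mem_filter.1 h2).2), if_neg h]

/-- The key lemma. -/
private theorem key {M : Set (ℕ →₀ ℕ)} {n : ℕ} {x : ℕ → ℂ} (hx : ∀ i < n, x i ∈ Lsp)
    (h1 : Free M1 n x) {q : MvPolynomial ℕ Qa}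
    (hmin : ∀ P : MvPolynomial ℕ Qa, SuppIn M n P → aeval x P ∈ Lt →
      (P = 0 ∨ P.totalDegree < q.totalDegree) → P = 0)
    {P : MvPolynomial ℕ Qa} (hP : SuppD M n P) {c : Qa} (hc : aeval x P = (c : ℂ))
    (hdeg : P = 0 ∨ P.totalDegree < q.totalDegree) : P = 0 ∧ c = 0 := by
  classical
  have hlow : aeval x (P - hi P) ∈ Lt := by
    rw [aeval_mon]
    refine Submodule.sum_mem _ fun a ha => ?_
    rw [mem_support_iff, coeff_sub, coeff_hi] at ha
    by_cases h2 : 2 ≤ a.degree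
    · rw [if_pos h2, sub_self] at ha
      exact absurd rfl ha
    · rw [if_neg h2, sub_zero] at ha
      exact Submodule.smul_mem _ (coeff a (P - hi P)) (mon_mem hx (not_le.1 h2)
        (hP a (mem_support_iff.2 ha)).2.2)
  have hval : aeval x (hi P) ∈ Lt := by
    have h2 : aeval x (hi P) = aeval x P - aeval x (P - hi P) := by rw [map_sub]; ring
    rw [h2, hc]
    refine Submodule.sub_mem _ ?_ hlow
    have h3 : (c : ℂ) = c • (1 : ℂ) := by rw [Algebra.smul_def, mul_one]; rfl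
    rw [h3]
    exact Submodule.smul_mem _ _ one_mem_Lt
  have hsub : (hi P).support ⊆ P.support := by
    intro a ha
    rw [mem_support_iff, coeff_hi] at ha
    rw [mem_support_iff]
    intro h2
    rw [h2, ite_self] at ha
    exact ha rfl
  have hhi : hi P = 0 := by
    refine hmin _ (fun a ha => ?_) hval ?_
    · have h2 := hP a (hsub ha)
      rw [mem_support_iff, coeff_hi] at ha
      have h3 : 2 ≤ a.degree := by
        by_contra h3
        rw [if_neg h3] at ha
        exact ha rfl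
      exact ⟨h2.2.1 h3, h2.2.2⟩
    · rcases hdeg with h2 | h2
      · left
        have h5 : P.support = ∅ := by rw [h2, support_zero]
        exact support_eq_empty.1 (Finset.subset_empty.1 (hsub.trans h5.le))
      · exact Or.inr (lt_of_le_of_lt (totalDegree_le_of_support_subset hsub) h2)
  have hdeg2 : ∀ a ∈ P.support, a.degree < 2 := by
    intro a ha
    by_contra h2
    have h3 := coeff_hi P a
    rw [hhi, coeff_zero, if_pos (not_lt.1 h2)] at h3
    exact (mem_support_iff.1 ha) h3.symm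
  have h2 : P - C c = 0 := by
    refine h1 _ (fun a ha => ?_) ?_
    · by_cases h3 : a = 0
      · subst h3
        refine ⟨?_, fun b hb => ?_⟩
        · show (0 : ℕ →₀ ℕ).degree ≤ 1
          rw [map_zero]
          omega
        · rw [Finsupp.support_zero] at hb
          exact absurd hb (Finset.notMem_empty b)
      · rw [mem_support_iff, coeff_sub, coeff_C, if_neg (Ne.symm h3), sub_zero] at ha
        have h4 := mem_support_iff.2 ha
        refine ⟨?_, (hP a h4).2.2⟩
        have h5 := hdeg2 a h4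
        show a.degree ≤ 1
        omega
    · rw [map_sub, hc, algHom_C]
      exact sub_self _
  have h3 := sub_eq_zero.1 h2
  have h4 : c = 0 := by
    have h5 : coeff 0 P = 0 := by
      by_contra h6
      have h7 := (hP 0 (mem_support_iff.2 h6)).1
      rw [map_zero] at h7
      omega
    rw [h3, coeff_C, if_pos rfl] at h5
    exact h5
  refine ⟨?_, h4⟩
  rw [h3, h4, C_0]

private theorem exists_minL {M : Set (ℕ →₀ ℕ)} {n : ℕ} {x : ℕ → ℂ} (h : ¬ FreeL M n x) :
    ∃ q : MvPolynomial ℕ Qa, q ≠ 0 ∧ SuppIn M n q ∧ aeval x q ∈ Lt ∧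
      ∀ P : MvPolynomial ℕ Qa, SuppIn M n P → aeval x P ∈ Lt →
        (P = 0 ∨ P.totalDegree < q.totalDegree) → P = 0 := by
  classical
  have h1 : ∃ d : ℕ, ∃ q : MvPolynomial ℕ Qa, q ≠ 0 ∧ SuppIn M n q ∧ aeval x q ∈ Lt ∧
      q.totalDegree = d := by
    by_contra hcon
    refine h fun P hP hx => ?_
    by_contra hne
    exact hcon ⟨_, P, hne, hP, hx, rfl⟩
  obtain ⟨q, hq0, hq1, hq2, hq3⟩ := Nat.find_spec h1
  refine ⟨q, hq0, hq1, hq2, fun P hP1 hP2 hP3 => ?_⟩
  by_contra hne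
  have h2 := hP3.resolve_left hne
  rw [hq3] at h2
  exact Nat.find_min h1 h2 ⟨P, hne, hP1, hP2, rfl⟩

theorem structL {M : Set (ℕ →₀ ℕ)} (hM2 : ∀ a ∈ M, 2 ≤ a.degree)
    (hM : ∀ a ∈ M, ∀ b ≤ a, 2 ≤ b.degree → b ∈ M)
    (hfin : ∀ n, {a : ℕ →₀ ℕ | a ∈ M ∧ ∀ b ∈ a.support, b < n}.Finite) {al be : ℕ}
    (hab : al ≤ be) (x : ℕ → ℂ) (hx : ∀ i < be + 1, x i ∈ Lsp) (h0 : Free M1 (be + 1) x)
    (h1 : FreeL M be x) (h2 : ¬ FreeL M (be + 1) x) :
    ∃ Q ⊆ Finset.Ico al (be + 1), be ∈ Q ∧ ∃ a0 ∈ SW M (Finset.range al ∪ Q),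
      ∃ z : ZI (PR al Q) ((SW M (Finset.range al ∪ Q)).erase a0) → Qa,
        eval (pv z fun i : Fin (be + 1) => x i.1) (GG (PR al Q)
          ((SW M (Finset.range al ∪ Q)).erase a0) (be + 1) a0) ∈ Lt ∧
        LinearIndependent Qa fun o : Option {i : Fin (be + 1) // i.1 ∈ Q} => o.elim (1 : ℂ) fun i =>
          eval (pv z fun i : Fin (be + 1) => x i.1) (pderiv (Sum.inr i.1) (GG (PR al Q)
            ((SW M (Finset.range al ∪ Q)).erase a0) (be + 1) a0)) := by
  classical
  obtain ⟨q, hq0, hq1, hq2, hq3⟩ := exists_minL h2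
  have hkey : ∀ {P : MvPolynomial ℕ Qa}, SuppD M (be + 1) P → ∀ {c : Qa},
      aeval x P = (c : ℂ) → (P = 0 ∨ P.totalDegree < q.totalDegree) → P = 0 ∧ c = 0 :=
    fun hP _ hc hdeg => key hx h0 hq3 hP hc hdeg
  have hlast : aeval x (pderiv be q) ≠ 0 := by
    intro h3
    have h4 := (hkey (suppD_pderiv hM2 hM hq1 be) (c := 0) h3 (deg_pderiv be)).1
    exact hq0 (h1 q (suppIn_of_pderiv hq1 h4) hq2)
  obtain ⟨Q, hQ1, hQ2, hQ3, hQ4⟩ := echelon (fun b => aeval x (pderiv b q)) (be + 1)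
    (be + 1 - al) al (by omega)
  have hbeQ : be ∈ Q := hQ4 be rfl hab hlast
  have hpos : 0 < q.totalDegree := by
    rcases deg_pderiv (q := q) be with h5 | h5
    · rw [h5, map_zero] at hlast
      exact absurd rfl hlast
    · omega
  have hd : ∀ c, (pderiv c q).totalDegree < q.totalDegree := by
    intro c
    rcases deg_pderiv (q := q) c with h5 | h5
    · rw [h5, totalDegree_zero]
      exact hpos
    · exact h5
  -- combinations of derivatives
  have hcomb : ∀ (s : Finset ℕ) (t : ℕ → Qa), SuppD M (be + 1) (∑ c ∈ s, C (t c) * pderiv c q) ∧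
      (∑ c ∈ s, C (t c) * pderiv c q).totalDegree < q.totalDegree := by
    intro s t
    refine ⟨?_, ?_⟩
    · intro a ha
      by_contra hcon
      rw [mem_support_iff] at ha
      refine ha ?_
      rw [coeff_sum]
      refine Finset.sum_eq_zero fun c _ => ?_
      have h5 : coeff a (pderiv c q) = 0 := by
        by_contra h6
        exact hcon (suppD_pderiv hM2 hM hq1 c a (mem_support_iff.2 h6))
      rw [coeff_C_mul, h5, mul_zero]
    · refine lt_of_le_of_lt (totalDegree_finsetSum _ _) ?_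
      rw [Finset.sup_lt_iff (by exact hpos)]
      intro c _
      refine lt_of_le_of_lt (totalDegree_mul _ _) ?_
      rw [totalDegree_C, zero_add]
      exact hd c
  -- the coefficients
  have h3 : ∀ b, ∃ ρ : ℕ → Qa, b ∈ Finset.Ico al (be + 1) → b ∉ Q →
      ∑ c ∈ Q.filter (b < ·), ρ c • aeval x (pderiv c q) = aeval x (pderiv b q) := by
    intro b
    by_cases h4 : b ∈ Finset.Ico al (be + 1) ∧ b ∉ Q
    · obtain ⟨ρ, hρ⟩ := hQ3 b h4.1 h4.2
      exact ⟨ρ, fun _ _ => hρ⟩
    · exact ⟨0, fun h5 h6 => absurd ⟨h5, h6⟩ h4⟩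
  choose ρ hρ using h3
  have hρ' : ∀ b ∈ Finset.Ico al (be + 1), b ∉ Q →
      pderiv b q = ∑ c ∈ Q.filter (b < ·), C (ρ b c) * pderiv c q := by
    intro b hb hbQ
    rw [← sub_eq_zero]
    refine (hkey (c := 0) ?_ ?_ ?_).1
    · intro a ha
      by_contra hcon
      rw [mem_support_iff] at ha
      refine ha ?_
      have h4 : coeff a (pderiv b q) = 0 := by
        by_contra h5
        exact hcon (suppD_pderiv hM2 hM hq1 b a (mem_support_iff.2 h5))
      have h5 : coeff a (∑ c ∈ Q.filter (b < ·), C (ρ b c) * pderiv c q) = 0 := by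
        by_contra h5
        exact hcon ((hcomb _ _).1 a (mem_support_iff.2 h5))
      rw [coeff_sub, h4, h5, sub_zero]
    · have h4 : (((0 : Qa) : Qa) : ℂ) = 0 := map_zero (algebraMap Qa ℂ)
      rw [h4, map_sub, sub_eq_zero, map_sum, ← hρ b hb hbQ]
      refine Finset.sum_congr rfl fun c _ => ?_
      rw [map_mul, algHom_C, Algebra.smul_def]
    · exact Or.inr (lt_of_le_of_lt (totalDegree_sub _ _) (max_lt (hd b) (hcomb _ _).2))
  -- the form
  have hform := fun (S : Finset (ℕ →₀ ℕ)) (z : ZI (PR al Q) S → Qa)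
    (hz : ∀ p, z (Sum.inl p) = ρ p.1.2 p.1.1) (y : Fin (be + 1) → ℂ) =>
      form hfin hq1 hQ1 ρ hρ' z hz y
  -- the coefficient a0
  obtain ⟨a0, ha0, ha0'⟩ : ∃ a0 ∈ SW M (Finset.range al ∪ Q), coeff a0 q ≠ 0 := by
    by_contra hcon
    push Not at hcon
    refine hq0 (eq_zero_of_aeval fun y => ?_)
    have h4 : aeval y q = aeval (ext fun i : Fin (be + 1) => y i.1) q := by
      refine aeval_congr hq1 fun i hi => ?_
      unfold ext
      rw [dif_pos hi]
    rw [h4, hform ∅ (Sum.elim (fun p => ρ p.1.2 p.1.1) fun _ => 0) (fun p => rfl)]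
    refine Finset.sum_eq_zero fun a ha => ?_
    rw [hcon a ha]
    have h5 : (((0 : Qa) : Qa) : ℂ) = 0 := map_zero (algebraMap Qa ℂ)
    rw [h5, zero_mul]
  refine ⟨Q, hQ1, hbeQ, a0, ha0, Sum.elim (fun p => ρ p.1.2 p.1.1)
    (fun a => (coeff a0 q)⁻¹ * coeff a.1 q), ?_⟩
  obtain ⟨z, hz⟩ : ∃ z : ZI (PR al Q) ((SW M (Finset.range al ∪ Q)).erase a0) → Qa,
      z = Sum.elim (fun p => ρ p.1.2 p.1.1) (fun a => (coeff a0 q)⁻¹ * coeff a.1 q) := ⟨_, rfl⟩
  rw [← hz]
  have hz1 : ∀ p, z (Sum.inl p) = ρ p.1.2 p.1.1 := fun p => by rw [hz]; rfl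
  have hz2 : ∀ a, z (Sum.inr a) = (coeff a0 q)⁻¹ * coeff a.1 q := fun a => by rw [hz]; rfl
  have hc0 : ((coeff a0 q : Qa) : ℂ) ≠ 0 := coe_inj ha0'
  have hval : ∀ y : Fin (be + 1) → ℂ, eval (pv z y) (GG (PR al Q)
      ((SW M (Finset.range al ∪ Q)).erase a0) (be + 1) a0) =
      aeval (ext y) (C (coeff a0 q)⁻¹ * q) := by
    intro y
    rw [eval_GG, map_mul, algHom_C, hform _ z hz1 y, ← Finset.add_sum_erase _ _ ha0, mul_add]
    have h5 : algebraMap Qa ℂ (coeff a0 q)⁻¹ = ((coeff a0 q : Qa) : ℂ)⁻¹ := by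
      rw [map_inv₀]
      rfl
    rw [h5, inv_mul_cancel_left₀ hc0, Finset.mul_sum]
    congr 1
    rw [← Finset.sum_coe_sort ((SW M (Finset.range al ∪ Q)).erase a0)
      (fun a => ((coeff a0 q : Qa) : ℂ)⁻¹ * (((coeff a q : Qa) : ℂ) * mon a (yy z y)))]
    refine Finset.sum_congr rfl fun a _ => ?_
    rw [hz2, ← mul_assoc]
    rfl
  have hx' : ∀ P : MvPolynomial ℕ Qa, (∀ a ∈ P.support, ∀ b ∈ a.support, b < be + 1) →
      aeval (ext fun i : Fin (be + 1) => x i.1) P = aeval x P := by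
    intro P hP
    refine aeval_congr (M := Set.univ) (fun a ha => ⟨trivial, hP a ha⟩) fun i hi => ?_
    unfold ext
    rw [dif_pos hi]
  refine ⟨?_, ?_⟩
  · rw [hval, map_mul, hx' q fun a ha => (hq1 a ha).2, algHom_C, ← Algebra.smul_def]
    exact Submodule.smul_mem _ _ hq2
  · have h5 : (fun o : Option {i : Fin (be + 1) // i.1 ∈ Q} => o.elim (1 : ℂ) fun i =>
        eval (pv z fun i : Fin (be + 1) => x i.1) (pderiv (Sum.inr i.1) (GG (PR al Q)
          ((SW M (Finset.range al ∪ Q)).erase a0) (be + 1) a0))) =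
        fun o => Option.casesOn' o (1 : ℂ) (fun i : {i : Fin (be + 1) // i.1 ∈ Q} =>
          (coeff a0 q)⁻¹ • aeval x (pderiv i.1.1 q)) := by
      funext o
      rcases o with _ | i
      · rfl
      · show eval (pv z fun i : Fin (be + 1) => x i.1) (pderiv (Sum.inr i.1) (GG (PR al Q)
          ((SW M (Finset.range al ∪ Q)).erase a0) (be + 1) a0)) =
          (coeff a0 q)⁻¹ • aeval x (pderiv i.1.1 q)
        rw [pderiv_eq z _ _ hval, pderiv_mul, pderiv_C, zero_mul, zero_add, map_mul, algHom_C,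
          hx' _ (fun a ha => (suppD_pderiv hM2 hM hq1 _ a ha).2.2), Algebra.smul_def]
    rw [h5, linearIndependent_option']
    have h6 : LinearIndependent Qa fun i : {i : Fin (be + 1) // i.1 ∈ Q} =>
        aeval x (pderiv i.1.1 q) := by
      have h7 : LinearIndependent Qa fun i : (Q : Set ℕ) => aeval x (pderiv i.1 q) := hQ2
      refine h7.comp (fun i : {i : Fin (be + 1) // i.1 ∈ Q} => (⟨i.1.1, i.2⟩ : (Q : Set ℕ))) ?_
      intro i j hij
      have h8 := congrArg Subtype.val hij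
      exact Subtype.ext (Fin.ext h8)
    refine ⟨h6.units_smul fun _ => Units.mk0 _ (inv_ne_zero ha0'), fun h7 => ?_⟩
    have h8 : (1 : ℂ) ∈ Submodule.span Qa ((fun c => aeval x (pderiv c q)) '' (Q : Set ℕ)) := by
      refine (Submodule.span_le.2 ?_) h7
      rintro _ ⟨i, rfl⟩
      exact Submodule.smul_mem _ _ (Submodule.subset_span ⟨i.1.1, i.2, rfl⟩)
    obtain ⟨t, ht⟩ := (Submodule.mem_span_image_finset_iff_exists_fun' Qa).1 h8
    have h9 := (hkey (hcomb Q t).1 (c := 1) (by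
      rw [map_sum]
      have h10 : (((1 : Qa) : Qa) : ℂ) = 1 := map_one (algebraMap Qa ℂ)
      rw [h10, ← ht]
      refine Finset.sum_congr rfl fun c _ => ?_
      rw [map_mul, algHom_C, Algebra.smul_def]) (Or.inr (hcomb Q t).2)).2
    exact one_ne_zero h9

end MP60829e.HD
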