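import Pool.Agent.Lib.MP_60829e_nt.FD.Sharp

/-! # The tangent space at a generic point, some coefficients fixed -/

open MvPolynomial Module

namespace MP60829e.HD

open MP60829e.ST (Qa Lsp Lt)
open MP60829e.FC (forms gs_gen)
open MP60829e.FD

private theorem smul_eq' (c : Qa) (z : ℂ) : c • z = (c : ℂ) * z := rfl

private theorem ev_eq_eval {K : Type} [Field K] {σ : Type} (c : σ → K) (p : MvPolynomial σ K) :
    TV.ev c p = eval c p := by
  induction p using MvPolynomial.induction_on with
  | C a => rw [TV.ev_C, eval_C]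
  | add p q hp hq => rw [map_add, map_add, hp, hq]
  | mul_X p i hp =>
    rw [TV.ev_mul, hp, TV.ev_X, map_mul, eval_X]
    rfl

private theorem dv_eq_sum {K : Type} [Field K] {σ : Type} [Fintype σ] (c v : σ → K)
    (p : MvPolynomial σ K) : TV.dv c v p = ∑ s, v s * eval c (pderiv s p) := by
  unfold TV.dv
  exact Finset.sum_congr rfl fun s _ => by rw [ev_eq_eval, smul_eq_mul]

private theorem ev_rename {K R : Type} [Field K] [CommRing R] [Algebra K R] {σ τ : Type}
    (f : σ → τ) (c : τ → K) (p : MvPolynomial σ R) :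
    TV.ev c (rename f p) = TV.ev (fun s => c (f s)) p := by
  induction p using MvPolynomial.induction_on with
  | C a => rw [rename_C, TV.ev_C, TV.ev_C]
  | add p q hp hq => rw [map_add, map_add, map_add, hp, hq]
  | mul_X p i hp => rw [map_mul, TV.ev_mul, TV.ev_mul, hp, rename_X, TV.ev_X, TV.ev_X]

private theorem dv_rename {K R : Type} [Field K] [CommRing R] [Algebra K R] {σ τ : Type}
    [Fintype σ] [Fintype τ] (f : σ → τ) (c v : τ → K) (p : MvPolynomial σ R) :
    TV.dv c v (rename f p) = TV.dv (fun s => c (f s)) (fun s => v (f s)) p := by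
  induction p using MvPolynomial.induction_on with
  | C a => rw [rename_C, TV.dv_C, TV.dv_C]
  | add p q hp hq => rw [map_add, TV.dv_add, TV.dv_add, hp, hq]
  | mul_X p i hp =>
    rw [map_mul, TV.dv_mul, TV.dv_mul, hp, rename_X, TV.dv_X, TV.dv_X, ev_rename, TV.ev_X,
      TV.ev_X]

private theorem dv_sub {K : Type} [Field K] {σ : Type} [Fintype σ] (c v : σ → K)
    (p q : MvPolynomial σ K) : TV.dv c v (p - q) = TV.dv c v p - TV.dv c v q := by
  have h := TV.dv_add c v (p - q) q
  rw [sub_add_cancel] at h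
  rw [h]
  ring

/-- The tangent space: the coefficients outside `J` are constant. -/
theorem tangentK {I : Type} {N n r : ℕ} (J : Finset (Fin n × Fin r))
    (c : Fin n × Fin r → Qa) (Y : I → Fin n × Fin r → Qa) (W : Ultrafilter I)
    (hc : ∀ᶠ a in (W : Filter I), ∀ p ∉ J, Y a p = c p)
    (hW : ∀ P : MvPolynomial J Qa, P ≠ 0 →
      ∀ᶠ a in (W : Filter I), eval (fun s : J => Y a s) P ≠ 0)
    (lam : Fin r → ℂ) (G : MvPolynomial (Fin N ⊕ Fin n) ℂ) (z : I → Fin N → Qa)
    (h : ∀ᶠ a in (W : Filter I), eval (pt2 lam (Y a) (z a)) G = 0) :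
    ∀ᶠ a in (W : Filter I), ∀ T : Fin n × Fin r → Qa, (∀ p ∉ J, T p = 0) →
      ∃ y : Fin N → Qa, ∑ l, eval (pt2 lam (Y a) (z a)) (pderiv (Sum.inl l) G) * (y l : ℂ) +
        ∑ i, eval (pt2 lam (Y a) (z a)) (pderiv (Sum.inr i) G) * TV.pt lam T i = 0 := by
  classical
  obtain ⟨q, P', hP1, hP2⟩ := forms ⊥
    (sub2 lam G : MvPolynomial ((Fin n × Fin r) ⊕ Fin N) ℂ)
  let P : (J ⊕ {p : Fin n × Fin r // p ∉ J}) ⊕ Fin q →
      MvPolynomial (J ⊕ ((Fin n × Fin r) ⊕ Fin N)) Qa :=
    Sum.elim (Sum.elim (fun s => X (Sum.inl s) - X (Sum.inr (Sum.inl s.1)))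
      (fun p => X (Sum.inr (Sum.inl p.1)) - C (c p.1)))
      (fun j => rename Sum.inr (P' j))
  have h3 : ∀ᶠ a in (W : Filter I), ∀ j,
      eval (Sum.elim (fun s : J => Y a s) (Sum.elim (Y a) (z a))) (P j) = 0 := by
    filter_upwards [h, hc] with a ha2 hac
    rintro ((s | p) | j)
    · simp only [P, Sum.elim_inl, map_sub, eval_X, Sum.elim_inr, sub_self]
    · simp only [P, Sum.elim_inl, map_sub, eval_X, Sum.elim_inr, eval_C]
      rw [hac p.1 p.2, sub_self]
    · have h5 := hP1 (Sum.elim (Y a) (z a)) (by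
        rw [ev_sub2, Submodule.mem_bot]
        exact ha2) j
      rw [← h5]
      simp only [P, Sum.elim_inr]
      rw [← ev_eq_eval, ev_rename, ev_eq_eval]
      rfl
  have h4 := gs_gen W (fun a (s : J) => Y a s) hW P (fun a => Sum.elim (Y a) (z a)) h3
  filter_upwards [h4] with a ha T hT
  obtain ⟨η, hη⟩ := ha fun s => T s
  have hη' : ∀ j, TV.dv (Sum.elim (fun s : J => Y a s) (Sum.elim (Y a) (z a)))
      (Sum.elim (fun s : J => T s) η) (P j) = 0 := by
    intro j
    rw [dv_eq_sum, Fintype.sum_sum_type]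
    exact hη j
  have hTp : ∀ p, η (Sum.inl p) = T p := by
    intro p
    by_cases hp : p ∈ J
    · have h6 := hη' (Sum.inl (Sum.inl ⟨p, hp⟩))
      simp only [P, Sum.elim_inl] at h6
      rw [dv_sub, TV.dv_X, TV.dv_X, Algebra.algebraMap_self, RingHom.id_apply,
        RingHom.id_apply] at h6
      exact (sub_eq_zero.1 h6).symm
    · have h6 := hη' (Sum.inl (Sum.inr ⟨p, hp⟩))
      simp only [P, Sum.elim_inl, Sum.elim_inr] at h6
      rw [dv_sub, TV.dv_X, TV.dv_C, Algebra.algebraMap_self, RingHom.id_apply, sub_zero] at h6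
      rw [hT p hp]
      exact h6
  refine ⟨fun l => η (Sum.inr l), ?_⟩
  have h5 : TV.dv (Sum.elim (Y a) (z a)) η (sub2 lam G) ∈ (⊥ : Submodule Qa ℂ) := by
    refine hP2 _ _ fun j => ?_
    have h6 := hη' (Sum.inr j)
    simp only [P, Sum.elim_inr] at h6
    rw [dv_rename, dv_eq_sum] at h6
    exact h6
  have h6 : η = Sum.elim T (fun l => η (Sum.inr l)) := by
    funext t
    rcases t with t | t
    · exact hTp t
    · rfl
  rw [h6, dv_sub2, Submodule.mem_bot] at h5
  exact h5

/-- The count for a family of rows with independent partial derivatives. -/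
theorem core {I : Type} {N n r : ℕ} (J : Finset (Fin n × Fin r))
    (c : Fin n × Fin r → Qa) (Y : I → Fin n × Fin r → Qa) (W : Ultrafilter I)
    (hc : ∀ᶠ a in (W : Filter I), ∀ p ∉ J, Y a p = c p)
    (hW : ∀ P : MvPolynomial J Qa, P ≠ 0 →
      ∀ᶠ a in (W : Filter I), eval (fun s : J => Y a s) P ≠ 0)
    (lam : Fin r → ℂ) (hli : LinearIndependent Qa lam) (hlog : ∀ j, lam j ∈ Lsp)
    (G : MvPolynomial (Fin N ⊕ Fin n) ℂ) (z : I → Fin N → Qa)
    (h : ∀ᶠ a in (W : Filter I), eval (pt2 lam (Y a) (z a)) G = 0) (B : Finset (Fin n))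
    (hB : ∀ᶠ a in (W : Filter I), LinearIndependent Qa
      (fun b : B => eval (pt2 lam (Y a) (z a)) (pderiv (Sum.inr (b : Fin n)) G))) :
    ∀ᶠ a in (W : Filter I), (J.filter fun p => p.1 ∈ B).card ≤
      finrank Qa (Submodule.span Qa (Set.range fun l : Fin N =>
        eval (pt2 lam (Y a) (z a)) (pderiv (Sum.inl l) G))) + B.card * (B.card - 1) := by
  classical
  filter_upwards [tangentK J c Y W hc hW lam G z h, hB] with a ha hBa
  set g : Fin n → ℂ := fun i => eval (pt2 lam (Y a) (z a)) (pderiv (Sum.inr i) G) with hg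
  set p : Fin N → ℂ := fun l => eval (pt2 lam (Y a) (z a)) (pderiv (Sum.inl l) G) with hp
  set S : Submodule Qa ℂ := Submodule.span Qa (Set.range p) with hS
  have hfS : FiniteDimensional Qa S := FiniteDimensional.span_of_finite Qa (Set.finite_range p)
  set JB : Finset (Fin n × Fin r) := J.filter fun p => p.1 ∈ B with hJB
  -- extension by zero
  let E : (JB → Qa) →ₗ[Qa] (Fin n × Fin r → Qa) :=
    { toFun := fun ψ p => if hp : p ∈ JB then ψ ⟨p, hp⟩ else 0
      map_add' := fun ψ χ => by
        funext p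
        simp only [Pi.add_apply]
        split_ifs
        · rfl
        · rw [add_zero]
      map_smul' := fun c ψ => by
        funext p
        simp only [Pi.smul_apply, RingHom.id_apply]
        split_ifs
        · rfl
        · rw [smul_zero] }
  have hE : ∀ ψ p, E ψ p = if hp : p ∈ JB then ψ ⟨p, hp⟩ else 0 := fun _ _ => rfl
  let ε : Fin B.card ≃ B := (Finset.equivFin B).symm
  let F : (JB → Qa) →ₗ[Qa] (Fin B.card → Fin r → Qa) :=
    { toFun := fun ψ t j => E ψ ((ε t : Fin n), j)
      map_add' := fun ψ χ => by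
        funext t j
        rw [map_add]
        rfl
      map_smul' := fun c ψ => by
        funext t j
        rw [map_smul]
        rfl }
  have hF : ∀ ψ t j, F ψ t j = E ψ ((ε t : Fin n), j) := fun _ _ _ => rfl
  have hFinj : Function.Injective F := by
    rw [← LinearMap.ker_eq_bot, LinearMap.ker_eq_bot']
    intro ψ hψ
    funext s
    have hs : s.1 ∈ J ∧ s.1.1 ∈ B := Finset.mem_filter.1 s.2
    have h1 := congrFun (congrFun hψ (ε.symm ⟨s.1.1, hs.2⟩)) s.1.2
    rw [hF, Equiv.apply_symm_apply, hE, dif_pos s.2] at h1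
    exact h1
  have hval : ∀ ψ, bT lam (fun t => g (ε t)) (F ψ) = ∑ i, g i * TV.pt lam (E ψ) i := by
    intro ψ
    rw [bT_apply]
    have h1 : ∑ i, g i * TV.pt lam (E ψ) i = ∑ i ∈ B, g i * TV.pt lam (E ψ) i := by
      symm
      apply Finset.sum_subset (Finset.subset_univ B)
      intro i _ hi
      have h2 : TV.pt lam (E ψ) i = 0 := by
        unfold TV.pt
        refine Finset.sum_eq_zero fun j _ => ?_
        rw [hE, dif_neg, zero_smul]
        rw [hJB, Finset.mem_filter]
        exact fun h => hi h.2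
      rw [h2, mul_zero]
    rw [h1, ← Finset.sum_coe_sort B, ← Equiv.sum_comp ε]
    refine Finset.sum_congr rfl fun t _ => ?_
    rfl
  have hmem : ∀ ψ, bT lam (fun t => g (ε t)) (F ψ) ∈ S := by
    intro ψ
    obtain ⟨y, hy⟩ := ha (E ψ) (by
      intro q hq
      rw [hE, dif_neg]
      rw [hJB, Finset.mem_filter]
      exact fun h => hq h.1)
    rw [hval]
    have h1 : ∑ i, g i * TV.pt lam (E ψ) i = -∑ l, p l * (y l : ℂ) := by
      linear_combination hy
    rw [h1]
    refine Submodule.neg_mem _ (Submodule.sum_mem _ fun l _ => ?_)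
    rw [mul_comm, ← smul_eq']
    exact S.smul_mem _ (Submodule.subset_span ⟨l, rfl⟩)
  have htop : S.comap (bT lam (fun t => g (ε t)) ∘ₗ F) = ⊤ := by
    rw [eq_top_iff]
    intro ψ _
    exact hmem ψ
  have h1 := finrank_comap_le (bT lam (fun t => g (ε t)) ∘ₗ F) S
  rw [htop, finrank_top, Module.finrank_fintype_fun_eq_card, Fintype.card_coe] at h1
  have h2 : finrank Qa (LinearMap.ker (bT lam (fun t => g (ε t)) ∘ₗ F)) ≤
      finrank Qa (LinearMap.ker (bT lam fun t => g (ε t))) := by
    have h3 : (LinearMap.ker (bT lam (fun t => g (ε t)) ∘ₗ F)).map F ≤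
        LinearMap.ker (bT lam fun t => g (ε t)) := by
      rintro _ ⟨ψ, hψ, rfl⟩
      exact hψ
    rw [LinearEquiv.finrank_eq (Submodule.equivMapOfInjective F hFinj _)]
    exact Submodule.finrank_mono h3
  have h3 := finrank_ker_sharp lam hli hlog (fun t => g (ε t)) (hBa.comp ε ε.injective)
  omega

/-- The derivative in a direction. -/
theorem dir_deriv {σ : Type} [Fintype σ] (Ψ : MvPolynomial σ ℂ) (x v : σ → ℂ)
    (p : Polynomial ℂ) (h : ∀ t : ℂ, eval (fun s => x s + t * v s) Ψ = p.eval t) :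
    ∑ s, v s * eval x (pderiv s Ψ) = (Polynomial.derivative p).eval 0 := by
  set g : σ → Polynomial ℂ := fun s => Polynomial.C (x s) + Polynomial.X * Polynomial.C (v s)
    with hg
  have hev : ∀ (Q : MvPolynomial σ ℂ) (t : ℂ),
      Polynomial.eval t (aeval g Q) = eval (fun s => x s + t * v s) Q := by
    intro Q t
    rw [eval_aeval_poly]
    congr 2
    funext s
    rw [hg]
    dsimp only
    rw [Polynomial.eval_add, Polynomial.eval_C, Polynomial.eval_mul, Polynomial.eval_X,
      Polynomial.eval_C]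
  have h1 : aeval g Ψ = p := by
    apply Polynomial.funext
    intro t
    rw [hev, h]
  rw [← h1, derivative_aeval, Polynomial.eval_finsetSum]
  refine Finset.sum_congr rfl fun s _ => ?_
  rw [Polynomial.eval_mul, hev]
  have h2 : (fun s => x s + 0 * v s) = x := by
    funext s
    ring
  have h3 : Polynomial.eval 0 (Polynomial.derivative (g s)) = v s := by
    simp [hg]
  rw [h2, h3, mul_comm]

end MP60829e.HD
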